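import Mathlib
import Pool.Prelude.Def_H_3587d628

/-! Graph canonization relative to an oracle. -/

namespace Pool.Agent.P.MP_9e61a4_lc

open N487b59b3 N68a2faeb

/-- The answers of the oracle `O` to the first `j` adaptive queries on input `a`; each query is
computed from `a` and the earlier answers. -/
def oans {α : Type} (O : List Bool → Bool) (query : α × List Bool → List Bool) (a : α) :
    ℕ → List Bool
  | 0 => []
  | j + 1 => oans O query a j ++ [O (query (a, oans O query a j))]

/-- `f` is computable in polynomial time with oracle `O`: polynomially many adaptive queries, the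
next query and the output being computed in polynomial time from the input and the answers. -/
def PolyTimeIn {α β : Type} [N487b59b3 α] [N487b59b3 β] (O : List Bool → Bool) (f : α → β) :
    Prop :=
  ∃ (query : α × List Bool → List Bool) (out : α × List Bool → β) (p : Polynomial ℕ),
    IsPolyTime query ∧ IsPolyTime out ∧
    ∀ a, f a = out (a, oans O query a (p.eval (bitEncode a).length))

open Classical in
/-- The adjacency matrix of a graph on `Fin n`. -/
noncomputable def adjMat {n : ℕ} (G : SimpleGraph (Fin n)) : List (List Bool) :=
  List.ofFn fun i => List.ofFn fun j => decide (G.Adj i j)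

open Classical in
/-- The language of pairs of adjacency matrices of isomorphic graphs. -/
noncomputable def GI (w : List Bool) : Bool :=
  decide (∃ (n : ℕ) (G H : SimpleGraph (Fin n)),
    w = bitEncode (adjMat G, adjMat H) ∧ Nonempty (G ≃g H))

/-- Graph isomorphism is decided in polynomial time with oracle `O`. -/
def SolvesGI (O : List Bool → Bool) : Prop :=
  ∃ t : List (List Bool) × List (List Bool) → Bool, PolyTimeIn O t ∧
    ∀ (n : ℕ) (G H : SimpleGraph (Fin n)), t (adjMat G, adjMat H) = true ↔ Nonempty (G ≃g H)

/-- `c` is a canonical form on the class `K`: for `G` in `K`, `c` returns the matrix of a graph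
isomorphic to `G` on the same vertex set, and the same matrix for all graphs isomorphic to `G`. -/
def IsCanon (K : (n : ℕ) → SimpleGraph (Fin n) → Prop)
    (c : List (List Bool) → List (List Bool)) : Prop :=
  ∀ (n : ℕ) (G : SimpleGraph (Fin n)), K n G →
    (∃ H : SimpleGraph (Fin n), c (adjMat G) = adjMat H ∧ Nonempty (G ≃g H)) ∧
    ∀ H : SimpleGraph (Fin n), Nonempty (G ≃g H) → c (adjMat H) = c (adjMat G)

/-- The automorphism group of `G` has a normal Sylow 2-subgroup and is nilpotent if it is
solvable. -/
def NilAut (n : ℕ) (G : SimpleGraph (Fin n)) : Prop :=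
  (∃ P : Sylow 2 (G ≃g G), (P : Subgroup (G ≃g G)).Normal) ∧
    (Group.IsSolvable (G ≃g G) → Group.IsNilpotent (G ≃g G))

end Pool.Agent.P.MP_9e61a4_lc
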