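import Pool.Agent.P.MP_9e61a4_lc.Defs

/-! The counting classes `Mod_k P`. -/

namespace Pool.Agent.P.MP_9e61a4_lc

open N487b59b3 N68a2faeb

/-- `L` is in `Mod_k P`: `x` is in `L` exactly when the number of witnesses `y` (strings of length
`q |x|` accepted by a polynomial-time relation) is not divisible by `k`. -/
def ModP (k : ℕ) : DecisionComplexityClass :=
  { L | ∃ (q : Polynomial ℕ) (R : List Bool × List Bool → Bool), IsPolyTime R ∧
      ∀ x, L x = true ↔
        ¬ k ∣ {y : List Bool | y.length = q.eval x.length ∧ R (x, y) = true}.ncard }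

end Pool.Agent.P.MP_9e61a4_lc
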