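import Pool.Agent.Lib.PolyTime.Parse
import Pool.Agent.P.MP_9e61a4_lc.Defs

/-! Closure properties of oracle polynomial time. -/

namespace Pool.Agent.P.MP_9e61a4_lc

open Function N487b59b3 N68a2faeb Pool.Agent.Lib.PolyTime

section

variable {α : Type} {O : Str → Bool} {q : α × Str → Str} {a : α}

theorem Orc_length_oans (j : ℕ) : (oans O q a j).length = j := by
  induction j with
  | zero => rfl
  | succ j ih => simp [oans, ih]

theorem Orc_take_oans {i j : ℕ} (h : i ≤ j) : (oans O q a j).take i = oans O q a i := by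
  induction j, h using Nat.le_induction with
  | base => exact List.take_of_length_le (Orc_length_oans i).le
  | succ j h ih => rw [oans, List.take_append_of_le_length (by rwa [Orc_length_oans]), ih]

theorem Orc_oans_congr {β : Type} {q' : β × Str → Str} {b : β} (j : ℕ)
    (h : ∀ l : Str, l.length < j → q (a, l) = q' (b, l)) : oans O q a j = oans O q' b j := by
  induction j with
  | zero => rfl
  | succ j ih =>
    rw [oans, oans, ih fun l hl => h l (by omega), h _ (by rw [Orc_length_oans]; omega)]

theorem Orc_drop_oans {β : Type} {q' : β × Str → Str} {b : β} (K t : ℕ)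
    (h : ∀ u, u < t → q (a, oans O q a (K + u)) = q' (b, (oans O q a (K + u)).drop K)) :
    (oans O q a (K + t)).drop K = oans O q' b t := by
  induction t with
  | zero => exact List.drop_of_length_le (by rw [Orc_length_oans]; omega)
  | succ t ih =>
    have e := ih fun u hu => h u (by omega)
    rw [← Nat.add_assoc, oans, oans,
      List.drop_append_of_le_length (by rw [Orc_length_oans]; omega), h t (by omega), e]

end

variable {α β γ : Type} [N487b59b3 α] [N487b59b3 β] [N487b59b3 γ] {O : Str → Bool}

/-- A flexible form of `PolyTimeIn`. -/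
def Flex (O : Str → Bool) (f : α → β) : Prop :=
  ∃ (q : α × Str → Str) (o : α × Str → β) (n : α → ℕ), PT q ∧ PT o ∧ Small n ∧
    ∀ a m, n a ≤ m → f a = o (a, oans O q a m)

theorem Flex.of_polyTimeIn {f : α → β} (h : PolyTimeIn O f) : Flex O f := by
  obtain ⟨q, o, p, hq, ho, h⟩ := h
  have h1 := PT.of_isPolyTime hq
  have h2 := PT.of_isPolyTime ho
  refine ⟨q, fun x => o (x.1, x.2.take (p.eval (sz x.1))), fun a => p.eval (sz a), h1,
    by fun_prop, by fun_prop, fun a m hm => ?_⟩
  dsimp only
  rw [Orc_take_oans hm]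
  exact h a

theorem Flex.polyTimeIn {f : α → β} (h : Flex O f) : PolyTimeIn O f := by
  obtain ⟨q, o, n, hq, ho, ⟨p, hp⟩, h⟩ := h
  exact ⟨q, o, p, hq.isPolyTime, ho.isPolyTime, fun a => h a _ (hp a)⟩

theorem Flex.of_pt {f : α → β} (h : PT f) : Flex O f :=
  ⟨fun _ => [], fun x => f x.1, fun _ => 0, PT.const _, by fun_prop, Small.const 0,
    fun _ _ _ => rfl⟩

theorem Flex.congr {f g : α → β} (h : Flex O f) (e : ∀ a, g a = f a) : Flex O g := by
  have : g = f := funext e
  rw [this]
  exact h

theorem Flex.size {f : α → β} (h : Flex O f) : PB sz fun a => sz (f a) := by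
  obtain ⟨q, o, n, hq, ho, hn, h⟩ := h
  obtain ⟨p, hp⟩ := ho.size
  have h1 : Small fun a : α => p.eval (2 * sz a + 1 + 3 * n a) := by fun_prop
  refine PB.mono h1 fun a => ?_
  rw [h a _ le_rfl]
  refine (hp _).trans (eval_mono p ?_)
  rw [sz_pair, sz_str (oans O q a (n a)), Orc_length_oans]

theorem Flex.ask {q : α → Str} (h : PT q) : Flex O fun a => O (q a) := by
  refine ⟨fun x => q x.1, fun x => x.2.headD false, fun _ => 1, by fun_prop, by fun_prop,
    Small.const 1, fun a m hm => ?_⟩
  have e := Orc_take_oans (O := O) (q := fun x : α × Str => q x.1) (a := a) hm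
  dsimp only
  rcases h1 : oans O (fun x : α × Str => q x.1) a m with _ | ⟨c, r⟩
  · rw [h1] at e
    simp [oans] at e
  · rw [h1] at e
    simp only [oans, List.take_succ_cons, List.take_zero, List.nil_append, List.cons.injEq,
      and_true] at e
    simp [e]

/-- Sequential composition: first `g`, then `f` on the input and the value of `g`. -/
theorem Flex.seq {f : α × β → γ} {g : α → β} (hf : Flex O f) (hg : Flex O g) :
    Flex O fun a => f (a, g a) := by
  have hsz : Small fun a => sz (g a) := hg.size
  obtain ⟨q, o, n, hq, ho, ⟨p, hp⟩, h⟩ := hf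
  obtain ⟨q', o', n', hq', ho', ⟨p', hp'⟩, h'⟩ := hg
  have hN : PT fun a : α => p'.eval (sz a) := by fun_prop
  have hNs : Small fun a : α => p'.eval (sz a) := by fun_prop
  set N : α → ℕ := fun a : α => p'.eval (sz a) with hNd
  have hb : ∀ a, n' a ≤ N a := hp'
  clear_value N
  let Q : α × Str → Str := fun x =>
    if x.2.length < N x.1 then q' x else
      q ((x.1, o' (x.1, x.2.take (N x.1))), x.2.drop (N x.1))
  have k1 : ∀ a m, N a ≤ m → o' (a, (oans O Q a m).take (N a)) = g a := by
    intro a m hm
    rw [Orc_take_oans hm, h' a _ (hb a)]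
    congr 2
    exact Orc_oans_congr _ fun l hl => by simp only [Q, hl, if_true]
  refine ⟨Q, fun x => o ((x.1, o' (x.1, x.2.take (N x.1))), x.2.drop (N x.1)),
    fun a => N a + p.eval (2 * sz a + 1 + sz (g a)), by simp only [Q]; fun_prop, by fun_prop,
    by fun_prop, fun a m hm => ?_⟩
  dsimp only at hm ⊢
  obtain ⟨t, rfl⟩ : ∃ t, m = N a + t := ⟨m - N a, by omega⟩
  rw [k1 a _ (by omega), Orc_drop_oans (q' := q) (b := (a, g a)) (N a) t fun u _ => ?_]
  · refine h _ _ ((hp _).trans ?_)
    rw [sz_pair]
    omega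
  · have e : ¬ (oans O Q a (N a + u)).length < N a := by rw [Orc_length_oans]; omega
    have e2 := k1 a (N a + u) (by omega)
    generalize oans O Q a (N a + u) = w at e e2
    simp only [Q, e, if_false, e2]

theorem Orc_pre {f : β → γ} {g : α → β} (hf : Flex O f) (hg : PT g) :
    Flex O fun a => f (g a) := by
  obtain ⟨q, o, n, hq, ho, hn, h⟩ := hf
  refine ⟨fun x => q (g x.1, x.2), fun x => o (g x.1, x.2), fun a => n (g a), by fun_prop,
    by fun_prop, hn.comp hg, fun a m hm => ?_⟩
  dsimp only
  rw [h _ m hm]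
  exact congrArg (fun l => o (g a, l)) (Orc_oans_congr m fun _ _ => rfl)

theorem Flex.comp {f : β → γ} {g : α → β} (hf : Flex O f) (hg : Flex O g) :
    Flex O fun a => f (g a) :=
  Flex.seq (f := fun x : α × β => f x.2) (Orc_pre hf (by fun_prop)) hg

theorem Orc_post {f : α → β} {g : α × β → γ} (hf : Flex O f) (hg : PT g) :
    Flex O fun a => g (a, f a) :=
  Flex.seq (Flex.of_pt hg) hf

theorem Flex.pair {f : α → β} {g : α → γ} (hf : Flex O f) (hg : Flex O g) :
    Flex O fun a => (f a, g a) :=
  Flex.seq (f := fun x : α × γ => (f x.1, x.2))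
    (Orc_post (f := fun x : α × γ => f x.1) (g := fun y : (α × γ) × β => (y.2, y.1.2))
      (Orc_pre hf (by fun_prop)) (by fun_prop)) hg

/-- Keep the old state when the new one is larger than `B`. -/
def Orc_guard (B : ℕ) (b c : β) : β := if sz c ≤ B then c else b

theorem Orc_sz_guard {B C : ℕ} {b c : β} (h : B ≤ C) (hb : sz b ≤ C) :
    sz (Orc_guard B b c) ≤ C := by
  unfold Orc_guard
  split_ifs <;> omega

/-- One round of the simulated fold. -/
def Orc_step (o : (α × β × γ) × Str → β) (a : α) (B N : ℕ) (st : β × Str) (x : γ) : β × Str :=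
  (Orc_guard B st.1 (o ((a, st.1, x), st.2.take N)), st.2.drop N)

omit [N487b59b3 α] [N487b59b3 γ] in
theorem Orc_sz_step (o : (α × β × γ) × Str → β) (a : α) {B C : ℕ} (N : ℕ) (h : B ≤ C)
    (l : List γ) (st : β × Str) (hs : sz st.1 ≤ C) :
    sz (l.foldl (Orc_step o a B N) st).1 ≤ C ∧
      sz (l.foldl (Orc_step o a B N) st).2 ≤ sz st.2 := by
  induction l generalizing st with
  | nil => exact ⟨hs, le_rfl⟩
  | cons x l ih =>
    have h1 := ih (Orc_step o a B N st x) (Orc_sz_guard h hs)
    exact ⟨h1.1, h1.2.trans (sz_drop_le _ _)⟩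

omit [N487b59b3 γ] in
theorem Orc_sz_fold (f : β → γ → β) {B C : ℕ} (h : B ≤ C) (l : List γ) (s : β) (hs : sz s ≤ C) :
    sz (l.foldl (fun b x => Orc_guard B b (f b x)) s) ≤ C := by
  induction l generalizing s with
  | nil => exact hs
  | cons x l ih => exact ih _ (Orc_sz_guard h hs)

theorem Orc_fold_core {f : α × β × γ → β} (hf : Flex O f) (P : Polynomial ℕ) :
    Flex O fun p : α × List γ × β =>
      p.2.1.foldl (fun b x => Orc_guard (P.eval (sz p.1)) b (f (p.1, b, x))) p.2.2 := by
  obtain ⟨q, o, n, hq, ho, ⟨r, hr⟩, h⟩ := hf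
  have hN : PT fun p : α × List γ × β =>
      r.eval (2 * sz p.1 + 1 + (2 * (sz p.2.2 + P.eval (sz p.1)) + 1 + sz p.2.1)) + 1 := by
    fun_prop
  have hNs : Small fun p : α × List γ × β =>
      r.eval (2 * sz p.1 + 1 + (2 * (sz p.2.2 + P.eval (sz p.1)) + 1 + sz p.2.1)) + 1 := by
    fun_prop
  set N : α × List γ × β → ℕ := fun p =>
    r.eval (2 * sz p.1 + 1 + (2 * (sz p.2.2 + P.eval (sz p.1)) + 1 + sz p.2.1)) + 1 with hNd
  have hN0 : ∀ p, 0 < N p := fun p => Nat.succ_pos _
  have hb : ∀ (p : α × List γ × β) (b : β), sz b ≤ sz p.2.2 + P.eval (sz p.1) →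
      ∀ x ∈ p.2.1, n (p.1, b, x) ≤ N p := fun p b hb x hx => by
    have h1 := hr (p.1, b, x)
    have h2 := sz_le_of_mem hx
    have h3 : r.eval (sz (p.1, b, x)) ≤
        r.eval (2 * sz p.1 + 1 + (2 * (sz p.2.2 + P.eval (sz p.1)) + 1 + sz p.2.1)) :=
      eval_mono r (by rw [sz_pair, sz_pair]; omega)
    simp only [hNd]
    omega
  clear_value N
  let sim : ((α × List γ × β) × Str) × ℕ → β × Str := fun y =>
    (y.1.1.2.1.take y.2).foldl (Orc_step o y.1.1.1 (P.eval (sz y.1.1.1)) (N y.1.1))
      (y.1.1.2.2, y.1.2)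
  have hsim : PT sim := by
    refine PT.foldl (f := fun y : ((α × List γ × β) × Str) × ℕ =>
      Orc_step o y.1.1.1 (P.eval (sz y.1.1.1)) (N y.1.1)) (by fun_prop) (by fun_prop)
      (by unfold Orc_step Orc_guard; fun_prop) ?_
    have h1 : Small fun y : ((α × List γ × β) × Str) × ℕ =>
        2 * (sz y.1.1.2.2 + P.eval (sz y.1.1.1)) + 1 + sz y.1.2 := by fun_prop
    refine (PB.reindex h1 (Prod.fst : (((α × List γ × β) × Str) × ℕ) × ℕ → _)).mono fun y => ?_
    have h2 := Orc_sz_step o y.1.1.1.1 (B := P.eval (sz y.1.1.1.1))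
      (C := sz y.1.1.1.2.2 + P.eval (sz y.1.1.1.1)) (N y.1.1.1) (by omega)
      ((y.1.1.1.2.1.take y.1.2).take y.2) (y.1.1.1.2.2, y.1.1.2) (by dsimp only; omega)
    rw [sz_pair']
    dsimp only at h2 ⊢
    omega
  let Q : (α × List γ × β) × Str → Str := fun x =>
    ((x.1.2.1.drop (x.2.length / N x.1)).take 1).flatMap fun c =>
      q ((x.1.1, (sim (x, x.2.length / N x.1)).1, c), x.2.drop (x.2.length / N x.1 * N x.1))
  have hQ : PT Q := PT.flatMap (f := fun (x : (α × List γ × β) × Str) (c : γ) =>
      q ((x.1.1, (sim (x, x.2.length / N x.1)).1, c), x.2.drop (x.2.length / N x.1 * N x.1)))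
    (by fun_prop) (by fun_prop)
  have key : ∀ (p : α × List γ × β) (k : ℕ), k ≤ p.2.1.length → ∀ m, k * N p ≤ m →
      sim ((p, oans O Q p m), k) =
        ((p.2.1.take k).foldl (fun b x => Orc_guard (P.eval (sz p.1)) b (f (p.1, b, x))) p.2.2,
          (oans O Q p m).drop (k * N p)) := by
    intro p k
    induction k with
    | zero => intro _ m _; simp [sim]
    | succ k ih =>
      intro hk m hm
      have hk' : k < p.2.1.length := hk
      rw [Nat.succ_mul] at hm
      have e0 := ih hk'.le m (by omega)
      set b := (p.2.1.take k).foldl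
        (fun b x => Orc_guard (P.eval (sz p.1)) b (f (p.1, b, x))) p.2.2 with hbd
      have hbs : sz b ≤ sz p.2.2 + P.eval (sz p.1) :=
        Orc_sz_fold (fun b x => f (p.1, b, x)) (by omega) _ _ (by omega)
      have e1 : (oans O Q p (k * N p + N p)).drop (k * N p) =
          oans O q (p.1, b, p.2.1[k]) (N p) := by
        refine Orc_drop_oans _ _ fun u hu => ?_
        have e : (k * N p + u) / N p = k := by
          rw [Nat.add_comm, Nat.add_mul_div_right _ _ (hN0 p), Nat.div_eq_of_lt hu, Nat.zero_add]
        have e2 := ih hk'.le (k * N p + u) (by omega)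
        have e3 := Orc_length_oans (O := O) (q := Q) (a := p) (k * N p + u)
        generalize oans O Q p (k * N p + u) = w at e2 e3
        simp only [Q, e3, e, e2]
        rw [List.drop_eq_getElem_cons hk', List.take_succ_cons, List.take_zero, List.flatMap_cons,
          List.flatMap_nil, List.append_nil]
      simp only [sim] at e0 ⊢
      rw [List.take_succ_eq_append_getElem hk', List.foldl_append, List.foldl_append, e0]
      simp only [List.foldl_cons, List.foldl_nil, Orc_step]
      rw [List.take_drop, Orc_take_oans hm, e1, List.drop_drop, Nat.succ_mul,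
        ← h _ _ (hb p b hbs _ (List.getElem_mem hk'))]
  refine ⟨Q, fun x => (sim (x, x.1.2.1.length)).1, fun p => p.2.1.length * N p, hQ, by fun_prop,
    by fun_prop, fun p m hm => ?_⟩
  dsimp only at hm ⊢
  rw [key p _ le_rfl m hm, List.take_length]

theorem Flex.foldl {l : α → List γ} {s : α → β} {f : α → β → γ → β} (hl : Flex O l)
    (hs : Flex O s) (hf : Flex O fun p : α × β × γ => f p.1 p.2.1 p.2.2)
    (hb : PB (fun p : α × ℕ => sz p.1)
      (fun p => sz (((l p.1).take p.2).foldl (f p.1) (s p.1)))) :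
    Flex O fun a => (l a).foldl (f a) (s a) := by
  obtain ⟨P, hP⟩ := hb
  refine ((Orc_fold_core hf P).seq (hl.pair hs)).congr fun a => ?_
  have key : ∀ k, k ≤ (l a).length →
      ((l a).take k).foldl (fun b x => Orc_guard (P.eval (sz a)) b (f a b x)) (s a) =
        ((l a).take k).foldl (f a) (s a) := by
    intro k
    induction k with
    | zero => intro _; rfl
    | succ k ih =>
      intro hk
      have hk' : k < (l a).length := hk
      have h1 := hP (a, k + 1)
      dsimp only at h1
      rw [List.take_succ_eq_append_getElem hk', List.foldl_append] at h1 ⊢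
      rw [List.foldl_append, ih hk'.le]
      simp only [List.foldl_cons, List.foldl_nil] at h1 ⊢
      rw [Orc_guard, if_pos h1]
  have e := key _ le_rfl
  rw [List.take_length] at e
  exact e.symm

theorem Flex.iterate {n : α → ℕ} {s : α → β} {F : α → β → β} (hn : PT n) (hn' : Small n)
    (hs : Flex O s) (hF : Flex O fun p : α × β => F p.1 p.2)
    (hb : PB (fun p : α × ℕ => sz p.1) (fun p => sz ((F p.1)^[min p.2 (n p.1)] (s p.1)))) :
    Flex O fun a => (F a)^[n a] (s a) := by
  have e : ∀ (a : α) (l : Str) (b : β),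
      l.foldl (fun b _ => F a b) b = (F a)^[l.length] b := by
    intro a l
    induction l with
    | nil => intro b; rfl
    | cons x l ih => intro b; simp [ih]
  refine (Flex.foldl (l := fun a => List.replicate (n a) true) (f := fun a b _ => F a b)
    (Flex.of_pt (by fun_prop)) hs
    (Orc_pre (g := fun p : α × β × Bool => (p.1, p.2.1)) hF (by fun_prop)) ?_).congr fun a => ?_
  · refine hb.mono fun p => ?_
    rw [e, List.length_take, List.length_replicate]
  · rw [e, List.length_replicate]

theorem Flex.flatMap {l : α → List β} {f : α → β → List γ} (hl : Flex O l)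
    (hf : Flex O fun p : α × β => f p.1 p.2) : Flex O fun a => (l a).flatMap (f a) := by
  have e : ∀ (a : α) (r : List β) (acc : List γ),
      r.foldl (fun acc x => acc ++ f a x) acc = acc ++ r.flatMap (f a) := by
    intro a r
    induction r with
    | nil => intro acc; simp
    | cons x r ih => intro acc; simp [ih]
  refine (Flex.foldl (s := fun _ => ([] : List γ)) (f := fun a acc x => acc ++ f a x) hl
    (Flex.of_pt (PT.const _))
    (Orc_post (f := fun p : α × List γ × β => f p.1 p.2.2)
      (g := fun y : (α × List γ × β) × List γ => y.1.2.1 ++ y.2)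
      (Orc_pre (g := fun p : α × List γ × β => (p.1, p.2.2)) hf (by fun_prop)) (by fun_prop))
    ?_).congr fun a => by rw [e, List.nil_append]
  obtain ⟨q, hq⟩ := hf.size
  have h1 := hl.size.reindex (Prod.fst : α × ℕ → α)
  refine (h1.mul (PB.eval q ((((PB.const 2).mul PB.self).add (PB.const 1)).add
    h1))).mono fun p => ?_
  refine (PT.sz_foldl_le (B := q.eval (2 * sz p.1 + 1 + sz (l p.1))) _ _ fun b x hx => ?_).trans ?_
  · rw [sz_append]
    refine Nat.add_le_add_left ((hq (p.1, x)).trans (eval_mono q ?_)) _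
    have := sz_le_of_mem (List.mem_of_mem_take hx)
    rw [sz_pair]
    omega
  · have : ((l p.1).take p.2).length ≤ sz (l p.1) :=
      (List.length_take_le' _ _).trans (length_le_sz _)
    rw [sz_nil, Nat.zero_add]
    gcongr

theorem Flex.map {l : α → List β} {f : α → β → γ} (hl : Flex O l)
    (hf : Flex O fun p : α × β => f p.1 p.2) : Flex O fun a => (l a).map (f a) := by
  refine (Flex.flatMap (f := fun a x => [f a x]) hl
    (Orc_post (g := fun y : (α × β) × γ => [y.2]) hf (by fun_prop))).congr fun a => ?_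
  induction l a with
  | nil => rfl
  | cons x r ih => simp [ih]

theorem Flex.filter {l : α → List β} {f : α → β → Bool} (hl : Flex O l)
    (hf : Flex O fun p : α × β => f p.1 p.2) : Flex O fun a => (l a).filter (f a) := by
  refine (Flex.flatMap (f := fun a x => bif f a x then [x] else []) hl
    (Orc_post (g := fun y : (α × β) × Bool => bif y.2 then [y.1.2] else []) hf
      (by fun_prop))).congr fun a => ?_
  induction l a with
  | nil => rfl
  | cons x r ih => cases h : f a x <;> simp [ih, h]

theorem Flex.ite {c : α → Bool} {f g : α → β} (hc : Flex O c) (hf : Flex O f) (hg : Flex O g) :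
    Flex O fun a => if c a = true then f a else g a := by
  refine (Orc_post (g := fun y : α × Bool × β × β => bif y.2.1 then y.2.2.1 else y.2.2.2)
    (hc.pair (hf.pair hg)) (by fun_prop)).congr fun a => ?_
  cases c a <;> simp

end Pool.Agent.P.MP_9e61a4_lc
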