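import Pool.Agent.Lib.PolyTime.Parse
import Pool.Agent.P.MP_9e61a4_lc.Alg

/-! The oracle-free parts of the program run in polynomial time (gadget, permutations). -/

namespace Pool.Agent.P.MP_9e61a4_lc

open N487b59b3 N68a2faeb Pool.Agent.Lib.PolyTime

variable {α : Type} [N487b59b3 α]

@[fun_prop] theorem pt_mget {A : α → Mat} {i j : α → ℕ} (hA : PT A) (hi : PT i) (hj : PT j) :
    PT fun a => mget (A a) (i a) (j a) := by
  unfold mget
  fun_prop

@[fun_prop] theorem pt_srelB {A : α → Mat} {i j : α → ℕ} (hA : PT A) (hi : PT i) (hj : PT j) :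
    PT fun a => srelB (A a) (i a) (j a) := by
  unfold srelB
  fun_prop

theorem PTa_vsL {n j k : α → ℕ} (hn : PT n) (hn' : Small n) (hj : PT j) (hj' : Small j)
    (hk : PT k) (hk' : Small k) : PT fun a => vsL (n a) (j a) (k a) := by
  unfold vsL
  fun_prop

theorem PTa_halfD {A : α → Mat} {Rs : α → List Mat} {ms : α → List ℕ} {x y : α → Ds} (hA : PT A)
    (hR : PT Rs) (hm : PT ms) (hx : PT x) (hy : PT y) :
    PT fun a => halfD (A a) (Rs a) (ms a) (x a) (y a) := by
  have x1 : PT fun a => (x a).1 := hx.fst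
  have x2 : PT fun a => (x a).2.1 := hx.snd.fst
  have x3 : PT fun a => (x a).2.2.1 := hx.snd.snd.fst
  have x4 : PT fun a => (x a).2.2.2 := hx.snd.snd.snd
  have x5 : PT fun a => (x a).2.2 := hx.snd.snd
  have y1 : PT fun a => (y a).1 := hy.fst
  have y2 : PT fun a => (y a).2.1 := hy.snd.fst
  have y3 : PT fun a => (y a).2.2.1 := hy.snd.snd.fst
  have y4 : PT fun a => (y a).2.2.2 := hy.snd.snd.snd
  have y5 : PT fun a => (y a).2.2 := hy.snd.snd
  unfold halfD
  refine PT.or (PT.or (PT.or (PT.or (PT.or (PT.or (PT.or (PT.or (PT.or (PT.or ?_ ?_) ?_) ?_) ?_)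
    ?_) ?_) ?_) ?_) ?_) ?_ <;> fun_prop

@[fun_prop] theorem pt_gad {A : α → Mat} {Rs : α → List Mat} {ms : α → List ℕ} (hA : PT A)
    (hR : PT Rs) (hm : PT ms) : PT fun a => gad (A a) (Rs a) (ms a) := by
  have hv : PT fun a => vsL (A a).length (Rs a).length (ms a).length :=
    PTa_vsL hA.length (Small.length hA) hR.length (Small.length hR) hm.length (Small.length hm)
  unfold gad
  refine PT.map hv (PT.map (hv.comp PT.id.fst) (PT.or ?_ ?_))
  · exact PTa_halfD (hA.comp PT.id.fst.fst) (hR.comp PT.id.fst.fst) (hm.comp PT.id.fst.fst)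
      PT.id.fst.snd PT.id.snd
  · exact PTa_halfD (hA.comp PT.id.fst.fst) (hR.comp PT.id.fst.fst) (hm.comp PT.id.fst.fst)
      PT.id.snd PT.id.fst.snd

theorem PTa_isVB {Z : α → Mat} {x : α → ℕ} (hZ : PT Z) (hx : PT x) :
    PT fun a => isVB (Z a) (x a) := by
  unfold isVB
  fun_prop

@[fun_prop] theorem pt_dec {A : α → Mat} (hA : PT A) : PT fun a => dec (A a) := by
  have hv : PT fun a => (List.range (A a).length).filter (isVB (A a)) :=
    PT.filter (PT.range hA.length (Small.length hA)) (PTa_isVB (hA.comp PT.id.fst) PT.id.snd)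
  unfold dec
  exact PT.map hv (PT.map (hv.comp PT.id.fst)
    (pt_mget (hA.comp PT.id.fst.fst) PT.id.fst.snd PT.id.snd))

@[fun_prop] theorem pt_mulL {n : α → ℕ} {g h : α → PL} (hn : PT n) (hs : Small n) (hg : PT g)
    (hh : PT h) : PT fun a => mulL (n a) (g a) (h a) := by
  unfold mulL
  fun_prop

theorem sz_mulL (n : ℕ) (g h : PL) : sz (mulL n g h) ≤ n * (2 * n + 1) := by
  have := sz_le_of_forall (l := mulL n g h) (B := n) fun x hx => by
    unfold mulL at hx
    obtain ⟨y, _, rfl⟩ := List.mem_map.1 hx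
    exact (sz_le_self _).trans (min_le_left _ _)
  have e : (mulL n g h).length = n := by
    unfold mulL
    rw [List.length_map, List.length_range]
  rwa [e] at this

@[fun_prop] theorem pt_invL {n : α → ℕ} {g : α → PL} (hn : PT n) (hs : Small n) (hg : PT g) :
    PT fun a => invL (n a) (g a) := by
  unfold invL
  fun_prop

theorem PTa_sz_powL (n : ℕ) (g : PL) (k : ℕ) : sz (powL n g k) ≤ n * (2 * n + 1) := by
  unfold powL
  cases k with
  | zero => exact PT.sz_range_le n
  | succ k =>
    rw [Function.iterate_succ_apply']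
    exact sz_mulL _ _ _

@[fun_prop] theorem pt_powL {n k : α → ℕ} {g : α → PL} (hn : PT n) (hs : Small n) (hg : PT g)
    (hk : PT k) (hk' : Small k) : PT fun a => powL (n a) (g a) (k a) := by
  refine PT.iterate_nat (F := fun a h => mulL (n a) (g a) h) hk hk' (PT.range hn hs)
    (pt_mulL (hn.comp PT.id.fst) (hs.comp PT.id.fst) (hg.comp PT.id.fst) PT.id.snd) ?_
  have h1 := PB.reindex hs fun p : {p : α × ℕ // p.2 ≤ k p.1} => p.1.1
  exact (h1.mul (((PB.const 2).mul h1).add (PB.const 1))).mono fun p =>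
    PTa_sz_powL (n p.1.1) (g p.1.1) p.1.2

theorem PTa_sz_fold (n p : ℕ) (l : List ℕ) (g : PL) :
    sz (l.foldl (fun h j => if j % p = 0 then h else powL n h (min j n)) g) ≤
      sz g + n * (2 * n + 1) := by
  induction l using List.reverseRecOn with
  | nil => simp
  | append_singleton l x ih =>
    rw [List.foldl_append, List.foldl_cons, List.foldl_nil]
    split_ifs
    · exact ih
    · exact (PTa_sz_powL _ _ _).trans (Nat.le_add_left _ _)

@[fun_prop] theorem pt_pwM {n p : α → ℕ} {g : α → PL} (hn : PT n) (hs : Small n) (hp : PT p)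
    (hg : PT g) : PT fun a => pwM (n a) (p a) (g a) := by
  have h0 : PT fun a => (List.range (n a + 1)).foldl
      (fun h j => if j % p a = 0 then h else powL (n a) h (min j (n a))) (g a) := by
    refine PT.foldl (f := fun a h j => if j % p a = 0 then h else powL (n a) h (min j (n a)))
      (by fun_prop) hg ?_ ?_
    · refine PT.ite (by fun_prop) (by fun_prop) ?_
      exact pt_powL (hn.comp PT.id.fst) (hs.comp PT.id.fst) PT.id.snd.fst
        (PT.min PT.id.snd.snd (hn.comp PT.id.fst)) (Small.min (hs.comp PT.id.fst))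
    · have h1 := PB.reindex hs fun p : α × ℕ => p.1
      have h2 := PB.reindex hg.size fun p : α × ℕ => p.1
      exact (h2.add (h1.mul (((PB.const 2).mul h1).add (PB.const 1)))).mono fun q =>
        PTa_sz_fold _ _ _ _
  refine h0.congr fun a => ?_
  unfold pwM
  refine List.foldl_ext _ _ _ fun h j hj => ?_
  rw [min_eq_left (Nat.lt_succ_iff.1 (List.mem_range.1 hj))]

theorem PTa_actP {n x : α → ℕ} {g : α → PL} (hn : PT n) (hg : PT g) (hx : PT x) :
    PT fun a => actP (n a) (g a) (x a) := by
  unfold actP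
  fun_prop

@[fun_prop] theorem pt_moved {n : α → ℕ} {R : α → Mat} {g : α → PL} (hn : PT n) (hs : Small n)
    (hR : PT R) (hg : PT g) : PT fun a => moved (n a) (R a) (g a) := by
  unfold moved
  exact PT.any (PT.range (hn.mul hn) (hs.mul hs)) (PT.not (pt_srelB (hR.comp PT.id.fst)
    (PTa_actP (hn.comp PT.id.fst) (hg.comp PT.id.fst) PT.id.snd) PT.id.snd))

@[fun_prop] theorem pt_upd {n : α → ℕ} {R : α → Mat} {g : α → PL} (hn : PT n) (hs : Small n)
    (hR : PT R) (hg : PT g) : PT fun a => upd (n a) (R a) (g a) := by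
  have hr : PT fun a => List.range (n a * n a) := PT.range (hn.mul hn) (hs.mul hs)
  have h0 : PT fun a => (List.range (n a * n a)).map fun x => (List.range (n a * n a)).map fun b =>
      (List.range (n a * n a)).any fun i =>
        srelB (R a) (actP (n a) (powL (n a) (g a) (min i (n a * n a))) x) b := by
    refine PT.map hr (PT.map (hr.comp PT.id.fst) (PT.any (hr.comp PT.id.fst.fst) ?_))
    have k : PT fun q : ((α × ℕ) × ℕ) × ℕ => q.1.1.1 := PT.id.fst.fst.fst
    exact pt_srelB (hR.comp k) (PTa_actP (hn.comp k)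
      (pt_powL (hn.comp k) (hs.comp k) (hg.comp k)
        (PT.min PT.id.snd ((hn.comp k).mul (hn.comp k))) (Small.min ((hs.comp k).mul (hs.comp k))))
      PT.id.fst.fst.snd) PT.id.fst.snd
  refine h0.congr fun a => ?_
  unfold upd
  refine List.map_congr_left fun x _ => List.map_congr_left fun b _ => ?_
  rw [Bool.eq_iff_iff, List.any_eq_true, List.any_eq_true]
  refine exists_congr fun i => and_congr_right fun hi => ?_
  rw [min_eq_left (List.mem_range.1 hi).le]

theorem sz_upd (n : ℕ) (R : Mat) (g : PL) : sz (upd n R g) ≤ n * n * (6 * (n * n) + 1) := by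
  have := sz_le_of_forall (l := upd n R g) (B := 3 * (n * n)) fun x hx => by
    unfold upd at hx
    obtain ⟨y, _, rfl⟩ := List.mem_map.1 hx
    rw [sz_str, List.length_map, List.length_range]
  have e : (upd n R g).length = n * n := by
    unfold upd
    rw [List.length_map, List.length_range]
  rw [e] at this
  refine this.trans (le_of_eq ?_)
  ring

@[fun_prop] theorem pt_primeB {p : α → ℕ} (hp : PT p) (hs : Small p) :
    PT fun a => primeB (p a) := by
  unfold primeB
  fun_prop

@[fun_prop] theorem pt_prs {n : α → ℕ} (hn : PT n) (hs : Small n) : PT fun a => prs (n a) := by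
  unfold prs
  fun_prop

end Pool.Agent.P.MP_9e61a4_lc
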