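import Pool.Agent.P.MP_9e61a4_lc.CmD
import Pool.Agent.P.MP_9e61a4_lc.PTa
import Pool.Agent.P.MP_9e61a4_lc.Orc

/-! The programs on lists and their running time. -/

namespace Pool.Agent.P.MP_9e61a4_lc.Cm

open N487b59b3 N68a2faeb Pool.Agent.Lib.PolyTime

def subL (p u v : ℕ) : ℕ := (u + (p - 1) * v) % p

def difL (p M : ℕ) (x : List ℕ) : List ℕ :=
  (List.range M).map fun c => min p (subL p (x.getD ((c + 1) % M) 0) (x.getD c 0))

def kapL (p M j : ℕ) (x : List ℕ) : ℕ := ((difL p M)^[min j M] x).getD 0 0

def actL (p N : ℕ) (d : Bool) (g : PL) (x : List ℕ) : List ℕ :=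
  (List.range (N * N)).map fun c =>
    min p (x.getD ((if d = true then g.getD (c % N) 0 else c % N) + N * g.getD (c / N) 0) 0)

def phiL (p N : ℕ) (d : Bool) (j : ℕ) (x : List ℕ) (h : PL) : ℕ :=
  subL p (kapL p (N * N) j (actL p N d h x)) (kapL p (N * N) j x)

def kerStepL (p N : ℕ) (φ : PL → ℕ) (h : PL) (st : List PL × PL) : List PL × PL :=
  if φ st.2 = 0 then (mulL N h (powL N h (if φ h = 0 then 0 else p - 1)) :: st.1, h)
  else (mulL N h (powL N st.2 (sol p (φ h) (φ st.2))) :: st.1, st.2)

def kerLL (p N : ℕ) (φ : PL → ℕ) (L : List PL) : List PL × PL :=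
  L.foldr (kerStepL p N φ) ([], List.range N)

def stepL (p N : ℕ) (d : Bool) (st : List PL × List ℕ) (j : ℕ) : List PL × List ℕ :=
  ((kerLL p N (phiL p N d j st.2) st.1).1,
    actL p N d (powL N (kerLL p N (phiL p N d j st.2) st.1).2 (sol p (kapL p (N * N) j st.2)
      (phiL p N d j st.2 (kerLL p N (phiL p N d j st.2) st.1).2))) st.2)

def genL (N : ℕ) : List PL :=
  (idx N).map fun x => (List.range N).map fun a => if a % x.1 = x.2 then (a + x.1) % N else a

def cfL (p N : ℕ) (d : Bool) (x : List ℕ) : List ℕ :=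
  ((List.range (N * N)).reverse.foldl (stepL p N d) (genL N, x)).2

/-- A power of `p` between `n` and `p n + 1`. -/
def NN (p n : ℕ) : ℕ := (fun m => if m < n then p * m else m)^[n] 1

def xvL (N : ℕ) (A : Mat) : List ℕ :=
  (List.range (N * N)).map fun c =>
    if c / N = c % N then (if c / N < A.length then 1 else 0) else (mget A (c / N) (c % N)).toNat

def sigL (N : ℕ) (y : Str) : PL :=
  (List.range N).map fun a => ((List.range N).filter fun b => y.getD (b + N * a) false).headD 0

def pmL (N : ℕ) (g : PL) : List ℕ :=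
  (List.range (N * N)).map fun c => if g.getD (c / N) 0 = c % N then 1 else 0

def chk (p m N : ℕ) (A : Mat) (w y : Str) : Bool :=
  ((List.range N).all fun b => decide (b ∈ sigL N y)) &&
  decide (((y.drop (N * N)).filter fun b => b).length < m) &&
  (y == (pmL N (sigL N y)).map (· == 1) ++
    (List.replicate ((y.drop (N * N)).filter fun b => b).length true ++
      List.replicate (y.length - N * N - ((y.drop (N * N)).filter fun b => b).length) false)) &&
  (cfL p N false (pmL N (sigL N y)) == pmL N (sigL N y)) &&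
  (((cfL p N true (actL p N true (sigL N y) (xvL N A))).map (· == 1)).take w.length == w)

/-- The relation whose witnesses are counted. -/
def rel (p m : ℕ) (z : Str × Str) : Bool :=
  chk p m (NN p ((blocks z.1).map decStr).tail.length) ((blocks z.1).map decStr).tail
    (((blocks z.1).map decStr).headD []) z.2

def extL (N : ℕ) (w : Str) : Mat :=
  ((List.range N).filter fun a => w.getD (a + N * a) false).map fun a =>
    ((List.range N).filter fun a => w.getD (a + N * a) false).map fun b =>
      !(a == b) && w.getD (b + N * a) false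

def canon (p : ℕ) (t : Str → Bool) (A : Mat) : Mat :=
  extL (NN p A.length) (walk (fun w => t (bitEncode (w :: A))) (NN p A.length * NN p A.length))

theorem NN_spec {p : ℕ} (hp : 2 ≤ p) (n : ℕ) : (∃ e, NN p n = p ^ e) ∧ n ≤ NN p n := by
  have key : ∀ i, (∃ e, (fun m => if m < n then p * m else m)^[i] 1 = p ^ e) ∧
      min (i + 1) n ≤ (fun m => if m < n then p * m else m)^[i] 1 := by
    intro i
    induction i with
    | zero => exact ⟨⟨0, by simp⟩, by simp⟩
    | succ i ih =>
      rw [Function.iterate_succ_apply']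
      obtain ⟨⟨e, he⟩, h⟩ := ih
      rw [he] at h ⊢
      split_ifs with c
      · have := Nat.mul_le_mul_right (p ^ e) hp
        exact ⟨⟨e + 1, by rw [pow_succ']⟩, by omega⟩
      · exact ⟨⟨e, rfl⟩, by omega⟩
  exact ⟨(key n).1, by simpa [NN] using (key n).2⟩

theorem NN_le (p n i : ℕ) : (fun m => if m < n then p * m else m)^[i] 1 ≤ p * n + 1 := by
  induction i with
  | zero => simp
  | succ i ih =>
    rw [Function.iterate_succ_apply']
    split_ifs with c
    · have := Nat.mul_le_mul_left p c.le
      omega
    · exact ih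

theorem sz_map_min (p M : ℕ) (f : ℕ → ℕ) :
    sz ((List.range M).map fun c => min p (f c)) ≤ M * (2 * p + 1) := by
  have := sz_le_of_forall (l := (List.range M).map fun c => min p (f c)) (B := p) fun x hx => by
    obtain ⟨y, _, rfl⟩ := List.mem_map.1 hx
    exact (sz_le_self _).trans (min_le_left _ _)
  simpa using this

theorem kerLL_size (p N : ℕ) (φ : PL → ℕ) (L : List PL) :
    (kerLL p N φ L).1.length = L.length ∧
      sz (kerLL p N φ L).1 ≤ L.length * (2 * (N * (2 * N + 1)) + 1) := by
  induction L with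
  | nil => simp [kerLL]
  | cons h L ih =>
    rw [show kerLL p N φ (h :: L) = kerStepL p N φ h (kerLL p N φ L) from rfl, kerStepL,
      List.length_cons, Nat.succ_mul]
    have h1 := fun g => sz_mulL N h g
    split_ifs <;> simp only [List.length_cons, sz_cons, ih.1, true_and] <;> grind

variable {α : Type} [N487b59b3 α] {p : ℕ} {N j : α → ℕ} {d : Bool}

@[fun_prop] theorem pt_subL {u v : α → ℕ} (hu : PT u) (hv : PT v) :
    PT fun a => subL p (u a) (v a) := by
  unfold subL
  fun_prop

@[fun_prop] theorem pt_sol {u v : α → ℕ} (hu : PT u) (hv : PT v) :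
    PT fun a => sol p (u a) (v a) := by
  unfold sol
  fun_prop

@[fun_prop] theorem small_sol {u v : α → ℕ} : Small fun a => sol p (u a) (v a) := by
  refine (Small.const p).mono fun a => ?_
  rcases p with _ | p
  · simp [sol]
  · exact (Nat.mod_lt _ p.succ_pos).le

@[fun_prop] theorem pt_difL {x : α → List ℕ} (hN : PT N) (hs : Small N) (hx : PT x) :
    PT fun a => difL p (N a) (x a) := by
  unfold difL
  fun_prop

@[fun_prop] theorem pt_kapL {x : α → List ℕ} (hN : PT N) (hs : Small N) (hj : PT j) (hx : PT x) :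
    PT fun a => kapL p (N a) (j a) (x a) := by
  refine PT.getD (PT.iterate_nat_growth (F := fun a x => difL p (N a) x) (hj.min hN) hs.min hx
    (by fun_prop) (fun a => N a * (2 * p + 1)) (by fun_prop) fun a b => ?_) (PT.const _)
    (PT.const _)
  exact (sz_map_min _ _ _).trans (Nat.le_add_left _ _)

@[fun_prop] theorem pt_actL {g x : α → List ℕ} (hN : PT N) (hs : Small N) (hg : PT g) (hx : PT x) :
    PT fun a => actL p (N a) d (g a) (x a) := by
  unfold actL
  cases d <;> simp only [if_true, Bool.false_eq_true, if_false] <;> fun_prop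

@[fun_prop] theorem pt_phiL {g x : α → List ℕ} (hN : PT N) (hs : Small N) (hj : PT j) (hx : PT x)
    (hg : PT g) : PT fun a => phiL p (N a) d (j a) (x a) (g a) := by
  unfold phiL
  fun_prop

theorem pt_kerLL {φ : α → PL → ℕ} {L : α → List PL} (hN : PT N) (hs : Small N) (hL : PT L)
    (hφ : PT fun q : α × PL => φ q.1 q.2) : PT fun a => kerLL p (N a) (φ a) (L a) := by
  have h1 : PT fun q : α × (List PL × PL) × PL => φ q.1 q.2.2 :=
    hφ.comp (g := fun q : α × (List PL × PL) × PL => (q.1, q.2.2)) (by fun_prop)
  have h2 : PT fun q : α × (List PL × PL) × PL => φ q.1 q.2.1.2 :=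
    hφ.comp (g := fun q : α × (List PL × PL) × PL => (q.1, q.2.1.2)) (by fun_prop)
  have h3 : PT fun q : α × (List PL × PL) × PL => N q.1 := by fun_prop
  have h4 : Small fun q : α × (List PL × PL) × PL => N q.1 := by fun_prop
  refine PT.foldr_growth (f := fun a => kerStepL p (N a) (φ a)) hL (by fun_prop) ?_
    (fun q => 2 * (2 * (N q.1 * (2 * N q.1 + 1)) + 1) + sz q.2)
    (show Lib.PolyTime.Small _ by fun_prop) fun a b x => ?_
  · unfold kerStepL
    refine PT.ite (by fun_prop) (PT.pair (PT.cons (pt_mulL h3 h4 (by fun_prop)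
      (pt_powL h3 h4 (by fun_prop) (by fun_prop) ((Small.const p).mono fun _ => ?_)))
      (by fun_prop)) (by fun_prop)) (PT.pair (PT.cons (pt_mulL h3 h4 (by fun_prop)
      (pt_powL h3 h4 (by fun_prop) (pt_sol h1 h2) small_sol)) (by fun_prop)) (by fun_prop))
    split_ifs <;> omega
  · have h5 := fun g => sz_mulL (N a) x g
    rw [sz_pair' b, kerStepL]
    split_ifs <;> simp only [sz_pair, sz_cons] <;> grind

theorem pt_stepL {st : α → List PL × List ℕ} (hN : PT N) (hs : Small N) (hj : PT j)
    (hst : PT st) : PT fun a => stepL p (N a) d (st a) (j a) := by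
  have h1 : PT fun a => kerLL p (N a) (phiL p (N a) d (j a) (st a).2) (st a).1 :=
    pt_kerLL hN hs hst.fst (by fun_prop)
  unfold stepL
  exact h1.fst.pair (pt_actL hN hs (pt_powL hN hs h1.snd (pt_sol (by fun_prop)
    (pt_phiL hN hs hj hst.snd h1.snd)) small_sol) hst.snd)

@[fun_prop] theorem pt_genL (hN : PT N) (hs : Small N) : PT fun a => genL (N a) := by
  unfold genL idx
  fun_prop

theorem fold_size (p N : ℕ) (d : Bool) (l : List ℕ) (st : List PL × List ℕ) :
    (l.foldl (stepL p N d) st).1.length = st.1.length ∧ sz (l.foldl (stepL p N d) st) ≤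
      sz st + (2 * (st.1.length * (2 * (N * (2 * N + 1)) + 1)) + 1 + N * N * (2 * p + 1)) := by
  induction l using List.reverseRecOn with
  | nil => simp
  | append_singleton l x ih =>
    rw [List.foldl_append, List.foldl_cons, List.foldl_nil]
    generalize l.foldl (stepL p N d) st = s at ih
    obtain ⟨h1, h2⟩ := kerLL_size p N (phiL p N d x s.2) s.1
    refine ⟨h1.trans ih.1, ?_⟩
    rw [stepL, sz_pair, ← ih.1]
    exact (add_le_add (by omega) (sz_map_min _ _ _)).trans (Nat.le_add_left _ _)

@[fun_prop] theorem pt_cfL {x : α → List ℕ} (hN : PT N) (hs : Small N) (hx : PT x) :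
    PT fun a => cfL p (N a) d (x a) := by
  refine (PT.foldl (f := fun a => stepL p (N a) d) (by fun_prop) (by fun_prop)
    (pt_stepL (by fun_prop) (by fun_prop) (by fun_prop) (by fun_prop)) ?_).snd
  have h1 : Small fun a => sz (genL (N a), x a) + (2 * ((genL (N a)).length *
      (2 * (N a * (2 * N a + 1)) + 1)) + 1 + N a * N a * (2 * p + 1)) := by fun_prop
  exact (PB.reindex h1 (Prod.fst : α × ℕ → α)).mono fun q => (fold_size _ _ _ _ _).2

@[fun_prop] theorem small_NN (hs : Small N) : Small fun a => NN p (N a) :=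
  (show Small fun a => p * N a + 1 by fun_prop).mono fun _ => NN_le _ _ _

@[fun_prop] theorem pt_NN (hN : PT N) (hs : Small N) : PT fun a => NN p (N a) := by
  refine PT.iterate_nat (F := fun a m => if m < N a then p * m else m) hN hs (PT.const _)
    (by fun_prop) ?_
  have h1 : Small fun a => p * N a + 1 := by fun_prop
  exact (PB.reindex h1 fun q : {q : α × ℕ // q.2 ≤ N q.1} => q.1.1).mono fun q =>
    (sz_le_self _).trans (NN_le _ _ _)

theorem pt_chk {m : ℕ} {A : α → Mat} {w y : α → Str} (hN : PT N) (hs : Small N) (hA : PT A)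
    (hw : PT w) (hy : PT y) : PT fun a => chk p m (N a) (A a) (w a) (y a) := by
  have h1 : PT fun a => sigL (N a) (y a) := by unfold sigL; fun_prop
  have h0 : ∀ {g : α → PL}, PT g → PT fun a => pmL (N a) (g a) := fun hg => by
    unfold pmL; fun_prop
  have h2 := h0 h1
  have h3 : PT fun a => xvL (N a) (A a) := by unfold xvL; fun_prop
  have h4 : PT fun a => ((y a).drop (N a * N a)).filter fun b => b := by fun_prop
  unfold chk
  refine ((((PT.all (by fun_prop) (PT.decide (PTP.mem (h1.comp PT.id.fst) PT.id.snd))).and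
    (by fun_prop)).and (PT.beq hy (PT.append (PT.map h2 (by fun_prop)) (by fun_prop)))).and
    (PT.beq (pt_cfL hN hs h2) h2)).and (PT.beq (PT.take hw.length
      (PT.map (pt_cfL hN hs (pt_actL hN hs h1 h3)) (by fun_prop))) hw)

theorem pt_rel (p m : ℕ) : PT (rel p m) := by
  have h1 : PT fun z : Str × Str => (blocks z.1).map decStr := by fun_prop
  exact pt_chk (pt_NN h1.tail.length (Small.length h1.tail)) (small_NN (Small.length h1.tail))
    h1.tail (h1.headD (PT.const _)) PT.id.snd

theorem flex_canon {O t : Str → Bool} (ht : Flex O t) (p : ℕ) : Flex O (canon p t) := by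
  have hN : PT fun A : Mat => NN p A.length := by fun_prop
  have hs : Small fun A : Mat => NN p A.length := by fun_prop
  have h1 : Flex O fun A : Mat =>
      walk (fun w => t (bitEncode (w :: A))) (NN p A.length * NN p A.length) := by
    refine Flex.iterate (F := fun (A : Mat) (w : Str) =>
      if t (bitEncode ((w ++ [false]) :: A)) = true then w ++ [false] else w ++ [true])
      (hN.mul hN) (hs.mul hs) (Flex.of_pt (PT.const _)) (Flex.ite (Orc_pre ht (by fun_prop))
        (Flex.of_pt (by fun_prop)) (Flex.of_pt (by fun_prop))) ?_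
    have h2 : Small fun A : Mat => 3 * (NN p A.length * NN p A.length) := by fun_prop
    refine (PB.reindex h2 (Prod.fst : Mat × ℕ → Mat)).mono fun q => ?_
    rw [sz_str]
    refine Nat.mul_le_mul_left _ (le_trans ?_ (min_le_right q.2 _))
    generalize min q.2 _ = i
    induction i with
    | zero => simp
    | succ i ih =>
      rw [Function.iterate_succ_apply']
      split_ifs <;> simpa using ih
  exact Orc_post (g := fun z : Mat × Str => extL (NN p z.1.length) z.2) h1
    (by unfold extL; fun_prop)

end Pool.Agent.P.MP_9e61a4_lc.Cm
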