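import Pool.Agent.P.MP_9e61a4_lc.Sem

/-! Permutations as lists. -/

namespace Pool.Agent.P.MP_9e61a4_lc

open Equiv

variable {n : ℕ}

theorem length_adjMat (G : SimpleGraph (Fin n)) : (adjMat G).length = n := by
  simp [adjMat]

theorem mget_adjMat (G : SimpleGraph (Fin n)) (u v : Fin n) :
    mget (adjMat G) u v = true ↔ G.Adj u v := by
  simp [mget, adjMat, List.getD_eq_getElem?_getD]

theorem getD_pl (π : Perm (Fin n)) (i : Fin n) : (pl π).getD i 0 = π i := by
  simp [pl, List.getD_eq_getElem?_getD]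

theorem pl_inj {π ρ : Perm (Fin n)} (h : pl π = pl ρ) : π = ρ := by
  ext i
  rw [← getD_pl π i, ← getD_pl ρ i, h]

theorem PLem_map_eq (π : Perm (Fin n)) (f : ℕ → ℕ) (h : ∀ i : Fin n, f i = π i) :
    (List.range n).map f = pl π := by
  apply List.ext_getElem
  · simp [pl]
  · intro i h1 h2
    have hi : i < n := by simpa using h1
    simpa [pl] using h ⟨i, hi⟩

theorem pl_one : pl (1 : Perm (Fin n)) = List.range n := by
  rw [← PLem_map_eq (1 : Perm (Fin n)) id (fun i => rfl), List.map_id]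

theorem mulL_pl (π ρ : Perm (Fin n)) : mulL n (pl π) (pl ρ) = pl (π * ρ) := by
  apply PLem_map_eq
  intro i
  rw [getD_pl, getD_pl, min_eq_right (π (ρ i)).2.le]
  rfl

theorem PLem_headD (l : List ℕ) (c : ℕ) (hc : c ∈ l) (hall : ∀ x ∈ l, x = c) : l.headD 0 = c := by
  cases l with
  | nil => simp at hc
  | cons a l => exact hall a (by simp)

theorem invL_pl (π : Perm (Fin n)) : invL n (pl π) = pl π⁻¹ := by
  apply PLem_map_eq
  intro y
  apply PLem_headD
  · rw [List.mem_filter, List.mem_range]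
    refine ⟨(π⁻¹ y).2, ?_⟩
    rw [getD_pl]
    simp
  · intro x hx
    rw [List.mem_filter, List.mem_range] at hx
    obtain ⟨hx, hx2⟩ := hx
    have h1 := getD_pl π ⟨x, hx⟩
    have h2 : (pl π).getD x 0 = y := by simpa using hx2
    have h3 : π ⟨x, hx⟩ = y := Fin.ext (h1.symm.trans h2)
    rw [← h3]
    simp

theorem powL_pl (π : Perm (Fin n)) (k : ℕ) : powL n (pl π) k = pl (π ^ k) := by
  unfold powL
  induction k with
  | zero => simp [pl_one]
  | succ k ih => rw [Function.iterate_succ_apply', ih, mulL_pl, pow_succ']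

theorem PLem_foldl (p : ℕ) (π : Perm (Fin n)) (m : ℕ) :
    (List.range m).foldl (fun h j => if j % p = 0 then h else powL n h j) (pl π)
      = pl (π ^ ∏ j ∈ (Finset.range m).filter (fun j => ¬p ∣ j), j) := by
  induction m with
  | zero => simp
  | succ m ih =>
    rw [List.range_succ, List.foldl_append, ih, Finset.prod_filter, Finset.prod_filter,
      Finset.prod_range_succ]
    simp only [List.foldl_cons, List.foldl_nil]
    by_cases h : p ∣ m
    · rw [if_pos (Nat.mod_eq_zero_of_dvd h), if_neg (not_not.2 h), mul_one]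
    · rw [if_neg (fun h0 => h (Nat.dvd_of_mod_eq_zero h0)), if_pos h, powL_pl, pow_mul]

theorem pwM_pl (p : ℕ) (π : Perm (Fin n)) : pwM n p (pl π) = pl (π ^ Mn n p) :=
  PLem_foldl p π (n + 1)

theorem Mn_coprime {p : ℕ} (hp : p.Prime) (n : ℕ) : (Mn n p).Coprime p := by
  unfold Mn
  refine Nat.Coprime.prod_left fun j hj => ?_
  exact ((Nat.Prime.coprime_iff_not_dvd hp).2 (Finset.mem_filter.1 hj).2).symm

theorem PLem_period {V : Type} [Fintype V] [MulAction (Perm (Fin n)) V] (π : Perm (Fin n))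
    (a : V) : 0 < MulAction.period π a ∧ MulAction.period π a ≤ Fintype.card V :=
  ⟨MulAction.period_pos_of_orderOf_pos (orderOf_pos π) a, by
    rw [MulAction.period_eq_minimalPeriod]
    exact Function.minimalPeriod_le_card⟩

theorem pow_Mn {p : ℕ} (hp : p.Prime) (π : Perm (Fin n)) : ∃ k, (π ^ Mn n p) ^ p ^ k = 1 := by
  refine ⟨n, ?_⟩
  ext x
  obtain ⟨h0, hle⟩ := PLem_period π x
  rw [Fintype.card_fin] at hle
  obtain ⟨e, m, hm, he⟩ := Nat.exists_eq_pow_mul_and_not_dvd h0.ne' p hp.ne_one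
  have hm0 : 0 < m := Nat.pos_of_ne_zero (by rintro rfl; exact hm (dvd_zero _))
  have hmn : m ≤ n := le_trans (Nat.le_of_dvd h0 (he ▸ dvd_mul_left _ _)) hle
  have hen : e ≤ n := by
    have h1 : p ^ e ≤ n := le_trans (Nat.le_of_dvd h0 (he ▸ dvd_mul_right _ _)) hle
    exact le_trans (Nat.lt_pow_self hp.one_lt).le h1
  have hd1 : m ∣ Mn n p :=
    Finset.dvd_prod_of_mem (fun j => j)
      (Finset.mem_filter.2 ⟨Finset.mem_range.2 (by omega), hm⟩)
  have hd : MulAction.period π x ∣ Mn n p * p ^ n := by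
    rw [he, mul_comm]
    exact mul_dvd_mul hd1 (pow_dvd_pow p hen)
  have := MulAction.pow_smul_eq_iff_period_dvd.2 hd
  rw [← pow_mul]
  exact congrArg Fin.val this

theorem code_lt (a : Fin n × Fin n) : code a < n * n := by
  unfold code
  have h1 := a.1.2
  have h2 := a.2.2
  calc (a.1 : ℕ) * n + a.2 < (a.1 : ℕ) * n + n := by omega
    _ = ((a.1 : ℕ) + 1) * n := by ring
    _ ≤ n * n := Nat.mul_le_mul_right _ h1

theorem PLem_div (a : Fin n × Fin n) : code a / n = a.1 := by
  have h2 := a.2.2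
  unfold code
  rw [add_comm, Nat.add_mul_div_right _ _ (by omega), Nat.div_eq_of_lt h2, zero_add]

theorem PLem_mod (a : Fin n × Fin n) : code a % n = a.2 := by
  have h2 := a.2.2
  unfold code
  rw [add_comm, Nat.add_mul_mod_self_right, Nat.mod_eq_of_lt h2]

theorem code_inj {a b : Fin n × Fin n} (h : code a = code b) : a = b := by
  refine Prod.ext (Fin.ext ?_) (Fin.ext ?_)
  · rw [← PLem_div a, ← PLem_div b, h]
  · rw [← PLem_mod a, ← PLem_mod b, h]

theorem exists_code {c : ℕ} (h : c < n * n) : ∃ a : Fin n × Fin n, code a = c := by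
  have hn : 0 < n := Nat.pos_of_ne_zero (by rintro rfl; simp at h)
  refine ⟨(⟨c / n, Nat.div_lt_of_lt_mul h⟩, ⟨c % n, Nat.mod_lt _ hn⟩), ?_⟩
  exact Nat.div_add_mod' c n

theorem actP_pl (π : Perm (Fin n)) (a : Fin n × Fin n) :
    actP n (pl π) (code a) = code (π • a) := by
  unfold actP
  rw [PLem_div, PLem_mod, getD_pl, getD_pl]
  rfl

theorem moved_pl (R : Mat) (π : Perm (Fin n)) :
    moved n R (pl π) = true ↔ ∃ a : Fin n × Fin n, ¬srel R (π • a) a := by
  unfold moved srel
  rw [List.any_eq_true]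
  constructor
  · rintro ⟨c, hc, h⟩
    obtain ⟨a, rfl⟩ := exists_code (List.mem_range.1 hc)
    rw [actP_pl] at h
    exact ⟨a, by simpa using h⟩
  · rintro ⟨a, h⟩
    refine ⟨code a, List.mem_range.2 (code_lt a), ?_⟩
    rw [actP_pl]
    simpa using h

theorem srel_nil (a b : Fin n × Fin n) : srel [] a b ↔ a = b := by
  unfold srel srelB mget
  simp only [List.getD_nil, Bool.or_false, beq_iff_eq]
  exact ⟨code_inj, fun h => h ▸ rfl⟩

theorem PLem_mget (R : Mat) (π : Perm (Fin n)) (a b : Fin n × Fin n) :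
    mget (upd n R (pl π)) (code a) (code b) = true ↔ ∃ i : ℕ, srel R (π ^ i • a) b := by
  have e : mget (upd n R (pl π)) (code a) (code b)
      = (List.range (n * n)).any fun i => srelB R (actP n (powL n (pl π) i) (code a)) (code b) := by
    simp [mget, upd, List.getD_eq_getElem?_getD, code_lt a, code_lt b]
  rw [e, List.any_eq_true]
  simp only [powL_pl, actP_pl]
  constructor
  · rintro ⟨i, -, h⟩
    exact ⟨i, h⟩
  · rintro ⟨i, h⟩
    obtain ⟨h0, hle⟩ := PLem_period π a
    refine ⟨i % MulAction.period π a, List.mem_range.2 ?_, ?_⟩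
    · have : Fintype.card (Fin n × Fin n) = n * n := by simp
      exact lt_of_lt_of_le (Nat.mod_lt _ h0) (this ▸ hle)
    · rw [MulAction.pow_mod_period_smul]
      exact h

theorem srel_upd (R : Mat) (π : Perm (Fin n)) (a b : Fin n × Fin n) :
    srel (upd n R (pl π)) a b ↔
      a = b ∨ (∃ i : ℕ, srel R (π ^ i • a) b) ∨ ∃ i : ℕ, srel R (π ^ i • b) a := by
  rw [← PLem_mget, ← PLem_mget]
  unfold srel srelB
  rw [Bool.or_eq_true, Bool.or_eq_true, beq_iff_eq, or_assoc]
  exact or_congr ⟨code_inj, fun h => h ▸ rfl⟩ Iff.rfl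

theorem primeB_iff (p : ℕ) : primeB p = true ↔ p.Prime := by
  rw [Nat.prime_def_lt']
  unfold primeB
  simp only [Bool.and_eq_true, decide_eq_true_eq, List.all_eq_true, List.mem_range,
    Bool.or_eq_true, Bool.not_eq_true', beq_eq_false_iff_ne]
  refine and_congr Iff.rfl ⟨fun h m h2 hm hd => ?_, fun h d hd => ?_⟩
  · rcases h m hm with h' | h'
    · omega
    · exact h' (Nat.mod_eq_zero_of_dvd hd)
  · by_cases h2 : d < 2
    · exact Or.inl h2
    · exact Or.inr fun h0 => h d (by omega) hd (Nat.dvd_of_mod_eq_zero h0)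

end Pool.Agent.P.MP_9e61a4_lc
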