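import Pool.Agent.P.MP_9e61a4_lc.CmE
import Pool.Agent.P.MP_9e61a4_lc.PLem

/-! The programs on lists compute the canonical form under the Sylow subgroup. -/

namespace Pool.Agent.P.MP_9e61a4_lc.Cm

open Equiv

variable {p M N : ℕ}

def vl (x : Fin M → ZMod p) : List ℕ := List.ofFn fun c => (x c).val

theorem getD_vl (x : Fin M → ZMod p) (c : Fin M) : (vl x).getD c 0 = (x c).val := by
  simp [vl, List.getD_eq_getElem?_getD]

theorem vl_inj [NeZero p] {x y : Fin M → ZMod p} (h : vl x = vl y) : x = y := by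
  funext c
  apply ZMod.val_injective
  rw [← getD_vl, ← getD_vl, h]

theorem map_range {β : Type} (f : ℕ → β) (g : Fin M → β) (h : ∀ c : Fin M, f c = g c) :
    (List.range M).map f = List.ofFn g := by
  apply List.ext_getElem
  · simp
  · intro i h1 h2
    simpa using h ⟨i, by simpa using h1⟩

theorem bits_eq (x : Fin (N * N) → ZMod p) : (vl x).map (· == 1) = bits x := by
  simp [vl, bits, List.map_ofFn, Function.comp_def]

variable [hp : Fact p.Prime]

theorem subL_val (a b : ZMod p) : subL p a.val b.val = (a - b).val := by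
  rw [subL, ← ZMod.val_natCast]
  congr 1
  push_cast [Nat.cast_sub hp.out.one_le]
  simp [sub_eq_add_neg]

theorem min_val (a : ZMod p) : min p a.val = a.val := min_eq_right (ZMod.val_lt a).le

theorem difL_vl [NeZero M] (x : Fin M → ZMod p) : difL p M (vl x) = vl (dif p M x) := by
  refine map_range _ _ fun c => ?_
  have e : (c.val + 1) % M = (c + 1 : Fin M).val := by
    rw [Fin.val_add, Fin.val_one', Nat.add_mod_mod]
  rw [e, getD_vl, getD_vl, subL_val, min_val, dif_apply]

theorem kapL_vl [NeZero M] {j : ℕ} (hj : j ≤ M) (x : Fin M → ZMod p) :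
    kapL p M j (vl x) = (kap j x).val := by
  have key : ∀ j, (difL p M)^[j] (vl x) = vl ((dif p M ^ j) x) := by
    intro j
    induction j with
    | zero => rfl
    | succ j ih => rw [Function.iterate_succ_apply', ih, difL_vl, pow_succ']; rfl
  rw [kapL, min_eq_left hj, key]
  exact getD_vl _ 0

theorem actL_vl (d : Bool) (g : Perm (Fin N)) (x : Fin (N * N) → ZMod p) :
    actL p N d (pl g) (vl x) = vl (x ∘ rho N d g) := by
  refine map_range _ _ fun c => ?_
  have e : (if d = true then (pl g).getD (c.val % N) 0 else c.val % N) +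
      N * (pl g).getD (c.val / N) 0 = (rho N d g c).val := by
    have h1 := getD_pl g c.divNat
    have h2 := getD_pl g c.modNat
    rw [Fin.coe_divNat] at h1
    rw [Fin.coe_modNat] at h2
    rw [h1, h2]
    cases d <;> simp [rho]
  rw [e, getD_vl, min_val]
  rfl

omit hp in
theorem kerLL_pl {φ : PL → ℕ} {ψ : Perm (Fin N) → ZMod p} (h : ∀ g, φ (pl g) = (ψ g).val)
    (L : List (Perm (Fin N))) :
    kerLL p N φ (L.map pl) = ((kerL ψ L).1.map pl, pl (kerL ψ L).2) := by
  induction L with
  | nil => simp [kerLL, kerL, pl_one]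
  | cons g L ih =>
    rw [List.map_cons, show kerLL p N φ (pl g :: L.map pl) =
      kerStepL p N φ (pl g) (kerLL p N φ (L.map pl)) from rfl, ih, kerL_cons, kerStepL, kerStep]
    simp only [h, ZMod.val_eq_zero, powL_pl, mulL_pl]
    split_ifs <;> rfl

variable [NeZero N]

theorem phiL_vl (d : Bool) {j : ℕ} (hj : j ≤ N * N) (x : Fin (N * N) → ZMod p)
    (g : Perm (Fin N)) : phiL p N d j (vl x) (pl g) = (phi (rho N d) j x g).val := by
  rw [phiL, actL_vl, kapL_vl hj, kapL_vl hj, subL_val, phi]

theorem cfL_vl (d : Bool) (x : Fin (N * N) → ZMod p) : cfL p N d (vl x) = vl (cf d x) := by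
  have key : ∀ l : List ℕ, (∀ j ∈ l, j ≤ N * N) →
      ∀ st : List (Perm (Fin N)) × (Fin (N * N) → ZMod p),
        l.foldl (stepL p N d) (st.1.map pl, vl st.2) =
          ((l.foldl (stepM (rho N d)) st).1.map pl, vl (l.foldl (stepM (rho N d)) st).2) := by
    intro l
    induction l with
    | nil => intro _ _; rfl
    | cons j l ih =>
      intro hl st
      have hj := hl j (by simp)
      rw [List.foldl_cons, List.foldl_cons, ← ih fun i hi => hl i (by simp [hi])]
      congr 1
      simp only [stepL, stepM, kerLL_pl (phiL_vl d hj st.2), phiL_vl d hj, kapL_vl hj, powL_pl,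
        actL_vl]
  have e : genL N = (gen N).map pl := by
    rw [genL, gen, List.map_map]
    exact List.map_congr_left fun y hy =>
      PLem_map_eq _ _ fun i => (sh_val (mem_idx.1 hy).1 i).symm
  rw [cfL, e, key _ (fun j hj => by simp at hj; omega) (gen N, x)]
  rfl

omit [NeZero N] in
theorem pmL_pl (σ : Perm (Fin N)) : pmL N (pl σ) = vl (pm p σ) := by
  refine map_range _ _ fun c => ?_
  have h1 := getD_pl σ c.divNat
  rw [Fin.coe_divNat] at h1
  rw [h1, pm, ← Fin.coe_modNat]
  simp only [Fin.val_inj]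
  split_ifs
  exacts [(ZMod.val_one p).symm, ZMod.val_zero.symm]

omit [NeZero N] hp in
theorem getD_bits (x : Fin (N * N) → ZMod p) (t : List Bool) (a b : Fin N) :
    (bits x ++ t).getD (b + N * a) false = ((x (finProdFinEquiv (a, b))).val == 1) := by
  have h := (finProdFinEquiv (a, b)).2
  have e : (b : ℕ) + N * a = (finProdFinEquiv (a, b)).val := rfl
  rw [e, List.getD_append _ _ _ _ (by simpa [bits] using h)]
  simp [bits, List.getD_eq_getElem?_getD, -finProdFinEquiv_apply_val]

omit [NeZero N] in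
theorem sigL_bits (σ : Perm (Fin N)) (t : List Bool) : sigL N (bits (pm p σ) ++ t) = pl σ := by
  refine PLem_map_eq _ _ fun a => ?_
  have key : ∀ b : Fin N, (bits (pm p σ) ++ t).getD (b + N * a) false = true ↔ σ a = b := by
    intro b
    rw [getD_bits, pm_apply]
    split_ifs with c <;> simp [c, ZMod.val_one]
  apply PLem_headD
  · exact List.mem_filter.2 ⟨List.mem_range.2 (σ a).2, (key _).2 rfl⟩
  · intro b hb
    rw [List.mem_filter, List.mem_range] at hb
    rw [(key ⟨b, hb.1⟩).1 hb.2]

omit hp in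
theorem sigL_perm {y : List Bool} (h : ∀ b : Fin N, b.val ∈ sigL N y) :
    ∃ σ : Perm (Fin N), sigL N y = pl σ := by
  have h1 : ∀ a, ((List.range N).filter fun b => y.getD (b + N * a) false).headD 0 < N := by
    intro a
    rcases e : (List.range N).filter fun b => y.getD (b + N * a) false with _ | ⟨b, l⟩
    · exact Nat.pos_of_neZero N
    · have : b ∈ (List.range N).filter fun b => y.getD (b + N * a) false := by
        rw [e]
        exact List.mem_cons_self
      exact List.mem_range.1 (List.mem_filter.1 this).1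
  let f : Fin N → Fin N := fun a => ⟨_, h1 a⟩
  have h2 : Function.Surjective f := fun b => by
    obtain ⟨a, ha, e⟩ := List.mem_map.1 (h b)
    exact ⟨⟨a, List.mem_range.1 ha⟩, Fin.ext e⟩
  exact ⟨Equiv.ofBijective f h2.bijective_of_finite, PLem_map_eq _ _ fun _ => rfl⟩

/-- The witness attached to a permutation and a number. -/
def wit (p l : ℕ) (z : Perm (Fin N) × ℕ) : List Bool :=
  bits (pm p z.1) ++ (List.replicate z.2 true ++ List.replicate (l - N * N - z.2) false)

theorem chk_iff {m : ℕ} {A : Mat} {x : Fin (N * N) → ZMod p} (hx : xvL N A = vl x)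
    (w y : List Bool) : chk p m N A w y = true ↔ ∃ z : Perm (Fin N) × ℕ,
      (Rep p z.1 ∧ w <+: bits (cf true (x ∘ rho N true z.1))) ∧ z.2 < m ∧
        y = wit p y.length z := by
  simp only [chk, Bool.and_eq_true, List.all_eq_true, List.mem_range, decide_eq_true_eq,
    beq_iff_eq, hx]
  constructor
  · rintro ⟨⟨⟨⟨h1, h2⟩, h3⟩, h4⟩, h5⟩
    obtain ⟨σ, hσ⟩ := sigL_perm (y := y) fun b => h1 b b.2
    rw [hσ, pmL_pl (p := p)] at h3 h4
    rw [hσ, actL_vl, cfL_vl, bits_eq] at h5
    rw [cfL_vl] at h4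
    rw [bits_eq] at h3
    exact ⟨(σ, _), ⟨vl_inj h4, List.prefix_iff_eq_take.2 h5.symm⟩, h2, h3⟩
  · rintro ⟨⟨σ, i⟩, ⟨h1, h2⟩, h3, h4⟩
    have h5 : sigL N y = pl σ := by rw [h4]; exact sigL_bits _ _
    have h6 : ((y.drop (N * N)).filter fun b => b).length = i := by
      rw [h4, wit, List.drop_left' (by simp [bits])]
      simp
    rw [h5, h6, pmL_pl (p := p), actL_vl, cfL_vl, cfL_vl, bits_eq, bits_eq]
    refine ⟨⟨⟨⟨fun b hb => ?_, h3⟩, h4⟩, congrArg vl h1⟩, (List.prefix_iff_eq_take.1 h2).symm⟩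
    exact List.mem_ofFn.2 ⟨σ⁻¹ ⟨b, hb⟩, by simp⟩

theorem chk_count {m l : ℕ} {A : Mat} {x : Fin (N * N) → ZMod p} (hx : xvL N A = vl x)
    (hl : N * N + m ≤ l) (w : List Bool) :
    {y : List Bool | y.length = l ∧ chk p m N A w y = true}.ncard = cnt x w * m := by
  have h1 : {y : List Bool | y.length = l ∧ chk p m N A w y = true} = wit p l ''
      ({σ | Rep p σ ∧ w <+: bits (cf true (x ∘ rho N true σ))} ×ˢ Set.Iio m) := by
    ext y
    simp only [Set.mem_ofPred_eq, chk_iff hx, Set.mem_image, Set.mem_prod, Set.mem_Iio]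
    constructor
    · rintro ⟨rfl, z, h1, h2, h3⟩
      exact ⟨z, ⟨h1, h2⟩, h3.symm⟩
    · rintro ⟨z, ⟨h1, h2⟩, rfl⟩
      have e : (wit p l z).length = l := by simp [wit, bits]; omega
      exact ⟨e, z, h1, h2, by rw [e]⟩
  rw [h1, Set.InjOn.ncard_image, Set.ncard_prod, cnt]
  · congr 1
    rw [← Finset.coe_range, Set.ncard_coe_finset, Finset.card_range]
  · rintro ⟨σ, i⟩ - ⟨τ, j⟩ - h
    have h2 := congrArg (sigL N) h
    have h3 := congrArg (fun y : List Bool => ((y.drop (N * N)).filter fun b => b).length) h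
    simp only [wit] at h2 h3
    rw [sigL_bits, sigL_bits] at h2
    rw [List.drop_left' (by simp [bits]), List.drop_left' (by simp [bits])] at h3
    exact Prod.ext (pl_inj h2) (by simpa using h3)

end Pool.Agent.P.MP_9e61a4_lc.Cm
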