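import Pool.Agent.P.MP_9e61a4_lc.PLem

/-! The gadget matrix, and decoding. -/

namespace Pool.Agent.P.MP_9e61a4_lc

open Equiv

theorem GadB_enum {X β : Type} (L : List β) (hL : L.Nodup) (d : X → β) (hd : Function.Injective d)
    (h : ∀ b, b ∈ L ↔ ∃ x, d x = b) :
    ∃ (m : ℕ) (e : Fin m ≃ X), L = List.ofFn fun i => d (e i) := by
  have h1 : ∀ i : Fin L.length, ∃ x, d x = L.get i := fun i => (h _).1 (List.get_mem L i)
  choose f hf using h1
  have h2 : Function.Bijective f := by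
    constructor
    · intro i i' hi
      have h3 : L.get i = L.get i' := by rw [← hf, ← hf, hi]
      exact (List.nodup_iff_injective_get.1 hL) h3
    · intro x
      obtain ⟨i, hi⟩ := List.get_of_mem ((h _).2 ⟨x, rfl⟩)
      exact ⟨i, hd (by rw [hf, hi])⟩
  refine ⟨L.length, Equiv.ofBijective f h2, ?_⟩
  simp only [Equiv.ofBijective_apply, hf]
  exact (List.ofFn_get L).symm

theorem GadB_mat {β : Type} {m : ℕ} (g : Fin m → β) (f : β → β → Bool) (Z : SimpleGraph (Fin m))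
    (h : ∀ i j, f (g i) (g j) = true ↔ Z.Adj i j) :
    ((List.ofFn g).map fun x => (List.ofFn g).map fun y => f x y) = adjMat Z := by
  unfold adjMat
  rw [List.map_ofFn]
  congr 1
  funext i
  rw [Function.comp_apply, List.map_ofFn]
  congr 1
  funext j
  rw [Function.comp_apply, Bool.eq_iff_iff, h]
  simp

theorem GadB_desc_inj {n j k : ℕ} : Function.Injective (desc : Vx n j k → Ds) := by
  intro x y h
  cases x <;> cases y <;> simp [desc, Fin.val_inj] at h ⊢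
  · exact h
  · exact h
  · exact ⟨h.1, Prod.ext h.2.1 h.2.2⟩
  · exact h

theorem GadB_mem {n j k : ℕ} (b : Ds) : b ∈ vsL n j k ↔ ∃ x : Vx n j k, desc x = b := by
  simp only [vsL, List.mem_append, List.mem_map, List.mem_flatMap, List.mem_range, List.mem_cons,
    List.not_mem_nil, or_false]
  constructor
  · rintro ((((⟨u, hu, rfl⟩ | ⟨u, hu, rfl⟩) | ⟨r, hr, u, hu, v, hv, rfl⟩) | ⟨i, hi, rfl⟩) |
      rfl | rfl | rfl)
    · exact ⟨.v ⟨u, hu⟩, rfl⟩
    · exact ⟨.w ⟨u, hu⟩, rfl⟩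
    · exact ⟨.p ⟨r, hr⟩ (⟨u, hu⟩, ⟨v, hv⟩), rfl⟩
    · exact ⟨.q ⟨i, hi⟩, rfl⟩
    · exact ⟨.s, rfl⟩
    · exact ⟨.o, rfl⟩
    · exact ⟨.e, rfl⟩
  · rintro ⟨x, rfl⟩
    cases x with
    | v u => exact Or.inl (Or.inl (Or.inl (Or.inl ⟨u, u.2, rfl⟩)))
    | w u => exact Or.inl (Or.inl (Or.inl (Or.inr ⟨u, u.2, rfl⟩)))
    | p r a => exact Or.inl (Or.inl (Or.inr ⟨r, r.2, a.1, a.1.2, a.2, a.2.2, rfl⟩))
    | q i => exact Or.inl (Or.inr ⟨i, i.2, rfl⟩)
    | s => exact Or.inr (Or.inl rfl)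
    | o => exact Or.inr (Or.inr (Or.inl rfl))
    | e => exact Or.inr (Or.inr (Or.inr rfl))

theorem GadB_nodup (n j k : ℕ) : (vsL n j k).Nodup := by
  have h1 : ∀ (c N : ℕ), ((List.range N).map fun u => ((c, 0, u, 0) : Ds)).Nodup := fun c N =>
    List.nodup_range.map fun a b h => by simpa using h
  have h2 : ((List.range j).flatMap fun r => (List.range n).flatMap fun u =>
      (List.range n).map fun v => ((2, r, u, v) : Ds)).Nodup := by
    rw [List.nodup_flatMap]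
    refine ⟨fun r _ => ?_, List.nodup_range.imp fun {a b} hab => ?_⟩
    · rw [List.nodup_flatMap]
      refine ⟨fun u _ => List.nodup_range.map fun a b h => by simpa using h,
        List.nodup_range.imp fun {a b} hab => ?_⟩
      intro x hx hx'
      simp only [List.mem_map] at hx hx'
      obtain ⟨_, _, rfl⟩ := hx
      obtain ⟨_, _, h⟩ := hx'
      simp only [Prod.mk.injEq] at h
      exact hab h.2.2.1.symm
    · intro x hx hx'
      simp only [List.mem_map, List.mem_flatMap] at hx hx'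
      obtain ⟨_, _, _, _, rfl⟩ := hx
      obtain ⟨_, _, _, _, h⟩ := hx'
      simp only [Prod.mk.injEq] at h
      exact hab h.2.1.symm
  unfold vsL
  simp only [List.nodup_append, h1, h2, true_and]
  refine ⟨⟨⟨?_, ?_⟩, ?_⟩, by decide, ?_⟩
  all_goals
    intro a ha b hb hab
    subst hab
    simp only [List.mem_append, List.mem_map, List.mem_flatMap, List.mem_cons, List.not_mem_nil,
      or_false] at ha hb
  · obtain ⟨_, _, rfl⟩ := ha
    obtain ⟨_, _, h⟩ := hb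
    simp at h
  · obtain ⟨_, _, _, _, _, _, rfl⟩ := hb
    rcases ha with ⟨_, _, h⟩ | ⟨_, _, h⟩ <;> simp at h
  · obtain ⟨_, _, rfl⟩ := hb
    rcases ha with (⟨_, _, h⟩ | ⟨_, _, h⟩) | ⟨_, _, _, _, _, _, h⟩ <;> simp at h
  · rcases ha with ((⟨_, _, rfl⟩ | ⟨_, _, rfl⟩) | ⟨_, _, _, _, _, _, rfl⟩) | ⟨_, _, rfl⟩ <;>
      simp at hb

theorem GadB_half {n : ℕ} (G : SimpleGraph (Fin n)) (Rs : List Mat) (ms : List ℕ)
    (x y : Vx n Rs.length ms.length) :
    halfD (adjMat G) Rs ms (desc x) (desc y) = true ↔ Half G Rs.length ms.length Rs ms x y := by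
  simp only [halfD, Bool.or_eq_true, Bool.and_eq_true, decide_eq_true_eq]
  cases x <;> cases y <;>
    simp [desc, Half, mget_adjMat, length_adjMat, Fin.val_inj, srel, code, Prod.ext_iff,
      and_assoc, -not_and, not_and_or]

theorem gad_eq (n j k : ℕ) : ∃ (m : ℕ) (e : Fin m ≃ Vx n j k),
    ∀ (G : SimpleGraph (Fin n)) (Rs : List Mat) (ms : List ℕ), Rs.length = j → ms.length = k →
      gad (adjMat G) Rs ms = adjMat ((GW G j k Rs ms).comap e) := by
  obtain ⟨m, e, he⟩ := GadB_enum (vsL n j k) (GadB_nodup n j k) (desc : Vx n j k → Ds)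
    GadB_desc_inj GadB_mem
  refine ⟨m, e, fun G Rs ms hj hk => ?_⟩
  subst hj hk
  unfold gad
  rw [length_adjMat, he]
  refine GadB_mat _ (fun x y => halfD (adjMat G) Rs ms x y || halfD (adjMat G) Rs ms y x) _
    fun i i' => ?_
  rw [Bool.or_eq_true, GadB_half, GadB_half]
  rfl

theorem GadB_isV {V W : Type} {Z : SimpleGraph V} {Z' : SimpleGraph W} (φ : Z ≃g Z') (x : V)
    (h : IsV Z x) : IsV Z' (φ x) := by
  obtain ⟨o, s, q, r, h1, h2, h3, h4, h5, h6, h7, h8, h9⟩ := h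
  refine ⟨φ o, φ s, φ q, φ r, φ.map_adj_iff.2 h1, fun z hz => ?_, φ.map_adj_iff.2 h3,
    φ.map_adj_iff.2 h4, fun h => h5 (φ.injective h), fun z hz => ?_, φ.map_adj_iff.2 h7,
    fun h => h8 (φ.map_adj_iff.1 h), fun h => h9 (φ.injective h)⟩
  · obtain ⟨z, rfl⟩ := φ.surjective z
    rw [h2 z (φ.map_adj_iff.1 hz)]
  · obtain ⟨z, rfl⟩ := φ.surjective z
    exact (h6 z (φ.map_adj_iff.1 hz)).imp (congrArg _) (congrArg _)

theorem isV_iso {V W : Type} {Z : SimpleGraph V} {Z' : SimpleGraph W} (φ : Z ≃g Z') (x : V) :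
    IsV Z' (φ x) ↔ IsV Z x := by
  refine ⟨fun h => ?_, GadB_isV φ x⟩
  have h1 := GadB_isV φ.symm _ h
  rwa [RelIso.symm_apply_apply] at h1

theorem GadB_any {m : ℕ} (f : ℕ → Bool) :
    (List.range m).any f = true ↔ ∃ x : Fin m, f x = true := by
  rw [List.any_eq_true]
  exact ⟨fun ⟨x, hx, h⟩ => ⟨⟨x, List.mem_range.1 hx⟩, h⟩,
    fun ⟨x, h⟩ => ⟨x, List.mem_range.2 x.2, h⟩⟩

theorem GadB_all {m : ℕ} (f : ℕ → Bool) :
    (List.range m).all f = true ↔ ∀ x : Fin m, f x = true := by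
  rw [List.all_eq_true]
  exact ⟨fun h x => h x (List.mem_range.2 x.2), fun h x hx => h ⟨x, List.mem_range.1 hx⟩⟩

theorem GadB_isVB {m : ℕ} (Z : SimpleGraph (Fin m)) (x : Fin m) :
    isVB (adjMat Z) x = true ↔ IsV Z x := by
  have h1 : ∀ u v : Fin m, mget (adjMat Z) u v = false ↔ ¬ Z.Adj u v := fun u v => by
    rw [← mget_adjMat, Bool.not_eq_true]
  unfold isVB IsV
  simp only [length_adjMat, GadB_any, GadB_all, Bool.and_eq_true, Bool.or_eq_true,
    Bool.not_eq_true', beq_iff_eq, beq_eq_false_iff_ne, mget_adjMat, h1, Fin.val_inj, ne_eq,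
    and_assoc, or_assoc, imp_iff_not_or]

theorem dec_spec {n m : ℕ} (G : SimpleGraph (Fin n)) (Z : SimpleGraph (Fin m)) (ι : Fin n → Fin m)
    (hι : Function.Injective ι) (hV : ∀ x, IsV Z x ↔ ∃ u, x = ι u)
    (hA : ∀ u v, Z.Adj (ι u) (ι v) ↔ G.Adj u v) :
    ∃ H : SimpleGraph (Fin n), dec (adjMat Z) = adjMat H ∧ Nonempty (G ≃g H) := by
  obtain ⟨m', e, he⟩ := GadB_enum ((List.range m).filter (isVB (adjMat Z)))
    (List.nodup_range.filter _) (fun u : Fin n => (ι u : ℕ)) (Fin.val_injective.comp hι) (by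
      intro b
      rw [List.mem_filter, List.mem_range]
      constructor
      · rintro ⟨h1, h2⟩
        obtain ⟨u, hu⟩ := (hV ⟨b, h1⟩).1 ((GadB_isVB Z ⟨b, h1⟩).1 h2)
        exact ⟨u, by rw [← hu]⟩
      · rintro ⟨u, rfl⟩
        exact ⟨(ι u).2, (GadB_isVB Z _).2 ((hV _).2 ⟨u, rfl⟩)⟩)
  obtain rfl : m' = n := Fin.equiv_iff_eq.1 ⟨e⟩
  refine ⟨G.comap e, ?_, ⟨(SimpleGraph.Iso.comap e G).symm⟩⟩
  unfold dec
  rw [length_adjMat, he]
  refine GadB_mat _ (mget (adjMat Z)) _ fun i i' => ?_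
  rw [mget_adjMat, hA]
  rfl

end Pool.Agent.P.MP_9e61a4_lc
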