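import Pool.Agent.P.MP_9e61a4_lc.CmF
import Pool.Agent.P.MP_9e61a4_lc.CmDefs
import Pool.Agent.P.MP_9e61a4_lc.GadB

/-! Canonization with a modular counting oracle. -/

namespace Pool.Agent.P.MP_9e61a4_lc.Cm

open Equiv N487b59b3 N68a2faeb Pool.Agent.Lib.PolyTime

variable {p n N : ℕ}

/-- The padded graph with loops at the true vertices. -/
def Ed (h : n ≤ N) (G : SimpleGraph (Fin n)) (a b : Fin N) : Prop :=
  ∃ u v : Fin n, a = Fin.castLE h u ∧ b = Fin.castLE h v ∧ (u = v ∨ G.Adj u v)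

theorem Ed_cast (h : n ≤ N) (G : SimpleGraph (Fin n)) (u v : Fin n) :
    Ed h G (Fin.castLE h u) (Fin.castLE h v) ↔ u = v ∨ G.Adj u v := by
  refine ⟨?_, fun e => ⟨u, v, rfl, rfl, e⟩⟩
  rintro ⟨u', v', h1, h2, h3⟩
  rwa [Fin.castLE_injective h h1, Fin.castLE_injective h h2]

open Classical in
noncomputable def xG (p : ℕ) (h : n ≤ N) (G : SimpleGraph (Fin n)) : Fin (N * N) → ZMod p :=
  fun c => if Ed h G c.divNat c.modNat then 1 else 0

open Classical in
theorem xG_apply (h : n ≤ N) (G : SimpleGraph (Fin n)) (a b : Fin N) :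
    xG p h G (finProdFinEquiv (a, b)) = if Ed h G a b then 1 else 0 := by
  have e := finProdFinEquiv.symm_apply_apply (a, b)
  rw [finProdFinEquiv_symm_apply, Prod.mk.injEq] at e
  rw [xG, e.1, e.2]

theorem xG_iso (h : n ≤ N) {G H : SimpleGraph (Fin n)} (φ : H ≃g G) :
    ∃ τ : Perm (Fin N), xG p h H = xG p h G ∘ rho N true τ := by
  let τ := Perm.viaEmbedding φ.toEquiv (Fin.castLEEmb h)
  have h1 : ∀ u, τ (Fin.castLE h u) = Fin.castLE h (φ u) := fun u =>
    Perm.viaEmbedding_apply φ.toEquiv (Fin.castLEEmb h) u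
  refine ⟨τ, funext fun c => ?_⟩
  obtain ⟨⟨a, b⟩, rfl⟩ := finProdFinEquiv.surjective c
  rw [Function.comp_apply, rho_apply, xG_apply, xG_apply]
  classical
  refine if_congr ⟨?_, ?_⟩ rfl rfl
  · rintro ⟨u, v, rfl, rfl, e⟩
    exact ⟨φ u, φ v, h1 u, h1 v, e.imp (congrArg φ) φ.map_adj_iff.2⟩
  · rintro ⟨u, v, e1, e2, e⟩
    obtain ⟨u, rfl⟩ := φ.surjective u
    obtain ⟨v, rfl⟩ := φ.surjective v
    exact ⟨u, v, τ.injective (e1.trans (h1 u).symm), τ.injective (e2.trans (h1 v).symm),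
      e.imp (fun e => φ.injective e) φ.map_adj_iff.1⟩

variable [hp : Fact p.Prime]

theorem xvL_adj (h : n ≤ N) (G : SimpleGraph (Fin n)) : xvL N (adjMat G) = vl (xG p h G) := by
  refine map_range _ _ fun c => ?_
  rw [xG, ← Fin.coe_divNat, ← Fin.coe_modNat, length_adjMat]
  generalize c.divNat = a
  generalize c.modNat = b
  by_cases e : Ed h G a b
  · rw [if_pos e, ZMod.val_one]
    obtain ⟨u, v, rfl, rfl, rfl | e⟩ := e
    · simp
    · rw [Fin.val_castLE, Fin.val_castLE, if_neg (fun e' => e.ne (Fin.ext e'))]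
      simp [(mget_adjMat G u v).2 e]
  · rw [if_neg e, ZMod.val_zero]
    split_ifs with c1 c2
    · exact absurd ⟨⟨a, c2⟩, ⟨a, c2⟩, rfl, Fin.ext c1.symm, Or.inl rfl⟩ e
    · rfl
    · rcases c : mget (adjMat G) a b with _ | _
      · rfl
      · refine absurd ?_ e
        have ha : a.val < n := by
          by_contra ha
          rw [mget, List.getD_eq_default (adjMat G) _ (by rw [length_adjMat]; omega)] at c
          simp at c
        have hb : b.val < n := by
          by_contra hb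
          rw [mget, List.getD_eq_default _ false] at c
          · simp at c
          · simp [adjMat, List.getD_eq_getElem?_getD, ha]
            omega
        exact ⟨⟨a, ha⟩, ⟨b, hb⟩, rfl, rfl, Or.inr ((mget_adjMat G ⟨a, ha⟩ ⟨b, hb⟩).1 c)⟩

theorem extL_spec (h : n ≤ N) (G : SimpleGraph (Fin n)) (π : Perm (Fin N)) :
    ∃ H : SimpleGraph (Fin n), extL N (bits (xG p h G ∘ rho N true π)) = adjMat H ∧
      Nonempty (G ≃g H) := by
  have key : ∀ a b : Fin N, (bits (xG p h G ∘ rho N true π)).getD (b + N * a) false = true ↔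
      Ed h G (π a) (π b) := fun a b => by
    have := getD_bits (xG p h G ∘ rho N true π) [] a b
    rw [List.append_nil] at this
    rw [this, Function.comp_apply, rho_apply, xG_apply, if_pos rfl]
    split_ifs with c <;> simp [c, ZMod.val_one]
  obtain ⟨m, e, he⟩ := GadB_enum ((List.range N).filter fun a =>
      (bits (xG p h G ∘ rho N true π)).getD (a + N * a) false) (List.nodup_range.filter _)
    (fun u : Fin n => (π⁻¹ (Fin.castLE h u) : ℕ))
    (Fin.val_injective.comp (π⁻¹.injective.comp (Fin.castLE_injective h))) (by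
      intro b
      rw [List.mem_filter, List.mem_range]
      constructor
      · rintro ⟨h1, h2⟩
        obtain ⟨u, -, hu, -⟩ := (key ⟨b, h1⟩ ⟨b, h1⟩).1 h2
        exact ⟨u, by simp [← hu]⟩
      · rintro ⟨u, rfl⟩
        exact ⟨Fin.is_lt _, (key _ _).2 ⟨u, u, by simp, by simp, Or.inl rfl⟩⟩)
  obtain rfl : m = n := Fin.equiv_iff_eq.1 ⟨e⟩
  refine ⟨G.comap e, ?_, ⟨(SimpleGraph.Iso.comap e G).symm⟩⟩
  rw [extL, he]
  refine GadB_mat _ (fun a b => !(a == b) &&
    (bits (xG p h G ∘ rho N true π)).getD (b + N * a) false) _ fun i j => ?_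
  have hπ : ∀ a, π (π⁻¹ a) = a := fun a => by simp
  rw [Bool.and_eq_true, key, hπ, hπ, Ed_cast]
  simp only [Bool.not_eq_true', beq_eq_false_iff_ne, ne_eq, Fin.val_inj,
    EmbeddingLike.apply_eq_iff_eq, (Fin.castLE_injective h).eq_iff, SimpleGraph.comap_adj]
  exact ⟨fun c => c.2.resolve_left c.1, fun c => ⟨fun e' => c.ne (congrArg e e'), Or.inr c⟩⟩

open Classical in
/-- The oracle. -/
noncomputable def orc (p m : ℕ) (s : Str) : Bool :=
  decide (¬p * m ∣ {y : Str | y.length = (p * s.length + 1) * (p * s.length + 1) + m ∧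
    rel p m (s, y) = true}.ncard)

omit hp in
theorem orc_mem (p m : ℕ) : orc p m ∈ ModP (p * m) :=
  ⟨(Polynomial.C p * Polynomial.X + 1) * (Polynomial.C p * Polynomial.X + 1) + Polynomial.C m,
    rel p m, (pt_rel p m).isPolyTime, fun x => by simp [orc]⟩

theorem canon_spec {m : ℕ} (hm : 0 < m) : IsCanon (fun _ _ => True) (canon p (orc p m)) := by
  intro n G _
  obtain ⟨⟨e, hN⟩, h⟩ := NN_spec hp.out.two_le n
  have : NeZero (NN p n) := ⟨hN ▸ pow_ne_zero _ hp.out.ne_zero⟩
  have key : ∀ (G : SimpleGraph (Fin n)) (w : Str),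
      orc p m (bitEncode (w :: adjMat G)) = true ↔ ¬p ∣ cnt (xG p h G) w := fun G w => by
    have h1 : (blocks (bitEncode (w :: adjMat G))).map decStr = w :: adjMat G := by
      rw [blocks_enc, List.map_map]
      conv_rhs => rw [← List.map_id (w :: adjMat G)]
      exact List.map_congr_left fun r _ => decStr_enc r
    have h2 : NN p n ≤ p * (bitEncode (w :: adjMat G)).length + 1 := by
      have h3 := length_le_sz (w :: adjMat G)
      rw [List.length_cons, length_adjMat, sz] at h3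
      exact (NN_le p n n).trans (Nat.add_le_add_right (Nat.mul_le_mul_left _ (by omega)) _)
    simp only [orc, rel, h1, List.tail_cons, List.headD_cons, length_adjMat, decide_eq_true_eq]
    rw [chk_count (xvL_adj h G) (Nat.add_le_add_right (Nat.mul_le_mul h2 h2) _),
      Nat.mul_dvd_mul_iff_right hm]
  refine ⟨?_, fun H ⟨φ⟩ => ?_⟩
  · obtain ⟨π, hπ⟩ := walk_spec hN (xG p h G) (key G)
    rw [canon, length_adjMat, hπ]
    exact extL_spec h G π
  · obtain ⟨τ, hτ⟩ := xG_iso (p := p) h φ.symm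
    rw [canon, canon, length_adjMat, length_adjMat]
    congr 2
    funext w
    rw [Bool.eq_iff_iff, key, key, hτ, cnt_comp hN]

omit hp in
theorem main_mod {k : ℕ} (hk : 2 ≤ k) : ∃ L ∈ ModP k, PolyTimeIn L L ∧
    ∀ O, PolyTimeIn O L → ∃ c, PolyTimeIn O c ∧ IsCanon (fun _ _ => True) c := by
  obtain ⟨p, hp, m, rfl⟩ := Nat.exists_prime_and_dvd (n := k) (by omega)
  have : Fact p.Prime := ⟨hp⟩
  exact ⟨orc p m, orc_mem p m, (Flex.ask PT.id).polyTimeIn, fun O h =>
    ⟨_, (flex_canon (Flex.of_polyTimeIn h) p).polyTimeIn,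
      canon_spec (Nat.pos_of_ne_zero (by rintro rfl; omega))⟩⟩

end Pool.Agent.P.MP_9e61a4_lc.Cm
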