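import Pool.Agent.P.MP_9e61a4_lc.Loop

/-! The decoration is canonical up to isomorphism and leaves a nilpotent group. -/

namespace Pool.Agent.P.MP_9e61a4_lc

open Equiv

variable {n : ℕ} {t : Mat × Mat → Bool}

theorem Deco_conj {G H : SimpleGraph (Fin n)} {Rs Rs' : List Mat} {π : Perm (Fin n)}
    (h : Maps G Rs H Rs' π) (g : Perm (Fin n)) : g ∈ AutS G Rs ↔ π * g * π⁻¹ ∈ AutS H Rs' := by
  constructor
  · intro hg
    exact Maps.mul (Maps.mul h hg) h.inv
  · intro hg
    have h1 : Maps G Rs G Rs (π⁻¹ * (π * g * π⁻¹) * π) := Maps.mul (Maps.mul h.inv hg) h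
    have e : π⁻¹ * (π * g * π⁻¹) * π = g := by group
    rwa [e] at h1

theorem Deco_le (G : SimpleGraph (Fin n)) (R : Mat) (Rs : List Mat) :
    AutS G (R :: Rs) ≤ AutS G Rs := fun _ h => (maps_cons.1 h).1

theorem Deco_solv {A B : Subgroup (Perm (Fin n))} (h : A ≤ B) (hB : Group.IsSolvable B) :
    Group.IsSolvable A :=
  Group.isSolvable_of_isSolvable_injective (Subgroup.inclusion_injective h)

theorem Deco_solvB (ht : Tests t) (G : SimpleGraph (Fin n)) (Rs : List Mat) :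
    solvB (adjMat G).length (gens t (adjMat G) Rs) = true ↔ Group.IsSolvable (AutS G Rs) := by
  obtain ⟨T, h1, h2⟩ := gens_spec ht G Rs
  rw [length_adjMat, h1, solvB_spec, h2]

theorem Deco_loop (ht : Tests t) {G H : SimpleGraph (Fin n)} {Rs Rs' : List Mat} {p : ℕ}
    [Fact p.Prime] (hp : p = 2 ∨ Group.IsSolvable (AutS G Rs)) {π : Perm (Fin n)}
    (h : Maps G Rs H Rs' π) :
    ∃ ρ, Maps G (loopR t (adjMat G) Rs p :: Rs) H (loopR t (adjMat H) Rs' p :: Rs') ρ := by
  obtain ⟨K₁, a1, -, c1⟩ := loopR_spec ht G Rs hp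
  obtain ⟨K₂, a2, -, c2⟩ := loopR_spec ht H Rs' (hp.imp id (solvable_conj (Deco_conj h)).1)
  obtain ⟨g, hg, e⟩ := maxP_conj (Deco_conj h) a1 a2
  refine ⟨g * π, maps_cons.2 ⟨Maps.mul hg h, fun a b => ?_⟩⟩
  rw [c1, c2, e]

theorem Deco_normal (ht : Tests t) (G : SimpleGraph (Fin n)) (Rs : List Mat) {p : ℕ}
    [Fact p.Prime] (hp : p = 2 ∨ Group.IsSolvable (AutS G Rs)) {F : Subgroup (Perm (Fin n))}
    (hF : F ≤ AutS G (loopR t (adjMat G) Rs p :: Rs)) (P : Sylow p F) :
    (P : Subgroup F).Normal := by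
  obtain ⟨K, a1, b1, c1⟩ := loopR_spec ht G Rs hp
  refine sylow_normal a1 b1 (hF.trans (Deco_le G _ _)) (fun f hf a b => ?_) P
  rw [← c1, ← c1]
  exact (maps_cons.1 (hF hf)).2 a b

theorem Deco_step_le (G : SimpleGraph (Fin n)) (Rs : List Mat) (p : ℕ) :
    AutS G (primeStep t (adjMat G) Rs p) ≤ AutS G Rs := by
  unfold primeStep
  split_ifs
  · exact Deco_le G _ _
  · exact le_rfl

theorem Deco_fold_le (G : SimpleGraph (Fin n)) (l : List ℕ) :
    ∀ Rs, AutS G (l.foldl (primeStep t (adjMat G)) Rs) ≤ AutS G Rs := by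
  induction l with
  | nil => exact fun _ => le_rfl
  | cons p l ih => exact fun Rs => (ih _).trans (Deco_step_le G Rs p)

theorem Deco_fold_maps (ht : Tests t) {G H : SimpleGraph (Fin n)} (l : List ℕ) :
    ∀ Rs Rs', Group.IsSolvable (AutS G Rs) → (∃ π, Maps G Rs H Rs' π) →
      ∃ π, Maps G (l.foldl (primeStep t (adjMat G)) Rs) H
        (l.foldl (primeStep t (adjMat H)) Rs') π := by
  induction l with
  | nil => exact fun _ _ _ h => h
  | cons p l ih =>
    rintro Rs Rs' hs ⟨π, h⟩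
    refine ih _ _ (Deco_solv (Deco_step_le G Rs p) hs) ?_
    unfold primeStep
    split_ifs with hp
    · have : Fact p.Prime := ⟨(primeB_iff p).1 hp⟩
      exact Deco_loop ht (Or.inr hs) h
    · exact ⟨π, h⟩

theorem Deco_fold_normal (ht : Tests t) (G : SimpleGraph (Fin n)) {q : ℕ} [hq : Fact q.Prime]
    (l : List ℕ) : ∀ Rs, Group.IsSolvable (AutS G Rs) → q ∈ l →
      ∀ P : Sylow q (AutS G (l.foldl (primeStep t (adjMat G)) Rs)),
        (P : Subgroup (AutS G (l.foldl (primeStep t (adjMat G)) Rs))).Normal := by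
  induction l with
  | nil => exact fun _ _ h => absurd h List.not_mem_nil
  | cons p l ih =>
    intro Rs hs hm
    rcases List.mem_cons.1 hm with rfl | hm
    · refine Deco_normal ht G Rs (Or.inr hs) ((Deco_fold_le G l _).trans (le_of_eq ?_))
      rw [primeStep, if_pos ((primeB_iff q).2 hq.out)]
    · exact ih _ (Deco_solv (Deco_step_le G Rs p) hs) hm

theorem deco_canon (ht : Tests t) {G H : SimpleGraph (Fin n)} (h : Nonempty (G ≃g H)) :
    ∃ π, Maps G (deco t (adjMat G)) H (deco t (adjMat H)) π := by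
  obtain ⟨e⟩ := h
  have h0 : Maps G [] H [] e.toEquiv :=
    ⟨fun u v => e.map_rel_iff, rfl, fun r hr => absurd hr (Nat.not_lt_zero r)⟩
  obtain ⟨π, hπ⟩ := Deco_loop ht (p := 2) (Or.inl rfl) h0
  have hs := solvable_conj (Deco_conj hπ)
  unfold deco
  by_cases h1 : Group.IsSolvable (AutS G [loopR t (adjMat G) [] 2])
  · rw [if_pos ((Deco_solvB ht G _).2 h1), if_pos ((Deco_solvB ht H _).2 (hs.1 h1)),
      length_adjMat, length_adjMat]
    exact Deco_fold_maps ht _ _ _ h1 ⟨π, hπ⟩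
  · rw [if_neg (fun h2 => h1 ((Deco_solvB ht G _).1 h2)),
      if_neg (fun h2 => h1 (hs.2 ((Deco_solvB ht H _).1 h2)))]
    exact ⟨π, hπ⟩

theorem deco_class (ht : Tests t) (G : SimpleGraph (Fin n)) :
    (∀ P : Sylow 2 (AutS G (deco t (adjMat G))),
      (P : Subgroup (AutS G (deco t (adjMat G)))).Normal) ∧
    (Group.IsSolvable (AutS G (deco t (adjMat G))) →
      Group.IsNilpotent (AutS G (deco t (adjMat G)))) := by
  by_cases h1 : Group.IsSolvable (AutS G [loopR t (adjMat G) [] 2])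
  · have e : deco t (adjMat G) =
        (List.range (n + 1)).foldl (primeStep t (adjMat G)) [loopR t (adjMat G) [] 2] := by
      rw [deco, if_pos ((Deco_solvB ht G _).2 h1), length_adjMat]
    rw [e]
    refine ⟨Deco_normal ht G [] (Or.inl rfl) (Deco_fold_le G _ _), fun _ => ?_⟩
    exact nilpotent_of_small _ fun q _ hq =>
      Deco_fold_normal ht G _ _ h1 (List.mem_range.2 (Nat.lt_succ_of_le hq))
  · have e : deco t (adjMat G) = [loopR t (adjMat G) [] 2] := by
      rw [deco, if_neg (fun h2 => h1 ((Deco_solvB ht G _).1 h2))]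
    rw [e]
    exact ⟨Deco_normal ht G [] (Or.inl rfl) le_rfl, fun h => absurd h h1⟩

end Pool.Agent.P.MP_9e61a4_lc
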