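import Pool.Agent.P.MP_9e61a4_lc.Sem

/-! Sylow conjugacy, normal Sylow subgroups, derived series. -/

namespace Pool.Agent.P.MP_9e61a4_lc

open Equiv
open scoped Pointwise

variable {V : Type} [Finite V] {p : ℕ} [Fact p.Prime]

/-- A maximal `p`-subgroup as a Sylow subgroup. -/
def GrpB_syl {V : Type} {p : ℕ} {H K : Subgroup (Perm V)} (h : MaxP p H K) : Sylow p H where
  toSubgroup := K.subgroupOf H
  isPGroup' := h.2.1.comap_subtype
  is_maximal' := fun {Q} hQ hle => by
    have h1 : Q.map H.subtype = K := by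
      refine h.2.2 _ (Subgroup.map_subtype_le Q) (hQ.map _) fun k hk => ?_
      exact ⟨⟨k, h.1 hk⟩, hle hk, rfl⟩
    rw [← h1]
    exact (Subgroup.comap_map_eq_self_of_injective H.subtype_injective Q).symm

theorem GrpB_conj {H K K' : Subgroup (Perm V)} (h : MaxP p H K) (h' : MaxP p H K') :
    ∃ x ∈ H, ∀ g, g ∈ K ↔ x * g * x⁻¹ ∈ K' := by
  obtain ⟨x, hx⟩ := MulAction.exists_smul_eq H (GrpB_syl h) (GrpB_syl h')
  have h1 : MulAut.conj x • K.subgroupOf H = K'.subgroupOf H := congrArg Sylow.toSubgroup hx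
  have h2 : ∀ g : H, g.1 ∈ K ↔ x.1 * g.1 * x.1⁻¹ ∈ K' := fun g => by
    have h3 := Subgroup.smul_mem_pointwise_smul_iff (a := MulAut.conj x) (S := K.subgroupOf H)
      (x := g)
    rw [h1] at h3
    exact h3.symm
  refine ⟨x.1, x.2, fun g => ⟨fun hg => (h2 ⟨g, h.1 hg⟩).1 hg, fun hg => ?_⟩⟩
  have h4 : g ∈ H := by
    have := H.mul_mem (H.mul_mem (H.inv_mem x.2) (h'.1 hg)) x.2
    simpa [mul_assoc] using this
  exact (h2 ⟨g, h4⟩).2 hg

theorem maxP_conj {H₁ H₂ K₁ K₂ : Subgroup (Perm V)} {π : Perm V}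
    (hπ : ∀ g, g ∈ H₁ ↔ π * g * π⁻¹ ∈ H₂) (h₁ : MaxP p H₁ K₁) (h₂ : MaxP p H₂ K₂) :
    ∃ h ∈ H₂, ∀ a b : V × V, Orb K₂ ((h * π) • a) ((h * π) • b) ↔ Orb K₁ a b := by
  have h3 : MaxP p H₂ (K₁.map (MulAut.conj π).toMonoidHom) := by
    refine ⟨?_, h₁.2.1.map _, fun Q hQ hp hle => ?_⟩
    · rintro _ ⟨g, hg, rfl⟩
      exact (hπ g).1 (h₁.1 hg)
    · have h4 : Q.comap (MulAut.conj π).toMonoidHom = K₁ :=
        h₁.2.2 _ (fun g hg => (hπ g).2 (hQ hg)) (hp.comap_of_injective _ (MulAut.conj π).injective)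
          (fun g hg => hle ⟨g, hg, rfl⟩)
      rw [← h4]
      exact (Subgroup.map_comap_eq_self_of_surjective (MulAut.conj π).surjective Q).symm
  obtain ⟨x, hx, h4⟩ := GrpB_conj h3 h₂
  have h5 : ∀ g, g ∈ K₁ ↔ (x * π) * g * (x * π)⁻¹ ∈ K₂ := fun g => by
    have h6 := h4 (π * g * π⁻¹)
    have h7 : π * g * π⁻¹ ∈ K₁.map (MulAut.conj π).toMonoidHom ↔ g ∈ K₁ :=
      Subgroup.mem_map_iff_mem (f := (MulAut.conj π).toMonoidHom) (MulAut.conj π).injective
    rw [← h7, h6]
    simp only [mul_inv_rev, mul_assoc]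
  refine ⟨x, hx, fun a b => ⟨?_, ?_⟩⟩
  · rintro ⟨l, hl, e⟩
    refine ⟨(x * π)⁻¹ * l * (x * π), (h5 _).2 ?_, ?_⟩
    · simpa [mul_assoc] using hl
    · rw [mul_smul, mul_smul, e, inv_smul_smul]
  · rintro ⟨l, hl, e⟩
    refine ⟨_, (h5 l).1 hl, ?_⟩
    rw [mul_smul, inv_smul_smul, mul_smul, e]

/-- A subgroup of `H` permuting the orbits on pairs of a maximal `p`-subgroup `K` that is closed
has normal Sylow `p`-subgroups. -/
theorem sylow_normal {H K F : Subgroup (Perm V)} (hK : MaxP p H K) (hc : clo H K = K) (hF : F ≤ H)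
    (hp : ∀ f ∈ F, Pres K f) (P : Sylow p F) : (P : Subgroup F).Normal := by
  have h1 : ∀ f ∈ F, ∀ k ∈ K, f * k * f⁻¹ ∈ K := fun f hf k hk => by
    rw [← hc]
    refine ⟨H.mul_mem (H.mul_mem (hF hf) (hK.1 hk)) (H.inv_mem (hF hf)), fun a => ?_⟩
    have h2 := (hp f hf (f⁻¹ • a) (k • f⁻¹ • a)).2 ⟨k, hk, rfl⟩
    rwa [smul_inv_smul, ← mul_smul, ← mul_smul] at h2
  have h2 : (P : Subgroup F).map F.subtype ≤ Subgroup.normalizer K := by
    rintro _ ⟨f, -, rfl⟩
    refine Subgroup.mem_normalizer_iff.2 fun k => ⟨h1 _ f.2 k, fun hk => ?_⟩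
    have := h1 _ (F.inv_mem f.2) _ hk
    simpa [mul_assoc] using this
  have h3 := hK.2.2 _ (sup_le hK.1 ((Subgroup.map_subtype_le _).trans hF))
    (hK.2.1.to_sup_of_normal_left' (P.isPGroup'.map F.subtype) h2) le_sup_left
  have h4 : K.subgroupOf F = P := by
    refine P.is_maximal' hK.2.1.comap_subtype fun f hf => ?_
    have : F.subtype f ∈ K ⊔ (P : Subgroup F).map F.subtype :=
      Subgroup.mem_sup_right ⟨f, hf, rfl⟩
    rw [h3] at this
    exact this
  rw [← h4]
  exact ⟨fun k hk f => h1 _ f.2 _ hk⟩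

theorem nilpotent_of_small {n : ℕ} (F : Subgroup (Perm (Fin n)))
    (h : ∀ (q : ℕ) [Fact q.Prime], q ≤ n → ∀ P : Sylow q F, (P : Subgroup F).Normal) :
    Group.IsNilpotent F := by
  have key : ∀ (q : ℕ) (_hp : Fact q.Prime) (P : Sylow q F), (P : Subgroup F).Normal := by
    intro q hq P
    by_cases hn : q ≤ n
    · exact h q hn P
    · obtain ⟨k, hk⟩ := IsPGroup.iff_card.1 P.isPGroup'
      have h1 : q ^ k ∣ n.factorial := by
        have h2 := (Subgroup.card_subgroup_dvd_card (P : Subgroup F)).trans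
          (Subgroup.card_subgroup_dvd_card F)
        rwa [hk, Nat.card_perm, Nat.card_fin] at h2
      have h3 : k = 0 := by
        by_contra h0
        exact hn (hq.out.dvd_factorial.1 ((dvd_pow_self q h0).trans h1))
      rw [h3, pow_zero, Subgroup.card_eq_one] at hk
      rw [hk]
      infer_instance
  exact (Group.isNilpotent_of_finite_tfae.out 0 3 rfl rfl).2 key

theorem GrpB_dser {V : Type} (N : Subgroup (Perm V)) (i : ℕ) :
    dser N i = (derivedSeries N i).map N.subtype := by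
  induction i with
  | zero => rw [dser, derivedSeries_zero, ← MonoidHom.range_eq_map, Subgroup.range_subtype]
  | succ i ih => rw [dser, derivedSeries_succ, Subgroup.map_commutator, ih]

omit [Finite V] in
theorem mem_of_dser {N K : Subgroup (Perm V)} (hK : ∀ f ∈ N, ∀ k ∈ K, f * k * f⁻¹ ∈ K) {J M : ℕ}
    (hJ : dser N J = ⊥) (S : ℕ → Set (Perm V)) (hS : ∀ i < J, Subgroup.closure (S i) = dser N i)
    (hM : M.Coprime p) (hs : ∀ i < J, ∀ s ∈ S i, s ^ M ∈ K) {g : Perm V} (hg : g ∈ N)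
    (hk : ∃ k, g ^ p ^ k = 1) : g ∈ K := by
  obtain ⟨k, hk⟩ := hk
  have hN : (K.subgroupOf N).Normal := ⟨fun k hk f => hK _ f.2 _ hk⟩
  have hmem : ∀ i (x : N), x.1 ∈ dser N i ↔ x ∈ derivedSeries N i := fun i x => by
    rw [GrpB_dser]
    exact Subgroup.mem_map_iff_mem (f := N.subtype) N.subtype_injective
  have hle : ∀ i, dser N i ≤ N := fun i => by
    rw [GrpB_dser]
    exact Subgroup.map_subtype_le _
  have key : ∀ i ≤ J, (⟨g, hg⟩ : N) ∈ derivedSeries N i ⊔ K.subgroupOf N := by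
    intro i
    induction i with
    | zero => exact fun _ => Subgroup.mem_sup_left (Subgroup.mem_top _)
    | succ i ih =>
      intro hi
      obtain ⟨a, ha, b, hb, e⟩ := Subgroup.mem_sup_of_normal_right.1 (ih (by omega))
      let φ : N →* N ⧸ (derivedSeries N (i + 1) ⊔ K.subgroupOf N) := QuotientGroup.mk' _
      have hφ : ∀ x, φ x = 1 ↔ x ∈ derivedSeries N (i + 1) ⊔ K.subgroupOf N :=
        fun x => QuotientGroup.eq_one_iff x
      have h1 : ∀ x ∈ Subgroup.closure (S i), ∀ hx : x ∈ N, φ ⟨x, hx⟩ ^ M = 1 := by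
        intro x hx
        induction hx using Subgroup.closure_induction with
        | mem x hx =>
          intro hxN
          rw [← map_pow, hφ]
          exact Subgroup.mem_sup_right (hs i hi x hx)
        | one =>
          intro h1
          exact (congrArg (· ^ M) φ.map_one).trans (one_pow M)
        | mul x y hx hy ihx ihy =>
          intro hxy
          rw [hS i hi] at hx hy
          have hc : Commute (φ ⟨x, hle i hx⟩) (φ ⟨y, hle i hy⟩) := by
            rw [← commutatorElement_eq_one_iff_commute, ← map_commutatorElement, hφ]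
            refine Subgroup.mem_sup_left ?_
            rw [derivedSeries_succ]
            exact Subgroup.commutator_mem_commutator ((hmem i _).1 hx) ((hmem i _).1 hy)
          have e1 : (⟨x * y, hxy⟩ : N) = ⟨x, hle i hx⟩ * ⟨y, hle i hy⟩ := rfl
          rw [e1, map_mul, hc.mul_pow, ihx, ihy, one_mul]
        | inv x hx ihx =>
          intro hx'
          rw [hS i hi] at hx
          have e1 : (⟨x⁻¹, hx'⟩ : N) = (⟨x, hle i hx⟩ : N)⁻¹ := rfl
          rw [e1, map_inv, inv_pow, ihx, inv_one]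
      have h2 : φ ⟨g, hg⟩ ^ M = 1 := by
        rw [← e, map_mul, (hφ b).2 (Subgroup.mem_sup_right hb), mul_one]
        exact h1 a.1 (by rw [hS i hi]; exact (hmem i a).2 ha) a.2
      have h3 : φ ⟨g, hg⟩ ^ p ^ k = 1 := by
        have e1 : (⟨g, hg⟩ : N) ^ p ^ k = 1 := Subtype.ext hk
        rw [← map_pow, e1, map_one]
      rw [← hφ, ← orderOf_eq_one_iff]
      exact Nat.eq_one_of_dvd_coprimes (hM.pow_right k) (orderOf_dvd_of_pow_eq_one h2)
        (orderOf_dvd_of_pow_eq_one h3)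
  have h4 := key J le_rfl
  have h5 : derivedSeries N J = ⊥ := by
    rw [GrpB_dser] at hJ
    exact (Subgroup.map_eq_bot_iff_of_injective _ N.subtype_injective).1 hJ
  rw [h5, bot_sup_eq] at h4
  exact h4

theorem solvable_iff_dser {n : ℕ} (N : Subgroup (Perm (Fin n))) :
    Group.IsSolvable N ↔ dser N (n * n) = ⊥ := by
  rw [GrpB_dser, Subgroup.map_eq_bot_iff_of_injective _ N.subtype_injective]
  refine ⟨fun hs => ?_, fun h => ⟨⟨_, h⟩⟩⟩
  have key : ∀ i, derivedSeries N i = ⊥ ∨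
      2 ^ i * Nat.card (derivedSeries N i) ≤ Nat.card N := by
    intro i
    induction i with
    | zero => exact Or.inr (by simp)
    | succ i ih =>
      by_cases h0 : derivedSeries N i = ⊥
      · exact Or.inl (le_bot_iff.1 (h0 ▸ derivedSeries_antitone N (Nat.le_succ i)))
      · refine Or.inr (le_trans ?_ (ih.resolve_left h0))
        have h1 : derivedSeries N (i + 1) < derivedSeries N i :=
          Group.IsSolvable.commutator_lt_of_ne_bot h0
        obtain ⟨c, hc⟩ := Subgroup.card_dvd_of_le h1.le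
        have h2 : ¬ Nat.card (derivedSeries N i) ≤ Nat.card (derivedSeries N (i + 1)) :=
          fun h => h1.ne (Subgroup.eq_of_le_of_card_ge h1.le h)
        have h3 : 2 ≤ c := by
          by_contra h4
          refine h2 ?_
          rw [hc]
          exact mul_le_of_le_one_right' (by omega)
        rw [pow_succ, mul_assoc, hc, mul_comm 2]
        exact Nat.mul_le_mul_left _ (Nat.mul_le_mul_left _ h3)
  by_contra h0
  have h1 := (key (n * n)).resolve_left h0
  have h2 : 1 < Nat.card (derivedSeries N (n * n)) := (Subgroup.one_lt_card_iff_ne_bot _).2 h0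
  have h3 : Nat.card N ≤ n.factorial := by
    have := Subgroup.card_le_card_group N
    rwa [Nat.card_perm, Nat.card_fin] at this
  have h4 : n.factorial ≤ 2 ^ (n * n) := by
    rw [pow_mul]
    exact (Nat.factorial_le_pow n).trans (Nat.pow_le_pow_left Nat.lt_two_pow_self.le n)
  have h5 : 0 < 2 ^ (n * n) := Nat.two_pow_pos _
  nlinarith

theorem GrpB_solv {V : Type} {A B : Subgroup (Perm V)} {π : Perm V}
    (h : ∀ g ∈ A, π * g * π⁻¹ ∈ B) (hB : Group.IsSolvable B) : Group.IsSolvable A := by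
  let f : A →* B := ((MulAut.conj π).toMonoidHom.comp A.subtype).codRestrict B fun g => h _ g.2
  exact Group.isSolvable_of_isSolvable_injective (f := f) fun x y e =>
    Subtype.ext ((MulAut.conj π).injective (congrArg Subtype.val e))

omit [Finite V] in
theorem solvable_conj {H₁ H₂ : Subgroup (Perm V)} {π : Perm V}
    (hπ : ∀ g, g ∈ H₁ ↔ π * g * π⁻¹ ∈ H₂) : Group.IsSolvable H₁ ↔ Group.IsSolvable H₂ := by
  refine ⟨GrpB_solv (π := π⁻¹) fun g hg => (hπ _).2 ?_, GrpB_solv fun g hg => (hπ g).1 hg⟩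
  simpa [mul_assoc] using hg

theorem normalSylow_of_mulEquiv {A B : Type} [Group A] [Group B] [Finite A] (e : A ≃* B)
    (h : ∀ P : Sylow p A, (P : Subgroup A).Normal) : ∃ P : Sylow p B, (P : Subgroup B).Normal := by
  obtain ⟨P⟩ : Nonempty (Sylow p A) := inferInstance
  exact ⟨P.mapSurjective (f := e.toMonoidHom) e.surjective, (h P).map _ e.surjective⟩

end Pool.Agent.P.MP_9e61a4_lc
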