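import Pool.Agent.P.MP_9e61a4_lc.Fhl
import Pool.Agent.P.MP_9e61a4_lc.GrpB

/-! The derived series is computed correctly. -/

namespace Pool.Agent.P.MP_9e61a4_lc

open Equiv

variable {n : ℕ}

theorem Der_comm {G : Type} [Group G] {S : Set G} {K : Subgroup G}
    (hK : ∀ c ∈ Subgroup.closure S, ∀ x ∈ K, c * x * c⁻¹ ∈ K) {b : G}
    (hb : ∀ t ∈ S, t * b * t⁻¹ * b⁻¹ ∈ K) :
    ∀ a ∈ Subgroup.closure S, a * b * a⁻¹ * b⁻¹ ∈ K := by
  intro a ha
  induction ha using Subgroup.closure_induction with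
  | mem t ht => exact hb t ht
  | one => simp
  | mul a a' ha ha' h h' =>
    have e : a * a' * b * (a * a')⁻¹ * b⁻¹ =
        a * (a' * b * a'⁻¹ * b⁻¹) * a⁻¹ * (a * b * a⁻¹ * b⁻¹) := by group
    rw [e]
    exact K.mul_mem (hK a ha _ h') h
  | inv a ha h =>
    have e : a⁻¹ * b * a⁻¹⁻¹ * b⁻¹ = a⁻¹ * (a * b * a⁻¹ * b⁻¹)⁻¹ * a⁻¹⁻¹ := by group
    rw [e]
    exact hK _ ((Subgroup.closure S).inv_mem ha) _ (K.inv_mem h)

theorem Der_norm {G : Type} [Group G] [Finite G] {S S' : Set G}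
    (h : ∀ c ∈ S, ∀ x ∈ S', c * x * c⁻¹ ∈ Subgroup.closure S') :
    ∀ c ∈ Subgroup.closure S, ∀ x ∈ Subgroup.closure S', c * x * c⁻¹ ∈ Subgroup.closure S' := by
  have h1 : ∀ c ∈ S, ∀ x ∈ Subgroup.closure S', c * x * c⁻¹ ∈ Subgroup.closure S' := by
    intro c hc x hx
    induction hx using Subgroup.closure_induction with
    | mem t ht => exact h c hc t ht
    | one => simp
    | mul a a' ha ha' h h' =>
      have e : c * (a * a') * c⁻¹ = c * a * c⁻¹ * (c * a' * c⁻¹) := by group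
      rw [e]
      exact Subgroup.mul_mem _ h h'
    | inv a ha h =>
      have e : c * a⁻¹ * c⁻¹ = (c * a * c⁻¹)⁻¹ := by group
      rw [e]
      exact Subgroup.inv_mem _ h
  have h2 : Subgroup.closure S ≤ Subgroup.normalizer (Subgroup.closure S' : Set G) :=
    (Subgroup.closure_le _).2 fun c hc => Subgroup.mem_normalizer_fintype (h1 c hc)
  intro c hc x hx
  exact (Subgroup.mem_normalizer_iff.1 (h2 hc) x).1 hx

theorem Der_commL (a b : Perm (Fin n)) : commL n (pl a) (pl b) = pl (a * b * a⁻¹ * b⁻¹) := by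
  rw [commL, invL_pl, invL_pl, mulL_pl, mulL_pl, mulL_pl]

theorem derT_spec (T : List (Perm (Fin n))) :
    ∃ T' : List (Perm (Fin n)), derT n (T.map pl) = T'.map pl ∧
      Subgroup.closure {x | x ∈ T'} =
        ⁅Subgroup.closure {x | x ∈ T}, Subgroup.closure {x | x ∈ T}⁆ := by
  obtain ⟨T', h1, h2, h3, h4⟩ :=
    closeT_spec (T.flatMap fun a => T.map fun b => a * b * a⁻¹ * b⁻¹) T
  refine ⟨T', ?_, le_antisymm ?_ ?_⟩
  · rw [← h1, derT]
    congr 1
    simp only [List.flatMap_map, List.map_flatMap, List.map_map, Function.comp_def, Der_commL]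
  · refine (Subgroup.closure_le _).2 fun x hx => h2 _ ?_ ?_ x hx
    · intro g hg
      obtain ⟨a, ha, hg⟩ := List.mem_flatMap.1 hg
      obtain ⟨b, hb, rfl⟩ := List.mem_map.1 hg
      exact Subgroup.commutator_mem_commutator (Subgroup.subset_closure ha)
        (Subgroup.subset_closure hb)
    · intro c hc y hy
      have e : c * y * c⁻¹ = c * y * c⁻¹ * y⁻¹ * y := by group
      rw [e]
      refine Subgroup.mul_mem _ ?_ hy
      refine Subgroup.commutator_mem_commutator (Subgroup.subset_closure hc) ?_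
      refine Subgroup.commutator_le.2 (fun a ha b hb => ?_) hy
      exact Subgroup.mul_mem _ (Subgroup.mul_mem _ (Subgroup.mul_mem _ ha hb)
        (Subgroup.inv_mem _ ha)) (Subgroup.inv_mem _ hb)
  · have hK := Der_norm (S := {x | x ∈ T}) (S' := {x | x ∈ T'}) h4
    refine Subgroup.commutator_le.2 fun a ha b hb => ?_
    refine Der_comm hK (fun t ht => ?_) a ha
    have e : t * b * t⁻¹ * b⁻¹ = (b * t * b⁻¹ * t⁻¹)⁻¹ := by group
    rw [e]
    refine Subgroup.inv_mem _ (Der_comm hK (fun u hu => h3 _ ?_) b hb)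
    exact List.mem_flatMap.2 ⟨u, hu, List.mem_map.2 ⟨t, ht, rfl⟩⟩

theorem Der_iter (T : List (Perm (Fin n))) (i : ℕ) :
    ∃ T' : List (Perm (Fin n)), (derT n)^[i] (T.map pl) = T'.map pl ∧
      Subgroup.closure {x | x ∈ T'} = dser (Subgroup.closure {x | x ∈ T}) i := by
  induction i with
  | zero => exact ⟨T, rfl, rfl⟩
  | succ i ih =>
    obtain ⟨T', h1, h2⟩ := ih
    obtain ⟨T'', h3, h4⟩ := derT_spec T'
    refine ⟨T'', ?_, ?_⟩
    · rw [Function.iterate_succ_apply', h1, h3]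
    · rw [h4, h2, dser]

theorem allD_spec (T : List (Perm (Fin n))) :
    ∃ S : ℕ → List (Perm (Fin n)),
      allD n (T.map pl) = ((List.range (n * n)).flatMap S).map pl ∧
      ∀ i, Subgroup.closure {x | x ∈ S i} = dser (Subgroup.closure {x | x ∈ T}) i := by
  choose S h1 h2 using Der_iter T
  refine ⟨S, ?_, h2⟩
  simp only [allD, h1, List.map_flatMap]

theorem solvB_spec (T : List (Perm (Fin n))) :
    solvB n (T.map pl) = true ↔ Group.IsSolvable (Subgroup.closure {x | x ∈ T}) := by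
  obtain ⟨T', h1, h2⟩ := Der_iter T (n * n)
  rw [solvable_iff_dser, ← h2, solvB, h1, Subgroup.closure_eq_bot_iff, List.all_eq_true]
  constructor
  · intro h x hx
    have h3 := h (pl x) (List.mem_map.2 ⟨x, hx, rfl⟩)
    rw [beq_iff_eq, ← pl_one] at h3
    exact pl_inj h3
  · intro h g hg
    obtain ⟨x, hx, rfl⟩ := List.mem_map.1 hg
    have h3 : x = 1 := h hx
    rw [beq_iff_eq, h3, pl_one]

end Pool.Agent.P.MP_9e61a4_lc
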