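import Pool.Agent.P.MP_9e61a4_lc.GadA
import Pool.Agent.P.MP_9e61a4_lc.GadB

/-! Automorphisms found with the isomorphism test. -/

namespace Pool.Agent.P.MP_9e61a4_lc

open Equiv

variable {n : ℕ} {t : Mat × Mat → Bool}

theorem Ext_comap {V : Type} {m : ℕ} (e : Fin m ≃ V) (Z₁ Z₂ : SimpleGraph V) :
    Nonempty (Z₁.comap e ≃g Z₂.comap e) ↔
      ∃ φ : Perm V, ∀ x y, Z₂.Adj (φ x) (φ y) ↔ Z₁.Adj x y := by
  constructor
  · rintro ⟨ψ⟩
    refine ⟨e.symm.trans (ψ.toEquiv.trans e), fun x y => ?_⟩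
    have := ψ.map_rel_iff (a := e.symm x) (b := e.symm y)
    simpa using this
  · rintro ⟨φ, hφ⟩
    refine ⟨⟨e.trans (φ.trans e.symm), fun {a b} => ?_⟩⟩
    simpa using hφ (e a) (e b)

theorem Ext_marks {σ : List (ℕ × ℕ)} (hσ : ∀ q ∈ σ, q.1 < n ∧ q.2 < n) (π : Perm (Fin n)) :
    (∀ i < σ.length, ∀ u : Fin n, (σ.map Prod.snd).getD i 0 = π u ↔
      (σ.map Prod.fst).getD i 0 = u) ↔ Extd π σ := by
  constructor
  · intro h q hq x hx
    obtain ⟨i, hi, rfl⟩ := List.getElem_of_mem hq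
    have := (h i hi x).2 (by simp [List.getD_eq_getElem?_getD, hi, hx])
    simpa [List.getD_eq_getElem?_getD, hi] using this.symm
  · intro h i hi u
    have hq : σ[i] ∈ σ := List.getElem_mem hi
    have h0 := h _ hq ⟨σ[i].1, (hσ _ hq).1⟩ rfl
    have e1 : (σ.map Prod.snd).getD i 0 = σ[i].2 := by simp [List.getD_eq_getElem?_getD, hi]
    have e2 : (σ.map Prod.fst).getD i 0 = σ[i].1 := by simp [List.getD_eq_getElem?_getD, hi]
    rw [e1, e2, ← h0]
    constructor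
    · intro h1
      have := π.injective (Fin.ext h1)
      rw [← this]
    · intro h1
      have : (⟨σ[i].1, (hσ _ hq).1⟩ : Fin n) = u := Fin.ext h1
      rw [this]

theorem okB_iff (ht : Tests t) (G : SimpleGraph (Fin n)) (Rs : List Mat) {σ : List (ℕ × ℕ)}
    (hσ : ∀ q ∈ σ, q.1 < n ∧ q.2 < n) :
    okB t (adjMat G) Rs σ = true ↔ ∃ π ∈ AutS G Rs, Extd π σ := by
  obtain ⟨m, e, he⟩ := gad_eq n Rs.length σ.length
  unfold okB
  rw [he G Rs (σ.map Prod.fst) rfl (by simp), he G Rs (σ.map Prod.snd) rfl (by simp), ht,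
    Ext_comap]
  constructor
  · rintro ⟨φ, hφ⟩
    obtain ⟨π, -, h1, h2⟩ := (iso_GW G G _ _ rfl rfl φ).1 hφ
    exact ⟨π, h1, (Ext_marks hσ π).1 h2⟩
  · rintro ⟨π, h1, h2⟩
    exact ⟨liftV _ _ π, (iso_GW G G _ _ rfl rfl _).2 ⟨π, rfl, h1, (Ext_marks hσ π).2 h2⟩⟩

theorem Ext_headD {l : List ℕ} (h : l ≠ []) : l.headD 0 ∈ l := by
  cases l with
  | nil => exact absurd rfl h
  | cons a l => simp

theorem Ext_fold (ht : Tests t) (G : SimpleGraph (Fin n)) (Rs : List Mat) {σ : List (ℕ × ℕ)}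
    (hσ : ∀ q ∈ σ, q.1 < n ∧ q.2 < n) (h0 : ∃ π ∈ AutS G Rs, Extd π σ) (m : ℕ) (hm : m ≤ n) :
    ∃ τ : List (ℕ × ℕ), (List.range m).foldl (extStep t (adjMat G) Rs) σ = σ ++ τ ∧
      τ.map Prod.fst = List.range m ∧ (∀ q ∈ σ ++ τ, q.1 < n ∧ q.2 < n) ∧
      ∃ π ∈ AutS G Rs, Extd π (σ ++ τ) := by
  induction m with
  | zero => exact ⟨[], by simp, by simp, by simpa using hσ, by simpa using h0⟩
  | succ m ih =>
    obtain ⟨τ, h1, h2, h3, π, hπ, h4⟩ := ih (by omega)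
    have hb : ∀ y < n, ∀ q ∈ σ ++ τ ++ [(m, y)], q.1 < n ∧ q.2 < n := by
      intro y hy q hq
      rcases List.mem_append.1 hq with hq | hq
      · exact h3 q hq
      · rw [List.mem_singleton.1 hq]; exact ⟨by omega, hy⟩
    have hne : ((List.range (adjMat G).length).filter
        fun y => okB t (adjMat G) Rs (σ ++ τ ++ [(m, y)])) ≠ [] := by
      apply List.ne_nil_of_mem (a := ((π ⟨m, by omega⟩ : Fin n) : ℕ))
      rw [List.mem_filter, List.mem_range, length_adjMat]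
      refine ⟨Fin.is_lt _, (okB_iff ht G Rs (hb _ (Fin.is_lt _))).2 ⟨π, hπ, ?_⟩⟩
      intro q hq x hx
      rcases List.mem_append.1 hq with hq | hq
      · exact h4 q hq x hx
      · rw [List.mem_singleton.1 hq] at hx ⊢
        have : x = ⟨m, by omega⟩ := Fin.ext hx
        rw [this]
    have hy := Ext_headD hne
    rw [List.mem_filter, List.mem_range, length_adjMat] at hy
    refine ⟨τ ++ [(m, ((List.range (adjMat G).length).filter
        fun y => okB t (adjMat G) Rs (σ ++ τ ++ [(m, y)])).headD 0)], ?_, ?_, ?_, ?_⟩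
    · rw [List.range_succ, List.foldl_append, h1, ← List.append_assoc]
      rfl
    · rw [List.map_append, h2, List.range_succ]
      rfl
    · rw [← List.append_assoc, length_adjMat]
      exact hb _ hy.1
    · rw [← List.append_assoc, length_adjMat]
      exact (okB_iff ht G Rs (hb _ hy.1)).1 hy.2

theorem ext_spec (ht : Tests t) (G : SimpleGraph (Fin n)) (Rs : List Mat) {σ : List (ℕ × ℕ)}
    (hσ : ∀ q ∈ σ, q.1 < n ∧ q.2 < n) :
    ∃ π ∈ AutS G Rs, ext t (adjMat G) Rs σ = pl π ∧ ((∃ ρ ∈ AutS G Rs, Extd ρ σ) → Extd π σ) := by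
  by_cases hok : okB t (adjMat G) Rs σ = true
  · obtain ⟨τ, h1, h2, -, π, hπ, h4⟩ :=
      Ext_fold ht G Rs hσ ((okB_iff ht G Rs hσ).1 hok) n le_rfl
    refine ⟨π, hπ, ?_, fun _ q hq => h4 q (List.mem_append_left _ hq)⟩
    unfold ext
    rw [if_pos hok, length_adjMat, h1, List.drop_left]
    have hl : τ.length = n := by simpa using congrArg List.length h2
    apply List.ext_getElem
    · simp [pl, hl]
    · intro i hi1 hi2
      have hi : i < n := by simpa [pl] using hi2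
      have hi' : i < τ.length := by omega
      have e1 : τ[i].1 = i := by
        have := List.getElem_of_eq h2 (i := i) (by simpa using hi')
        simpa using this
      have e2 := h4 τ[i] (List.mem_append_right _ (List.getElem_mem hi')) ⟨i, hi⟩ e1.symm
      simp only [pl, List.getElem_map, List.getElem_ofFn]
      exact e2.symm
  · refine ⟨1, (AutS G Rs).one_mem, ?_, fun h => absurd ((okB_iff ht G Rs hσ).2 h) hok⟩
    unfold ext
    rw [if_neg hok, length_adjMat, pl_one]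

theorem Ext_lift (L : List PL) (h : ∀ x ∈ L, ∃ π : Perm (Fin n), x = pl π) :
    ∃ T : List (Perm (Fin n)), L = T.map pl ∧ ∀ π, π ∈ T ↔ pl π ∈ L := by
  have : ∃ T : List (Perm (Fin n)), L = T.map pl := by
    induction L with
    | nil => exact ⟨[], rfl⟩
    | cons a L ih =>
      obtain ⟨T, hT⟩ := ih fun x hx => h x (List.mem_cons_of_mem _ hx)
      obtain ⟨π, hπ⟩ := h a List.mem_cons_self
      exact ⟨π :: T, by rw [List.map_cons, ← hT, ← hπ]⟩
  obtain ⟨T, rfl⟩ := this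
  refine ⟨T, rfl, fun π => ⟨fun hπ => List.mem_map_of_mem hπ, fun hπ => ?_⟩⟩
  obtain ⟨ρ, hρ, e⟩ := List.mem_map.1 hπ
  rwa [← pl_inj e]

theorem Ext_diag {i j : ℕ} (hi : i < n) (hj : j < n) :
    ∀ q ∈ (List.range i).map (fun l => (l, l)) ++ [(i, j)], q.1 < n ∧ q.2 < n := by
  intro q hq
  rcases List.mem_append.1 hq with hq | hq
  · obtain ⟨l, hl, rfl⟩ := List.mem_map.1 hq
    have := List.mem_range.1 hl
    exact ⟨by simp only; omega, by simp only; omega⟩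
  · rw [List.mem_singleton.1 hq]; exact ⟨hi, hj⟩

theorem gens_spec (ht : Tests t) (G : SimpleGraph (Fin n)) (Rs : List Mat) :
    ∃ T : List (Perm (Fin n)), gens t (adjMat G) Rs = T.map pl ∧
      Subgroup.closure {x | x ∈ T} = AutS G Rs := by
  have hmem : ∀ x, x ∈ gens t (adjMat G) Rs ↔ ∃ i < n, ∃ j < n,
      ext t (adjMat G) Rs ((List.range i).map (fun l => (l, l)) ++ [(i, j)]) = x := by
    intro x
    simp only [gens, length_adjMat, List.mem_flatMap, List.mem_map, List.mem_range]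
  have hA : ∀ x ∈ gens t (adjMat G) Rs, ∃ π ∈ AutS G Rs, x = pl π := by
    intro x hx
    obtain ⟨i, hi, j, hj, rfl⟩ := (hmem x).1 hx
    obtain ⟨π, hπ, e, -⟩ := ext_spec ht G Rs (Ext_diag hi hj)
    exact ⟨π, hπ, e⟩
  obtain ⟨T, hT, hT'⟩ := Ext_lift (n := n) _ fun x hx =>
    let ⟨π, _, e⟩ := hA x hx; ⟨π, e⟩
  have hle : ∀ π ∈ T, π ∈ AutS G Rs := by
    intro π hπ
    obtain ⟨ρ, hρ, e⟩ := hA _ ((hT' π).1 hπ)
    rwa [pl_inj e]
  refine ⟨T, hT, le_antisymm ((Subgroup.closure_le _).2 hle) ?_⟩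
  have key : ∀ d i, i + d = n → ∀ g ∈ AutS G Rs, (∀ x : Fin n, (x : ℕ) < i → g x = x) →
      g ∈ Subgroup.closure {x | x ∈ T} := by
    intro d
    induction d with
    | zero =>
      intro i hi g _ hg
      have : g = 1 := Equiv.ext fun x => hg x (by have := x.is_lt; omega)
      rw [this]
      exact Subgroup.one_mem _
    | succ d ih =>
      intro i hi g hg hfix
      have hin : i < n := by omega
      have hj : ((g ⟨i, hin⟩ : Fin n) : ℕ) < n := Fin.is_lt _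
      obtain ⟨s, hs, e, hx⟩ := ext_spec ht G Rs (Ext_diag hin hj)
      have hsT : s ∈ T := (hT' s).2 ((hmem _).2 ⟨i, hin, _, hj, e⟩)
      have hx' := hx ⟨g, hg, fun q hq x hx => by
        rcases List.mem_append.1 hq with hq | hq
        · obtain ⟨l, hl, rfl⟩ := List.mem_map.1 hq
          have := List.mem_range.1 hl
          simp only at hx ⊢
          rw [hfix x (by omega), hx]
        · rw [List.mem_singleton.1 hq] at hx ⊢
          have : x = ⟨i, hin⟩ := Fin.ext hx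
          rw [this]⟩
      have hsg : ∀ x : Fin n, (x : ℕ) < i + 1 → s x = g x := by
        intro x hxi
        by_cases h1 : (x : ℕ) < i
        · rw [hfix x h1]
          exact Fin.ext (hx' (x, x) (List.mem_append_left _
            (List.mem_map.2 ⟨x, List.mem_range.2 h1, rfl⟩)) x rfl)
        · have h2 : x = ⟨i, hin⟩ := Fin.ext (by simp only; omega)
          rw [h2]
          exact Fin.ext (hx' _ (List.mem_append_right _ (List.mem_singleton.2 rfl)) _ rfl)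
      have h3 := ih (i + 1) (by omega) (s⁻¹ * g)
        ((AutS G Rs).mul_mem ((AutS G Rs).inv_mem hs) hg) fun x hxi => by
          rw [Perm.mul_apply, ← hsg x hxi]
          simp
      have h4 := Subgroup.mul_mem _ (Subgroup.subset_closure (k := {x | x ∈ T}) hsT) h3
      simpa using h4
  exact fun g hg => key n 0 (by omega) g hg fun x hx => absurd hx (by omega)

theorem swaps_spec (ht : Tests t) (G : SimpleGraph (Fin n)) (Rs : List Mat) :
    ∃ S : List (Perm (Fin n)), swaps t (adjMat G) Rs = S.map pl ∧ (∀ s ∈ S, s ∈ AutS G Rs) ∧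
      ∀ ρ ∈ AutS G Rs, ∀ a : Fin n × Fin n, ∃ s ∈ S, s • a = ρ • a ∧ s • ρ • a = ρ • ρ • a := by
  have hp : ∀ a : ℕ × ℕ, a ∈ prs n ↔ a.1 < n ∧ a.2 < n := by
    rintro ⟨u, v⟩
    simp only [prs, List.mem_flatMap, List.mem_map, List.mem_range, Prod.mk.injEq]
    constructor
    · rintro ⟨a, ha, b, hb, rfl, rfl⟩
      exact ⟨ha, hb⟩
    · rintro ⟨h1, h2⟩
      exact ⟨u, h1, v, h2, rfl, rfl⟩
  have hb : ∀ a b c : ℕ × ℕ, a ∈ prs n → b ∈ prs n → c ∈ prs n →
      ∀ q ∈ [(a.1, b.1), (a.2, b.2), (b.1, c.1), (b.2, c.2)], q.1 < n ∧ q.2 < n := by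
    intro a b c ha hb hc q hq
    rw [hp] at ha hb hc
    simp only [List.mem_cons, List.not_mem_nil, or_false] at hq
    rcases hq with rfl | rfl | rfl | rfl
    exacts [⟨ha.1, hb.1⟩, ⟨ha.2, hb.2⟩, ⟨hb.1, hc.1⟩, ⟨hb.2, hc.2⟩]
  have hmem : ∀ x, x ∈ swaps t (adjMat G) Rs ↔ ∃ a ∈ prs n, ∃ b ∈ prs n, ∃ c ∈ prs n,
      ext t (adjMat G) Rs [(a.1, b.1), (a.2, b.2), (b.1, c.1), (b.2, c.2)] = x := by
    intro x
    simp only [swaps, length_adjMat, List.mem_flatMap, List.mem_map]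
  have hA : ∀ x ∈ swaps t (adjMat G) Rs, ∃ π ∈ AutS G Rs, x = pl π := by
    intro x hx
    obtain ⟨a, ha, b, hb', c, hc, rfl⟩ := (hmem x).1 hx
    obtain ⟨π, hπ, e, -⟩ := ext_spec ht G Rs (hb a b c ha hb' hc)
    exact ⟨π, hπ, e⟩
  obtain ⟨T, hT, hT'⟩ := Ext_lift (n := n) _ fun x hx =>
    let ⟨π, _, e⟩ := hA x hx; ⟨π, e⟩
  refine ⟨T, hT, fun π hπ => ?_, fun ρ hρ a => ?_⟩
  · obtain ⟨ρ, hρ, e⟩ := hA _ ((hT' π).1 hπ)
    rwa [pl_inj e]
  · have ha : ((a.1 : ℕ), (a.2 : ℕ)) ∈ prs n := (hp _).2 ⟨Fin.is_lt _, Fin.is_lt _⟩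
    have hb' : ((ρ a.1 : ℕ), (ρ a.2 : ℕ)) ∈ prs n := (hp _).2 ⟨Fin.is_lt _, Fin.is_lt _⟩
    have hc : ((ρ (ρ a.1) : ℕ), (ρ (ρ a.2) : ℕ)) ∈ prs n := (hp _).2 ⟨Fin.is_lt _, Fin.is_lt _⟩
    obtain ⟨s, -, e, hx⟩ := ext_spec ht G Rs (hb _ _ _ ha hb' hc)
    have hx' := hx ⟨ρ, hρ, fun q hq x hx => by
      simp only [List.mem_cons, List.not_mem_nil, or_false] at hq
      rcases hq with rfl | rfl | rfl | rfl <;> rw [Fin.ext hx]⟩
    refine ⟨s, (hT' s).2 ((hmem _).2 ⟨_, ha, _, hb', _, hc, e⟩), ?_, ?_⟩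
    · exact Prod.ext (Fin.ext (hx' (a.1, ρ a.1) (by simp) a.1 rfl))
        (Fin.ext (hx' (a.2, ρ a.2) (by simp) a.2 rfl))
    · exact Prod.ext (Fin.ext (hx' (ρ a.1, ρ (ρ a.1)) (by simp) (ρ a.1) rfl))
        (Fin.ext (hx' (ρ a.2, ρ (ρ a.2)) (by simp) (ρ a.2) rfl))

end Pool.Agent.P.MP_9e61a4_lc
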