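import Pool.Agent.P.MP_9e61a4_lc.PLem

/-! Correctness of the sifting tables. -/

namespace Pool.Agent.P.MP_9e61a4_lc

open Equiv

variable {n : ℕ}

def fhl_lk (T : List (Perm (Fin n))) (i j : ℕ) : List (Perm (Fin n)) :=
  T.filter fun t => fixB i (pl t) && (pl t).getD i 0 == j

def fhl_sift (T : List (Perm (Fin n))) (g : Perm (Fin n)) (i : ℕ) : Perm (Fin n) :=
  if fixB i (pl g) && !(fhl_lk T i ((pl g).getD i 0)).isEmpty then
    ((fhl_lk T i ((pl g).getD i 0)).headD 1)⁻¹ * g else g

def fhl_res (T : List (Perm (Fin n))) (g : Perm (Fin n)) : Perm (Fin n) :=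
  (List.range n).foldl (fhl_sift T) g

def fhl_add (T : List (Perm (Fin n))) (g : Perm (Fin n)) : List (Perm (Fin n)) :=
  if fhl_res T g = 1 then T else (T ++ [fhl_res T g]).take (n * n + 1)

def fhl_cand (gs cs T : List (Perm (Fin n))) : List (Perm (Fin n)) :=
  gs ++ (T.flatMap fun a => T.map fun b => a * b) ++ (cs.flatMap fun c => T.map fun a => c * a * c⁻¹)

def fhl_round (gs cs T : List (Perm (Fin n))) : List (Perm (Fin n)) :=
  (fhl_cand gs cs T).foldl fhl_add T

theorem fhl_lk_pl (T : List (Perm (Fin n))) (i j : ℕ) :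
    lk (T.map pl) i j = (fhl_lk T i j).map pl := by
  rw [lk, fhl_lk, List.filter_map]
  rfl

theorem fhl_sift_pl (T : List (Perm (Fin n))) (g : Perm (Fin n)) (i : ℕ) :
    siftStep n (T.map pl) (pl g) i = pl (fhl_sift T g i) := by
  rw [siftStep, fhl_sift, fhl_lk_pl]
  cases fhl_lk T i ((pl g).getD i 0) with
  | nil => simp
  | cons u l =>
    simp only [List.map_cons, List.isEmpty_cons, Bool.not_false, Bool.and_true, List.headD_cons]
    split_ifs
    · rw [invL_pl, mulL_pl]
    · rfl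

theorem fhl_res_pl (T : List (Perm (Fin n))) (g : Perm (Fin n)) :
    res n (T.map pl) (pl g) = pl (fhl_res T g) := by
  have h : ∀ (L : List ℕ) (g : Perm (Fin n)),
      L.foldl (siftStep n (T.map pl)) (pl g) = pl (L.foldl (fhl_sift T) g) := by
    intro L
    induction L with
    | nil => intro g; rfl
    | cons i L ih => intro g; rw [List.foldl_cons, List.foldl_cons, fhl_sift_pl, ih]
  rw [res, h, fhl_res]
  conv_lhs => rw [← pl_one]
  rw [mulL_pl, one_mul, pl_one]

theorem fhl_add_pl (T : List (Perm (Fin n))) (g : Perm (Fin n)) :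
    addT n (T.map pl) (pl g) = (fhl_add T g).map pl := by
  rw [addT, fhl_add, fhl_res_pl]
  by_cases h : fhl_res T g = 1
  · rw [if_pos h, if_pos (by rw [h, pl_one])]
  · rw [if_neg h, if_neg (fun e => h (pl_inj (e.trans pl_one.symm))), List.map_take,
      List.map_append, List.map_singleton]

theorem fhl_round_pl (gs cs T : List (Perm (Fin n))) :
    roundT n (gs.map pl) (cs.map pl) (T.map pl) = (fhl_round gs cs T).map pl := by
  have h : ∀ (L T : List (Perm (Fin n))),
      (L.map pl).foldl (addT n) (T.map pl) = (L.foldl fhl_add T).map pl := by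
    intro L
    induction L with
    | nil => intro T; rfl
    | cons g L ih => intro T; rw [List.map_cons, List.foldl_cons, List.foldl_cons, fhl_add_pl, ih]
  rw [roundT, fhl_round, ← h, fhl_cand]
  simp only [List.map_append, List.flatMap_map, List.map_flatMap, List.map_map, Function.comp_def,
    mulL_pl, invL_pl]

theorem fhl_fix {i : ℕ} (hi : i ≤ n) (g : Perm (Fin n)) :
    fixB i (pl g) = true ↔ ∀ l : Fin n, l.val < i → g l = l := by
  simp only [fixB, List.all_eq_true, List.mem_range, beq_iff_eq]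
  constructor
  · intro h l hl
    exact Fin.ext (by rw [← getD_pl, h l hl])
  · intro h l hl
    have := getD_pl g ⟨l, hl.trans_le hi⟩
    rw [h _ hl] at this
    exact this

theorem fhl_mem {T : List (Perm (Fin n))} {i j : Fin n} {t : Perm (Fin n)} :
    t ∈ fhl_lk T i j ↔ t ∈ T ∧ (∀ l : Fin n, l.val < i → t l = l) ∧ t i = j := by
  rw [fhl_lk, List.mem_filter, Bool.and_eq_true, fhl_fix i.2.le, getD_pl, beq_iff_eq, Fin.val_inj]

theorem fhl_sift_mem {T : List (Perm (Fin n))} {E : Subgroup (Perm (Fin n))} (hT : ∀ x ∈ T, x ∈ E)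
    (g : Perm (Fin n)) (i : ℕ) : fhl_sift T g i ∈ E ↔ g ∈ E := by
  rw [fhl_sift]
  split_ifs
  · refine E.mul_mem_cancel_left (inv_mem ?_)
    cases h : fhl_lk T i ((pl g).getD i 0) with
    | nil => exact one_mem _
    | cons u l =>
      have : u ∈ fhl_lk T i ((pl g).getD i 0) := by rw [h]; exact List.mem_cons_self
      exact hT u (List.mem_filter.1 this).1
  · rfl

theorem fhl_res_mem {T : List (Perm (Fin n))} {E : Subgroup (Perm (Fin n))} (hT : ∀ x ∈ T, x ∈ E)
    (g : Perm (Fin n)) : fhl_res T g ∈ E ↔ g ∈ E := by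
  have h : ∀ (L : List ℕ) (g : Perm (Fin n)), L.foldl (fhl_sift T) g ∈ E ↔ g ∈ E := by
    intro L
    induction L with
    | nil => intro g; rfl
    | cons i L ih => intro g; rw [List.foldl_cons, ih, fhl_sift_mem hT]
  exact h _ g

theorem fhl_stuck {T : List (Perm (Fin n))} (h1 : 1 ∈ T) (g : Perm (Fin n)) :
    fhl_res T g = 1 ∨ ∃ i : Fin n, (∀ l : Fin n, l.val < i → fhl_res T g l = l) ∧
      fhl_lk T i (fhl_res T g i) = [] := by
  have h : ∀ m, m ≤ n → (∀ l : Fin n, l.val < m → (List.range m).foldl (fhl_sift T) g l = l) ∨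
      ∃ i : Fin n, i.val < m ∧ (∀ l : Fin n, l.val < i → (List.range m).foldl (fhl_sift T) g l = l) ∧
        fhl_lk T i ((List.range m).foldl (fhl_sift T) g i) = [] := by
    intro m
    induction m with
    | zero => exact fun _ => Or.inl fun l hl => absurd hl (Nat.not_lt_zero _)
    | succ m ih =>
      intro hm
      rw [List.range_succ, List.foldl_append, List.foldl_cons, List.foldl_nil]
      generalize (List.range m).foldl (fhl_sift T) g = r at ih ⊢
      have hv : (pl r).getD m 0 = r ⟨m, hm⟩ := getD_pl r ⟨m, hm⟩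
      rcases ih (by omega) with hf | ⟨i, hi, hf, he⟩
      · have hb := (fhl_fix (by omega) r).2 hf
        cases hl : fhl_lk T m (r ⟨m, hm⟩) with
        | nil =>
          have e : fhl_sift T r m = r := by rw [fhl_sift, hv, hl]; simp
          rw [e]
          exact Or.inr ⟨⟨m, hm⟩, Nat.lt_succ_self m, hf, hl⟩
        | cons u l =>
          have e : fhl_sift T r m = u⁻¹ * r := by rw [fhl_sift, hv, hl, hb]; simp
          have hu : u ∈ fhl_lk T (⟨m, hm⟩ : Fin n) (r ⟨m, hm⟩) := by
            rw [hl]; exact List.mem_cons_self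
          obtain ⟨-, hu1, hu2⟩ := fhl_mem.1 hu
          rw [e]
          refine Or.inl fun l hl => ?_
          rw [Perm.mul_apply, Perm.inv_eq_iff_eq]
          rcases Nat.lt_succ_iff_lt_or_eq.1 hl with h' | h'
          · rw [hf l h', hu1 l h']
          · obtain rfl : l = ⟨m, hm⟩ := Fin.ext h'
            exact hu2.symm
      · have hb : ¬ fixB m (pl r) = true := by
          rw [fhl_fix (by omega)]
          intro hh
          have : (1 : Perm (Fin n)) ∈ fhl_lk T i (r i) :=
            fhl_mem.2 ⟨h1, fun _ _ => rfl, (hh i hi).symm⟩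
          rw [he] at this
          exact List.not_mem_nil this
        have e : fhl_sift T r m = r := by rw [fhl_sift, if_neg (by simp [hb])]
        rw [e]
        exact Or.inr ⟨i, by omega, hf, he⟩
  rcases h n le_rfl with hf | ⟨i, -, hf, he⟩
  · exact Or.inl (Equiv.ext fun l => hf l l.2)
  · exact Or.inr ⟨i, hf, he⟩

def fhl_Inv (T : List (Perm (Fin n))) : Prop :=
  1 ∈ T ∧ ∃ K : List (Fin n × Fin n), K.Nodup ∧ T.length = K.length + 1 ∧
    ∀ k ∈ K, ∃ t, t ∈ fhl_lk T k.1 k.2

theorem fhl_len {T : List (Perm (Fin n))} (h : fhl_Inv T) : T.length ≤ n * n + 1 := by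
  obtain ⟨-, K, h1, h2, -⟩ := h
  have := h1.length_le_card
  rw [Fintype.card_prod, Fintype.card_fin] at this
  omega

theorem fhl_add_spec {T : List (Perm (Fin n))} (h : fhl_Inv T) (g : Perm (Fin n))
    (hg : fhl_res T g ≠ 1) : fhl_add T g = T ++ [fhl_res T g] ∧ fhl_Inv (T ++ [fhl_res T g]) := by
  have hI : fhl_Inv (T ++ [fhl_res T g]) := by
    obtain ⟨h1, K, h2, h3, h4⟩ := h
    obtain ⟨i, hf, he⟩ := (fhl_stuck h1 g).resolve_left hg
    refine ⟨List.mem_append_left _ h1, (i, fhl_res T g i) :: K, List.nodup_cons.2 ⟨fun hk => ?_, h2⟩,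
      by simp [h3], fun k hk => ?_⟩
    · obtain ⟨t, ht⟩ := h4 _ hk
      rw [he] at ht
      exact List.not_mem_nil ht
    · rcases List.mem_cons.1 hk with rfl | hk
      · exact ⟨_, fhl_mem.2 ⟨List.mem_append_right _ List.mem_cons_self, hf, rfl⟩⟩
      · obtain ⟨t, ht⟩ := h4 _ hk
        rw [fhl_mem] at ht
        exact ⟨t, fhl_mem.2 ⟨List.mem_append_left _ ht.1, ht.2⟩⟩
  exact ⟨by rw [fhl_add, if_neg hg, List.take_of_length_le (fhl_len hI)], hI⟩

theorem fhl_fold (L : List (Perm (Fin n))) : ∀ T : List (Perm (Fin n)), fhl_Inv T →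
    fhl_Inv (L.foldl fhl_add T) ∧
      (∀ E : Subgroup (Perm (Fin n)), (∀ x ∈ T, x ∈ E) → (∀ x ∈ L, x ∈ E) →
        ∀ x ∈ L.foldl fhl_add T, x ∈ E) ∧
      (T.length < (L.foldl fhl_add T).length ∨
        (L.foldl fhl_add T = T ∧ ∀ g ∈ L, fhl_res T g = 1)) := by
  induction L with
  | nil => exact fun T h => ⟨h, fun _ h1 _ => h1, Or.inr ⟨rfl, fun _ hg => absurd hg List.not_mem_nil⟩⟩
  | cons g L ih =>
    intro T h
    rw [List.foldl_cons]
    by_cases hg : fhl_res T g = 1
    · rw [show fhl_add T g = T from if_pos hg]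
      obtain ⟨a, b, c⟩ := ih T h
      refine ⟨a, fun E h1 h2 => b E h1 fun x hx => h2 x (List.mem_cons_of_mem _ hx),
        c.imp_right fun c => ⟨c.1, fun x hx => ?_⟩⟩
      rcases List.mem_cons.1 hx with rfl | hx
      · exact hg
      · exact c.2 x hx
    · obtain ⟨e, hI⟩ := fhl_add_spec h g hg
      rw [e]
      obtain ⟨a, b, c⟩ := ih _ hI
      refine ⟨a, fun E h1 h2 => b E (fun x hx => ?_) fun x hx => h2 x (List.mem_cons_of_mem _ hx),
        Or.inl ?_⟩
      · rcases List.mem_append.1 hx with hx | hx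
        · exact h1 x hx
        · rw [List.mem_singleton.1 hx]
          exact (fhl_res_mem h1 g).2 (h2 g List.mem_cons_self)
      · rcases c with c | c
        · rw [List.length_append] at c
          omega
        · rw [c.1, List.length_append, List.length_singleton]
          omega

theorem closeT_spec (gs cs : List (Perm (Fin n))) :
    ∃ T : List (Perm (Fin n)), closeT n (gs.map pl) (cs.map pl) = T.map pl ∧
      (∀ E : Subgroup (Perm (Fin n)), (∀ g ∈ gs, g ∈ E) → (∀ c ∈ cs, ∀ x ∈ E, c * x * c⁻¹ ∈ E) →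
        ∀ x ∈ T, x ∈ E) ∧
      (∀ g ∈ gs, g ∈ Subgroup.closure {x | x ∈ T}) ∧
      ∀ c ∈ cs, ∀ x ∈ T, c * x * c⁻¹ ∈ Subgroup.closure {x | x ∈ T} := by
  have key : ∀ k, ∃ T : List (Perm (Fin n)),
      (roundT n (gs.map pl) (cs.map pl))^[k] [List.range n] = T.map pl ∧ fhl_Inv T ∧
      (∀ E : Subgroup (Perm (Fin n)), (∀ g ∈ gs, g ∈ E) → (∀ c ∈ cs, ∀ x ∈ E, c * x * c⁻¹ ∈ E) →
        ∀ x ∈ T, x ∈ E) ∧
      (k < T.length ∨ (fhl_round gs cs T = T ∧ ∀ g ∈ fhl_cand gs cs T, fhl_res T g = 1)) := by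
    intro k
    induction k with
    | zero =>
      refine ⟨[1], by simp [pl_one], ⟨List.mem_cons_self, [], List.nodup_nil, rfl, by simp⟩,
        fun E _ _ x hx => ?_, Or.inl Nat.one_pos⟩
      rw [List.mem_singleton.1 hx]
      exact one_mem _
    | succ k ih =>
      obtain ⟨T, h1, h2, h3, h4⟩ := ih
      obtain ⟨a, b, c⟩ := fhl_fold (fhl_cand gs cs T) T h2
      refine ⟨fhl_round gs cs T, by rw [Function.iterate_succ_apply', h1, fhl_round_pl], a,
        fun E e1 e2 => b E (h3 E e1 e2) fun x hx => ?_, ?_⟩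
      · simp only [fhl_cand, List.mem_append, List.mem_flatMap, List.mem_map] at hx
        rcases hx with (hx | ⟨u, hu, v, hv, rfl⟩) | ⟨u, hu, v, hv, rfl⟩
        · exact e1 x hx
        · exact mul_mem (h3 E e1 e2 u hu) (h3 E e1 e2 v hv)
        · exact e2 u hu v (h3 E e1 e2 v hv)
      · have fixed : (fhl_round gs cs T = T ∧ ∀ g ∈ fhl_cand gs cs T, fhl_res T g = 1) →
            fhl_round gs cs (fhl_round gs cs T) = fhl_round gs cs T ∧
              ∀ g ∈ fhl_cand gs cs (fhl_round gs cs T), fhl_res (fhl_round gs cs T) g = 1 :=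
          fun h => by rw [h.1]; exact h
        rcases h4 with h4 | h4
        · rcases c with c | c
          · exact Or.inl (lt_of_le_of_lt h4 c)
          · exact Or.inr (fixed c)
        · exact Or.inr (fixed h4)
  obtain ⟨T, h1, h2, h3, h4⟩ := key (n * n + 1)
  have h5 := (h4.resolve_left (not_lt.2 (fhl_len h2))).2
  have h6 : ∀ g ∈ fhl_cand gs cs T, g ∈ Subgroup.closure {x | x ∈ T} := fun g hg =>
    (fhl_res_mem (fun x hx => Subgroup.subset_closure hx) g).1 (by rw [h5 g hg]; exact one_mem _)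
  refine ⟨T, h1, h3, fun g hg => h6 g ?_, fun c hc x hx => h6 _ ?_⟩
  · exact List.mem_append_left _ (List.mem_append_left _ hg)
  · exact List.mem_append_right _ (List.mem_flatMap.2 ⟨c, hc, List.mem_map.2 ⟨x, hx, rfl⟩⟩)

end Pool.Agent.P.MP_9e61a4_lc
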