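import Pool.Agent.P.MP_9e61a4_lc.Sem

/-! Rigidity of the gadget graph. -/

namespace Pool.Agent.P.MP_9e61a4_lc

open Equiv

variable {n j k : ℕ}

theorem GadA_o (G : SimpleGraph (Fin n)) (Rs : List Mat) (ms : List ℕ) (x : Vx n j k) :
    (GW G j k Rs ms).Adj Vx.o x ↔ x = Vx.s := by
  cases x <;> simp [GW, Half]

theorem GadA_s (G : SimpleGraph (Fin n)) (Rs : List Mat) (ms : List ℕ) (x : Vx n j k) :
    (GW G j k Rs ms).Adj x Vx.s ↔ x = Vx.o ∨ ∃ i, x = Vx.q i := by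
  cases x <;> simp [GW, Half]

theorem GadA_q {G : SimpleGraph (Fin n)} {Rs : List Mat} {ms : List ℕ} {x : Vx n j k}
    {i : Fin (j + k + 5)} (h : (GW G j k Rs ms).Adj x (Vx.q i)) :
    x = Vx.s ∨ (∃ i', x = Vx.q i' ∧ ((i : ℕ) = i' + 1 ∨ (i' : ℕ) = i + 1)) ∨
      (x = Vx.e ∧ j + k + 3 ≤ (i : ℕ)) ∨
      (∃ u, x = Vx.v u ∧ ((i : ℕ) = 1 ∨ j + 3 ≤ (i : ℕ) ∧ (i : ℕ) < j + 3 + k)) ∨
      (∃ u, x = Vx.w u ∧ (i : ℕ) = 2) ∨ ∃ r a, x = Vx.p r a ∧ (i : ℕ) = r + 3 := by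
  cases x with
  | v u =>
    rcases h with (h | h) | h
    · exact Or.inr (Or.inr (Or.inr (Or.inl ⟨u, rfl, Or.inl h⟩)))
    · exact Or.inr (Or.inr (Or.inr (Or.inl ⟨u, rfl, Or.inr ⟨h.1, h.2.1⟩⟩)))
    · exact h.elim
  | w u => exact Or.inr (Or.inr (Or.inr (Or.inr (Or.inl ⟨u, rfl, h.resolve_right id⟩))))
  | p r a => exact Or.inr (Or.inr (Or.inr (Or.inr (Or.inr ⟨r, a, rfl, h.resolve_right id⟩))))
  | q i' => exact Or.inr (Or.inl ⟨i', rfl, h⟩)
  | s => exact Or.inl rfl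
  | o => exact (h.elim id id).elim
  | e => exact Or.inr (Or.inr (Or.inl ⟨rfl, h.resolve_left id⟩))

theorem GadA_one {G : SimpleGraph (Fin n)} {Rs : List Mat} {ms : List ℕ} {x y : Vx n j k}
    (h : ∀ z, (GW G j k Rs ms).Adj x z → z = y) : x = Vx.o := by
  cases x with
  | v u =>
    have h1 := h (Vx.w u) (Or.inl rfl)
    have h2 := h (Vx.q ⟨1, by omega⟩) (Or.inl (Or.inl rfl))
    cases h1.trans h2.symm
  | w u =>
    have h1 := h (Vx.v u) (Or.inr rfl)
    have h2 := h (Vx.q ⟨2, by omega⟩) (Or.inl rfl)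
    cases h1.trans h2.symm
  | p r a =>
    have h1 := h (Vx.v a.1) (Or.inr rfl)
    have h2 := h (Vx.w a.2) (Or.inr rfl)
    cases h1.trans h2.symm
  | q i =>
    have h1 := h Vx.s (Or.inl trivial)
    by_cases hi : (i : ℕ) + 1 < j + k + 5
    · have h2 := h (Vx.q ⟨i + 1, hi⟩) (Or.inl rfl)
      cases h1.trans h2.symm
    · have h2 := h Vx.e (Or.inl (show j + k + 3 ≤ (i : ℕ) by omega))
      cases h1.trans h2.symm
  | s =>
    have h1 := h Vx.o (Or.inl trivial)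
    have h2 := h (Vx.q ⟨0, by omega⟩) (Or.inr trivial)
    cases h1.trans h2.symm
  | o => rfl
  | e =>
    have h1 := h (Vx.q ⟨j + k + 3, by omega⟩) (Or.inr (le_refl (j + k + 3)))
    have h2 := h (Vx.q ⟨j + k + 4, by omega⟩) (Or.inr (Nat.le_succ (j + k + 3)))
    have h3 := h1.trans h2.symm
    simp at h3

theorem GadA_q0 (G : SimpleGraph (Fin n)) (Rs : List Mat) (ms : List ℕ) (z : Vx n j k)
    (h : (GW G j k Rs ms).Adj (Vx.q ⟨0, by omega⟩) z) : z = Vx.s ∨ z = Vx.q ⟨1, by omega⟩ := by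
  rcases GadA_q h.symm with e | ⟨i, e', e⟩ | ⟨-, e⟩ | ⟨_, -, e⟩ | ⟨_, -, e⟩ | ⟨_, _, -, e⟩
  · exact Or.inl e
  · refine Or.inr (e'.trans (congrArg Vx.q (Fin.ext ?_)))
    simp only at e ⊢
    omega
  all_goals (simp only at e; omega)

theorem GadA_two {G : SimpleGraph (Fin n)} {Rs : List Mat} {ms : List ℕ} {x r : Vx n j k}
    (h1 : (GW G j k Rs ms).Adj x Vx.s) (h2 : (GW G j k Rs ms).Adj x r) (h3 : r ≠ Vx.s)
    (h : ∀ z, (GW G j k Rs ms).Adj x z → z = Vx.s ∨ z = r) :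
    x = Vx.q ⟨0, by omega⟩ ∧ r = Vx.q ⟨1, by omega⟩ := by
  rcases (GadA_s G Rs ms x).1 h1 with rfl | ⟨i, rfl⟩
  · exact absurd ((GadA_o G Rs ms r).1 h2) h3
  have hi : (i : ℕ) = 0 := by
    by_contra h0
    have a1 := (h (Vx.q ⟨i - 1, by omega⟩) (Or.inr (show (i : ℕ) = i - 1 + 1 by omega))).resolve_left
      (by simp)
    by_cases hi : (i : ℕ) + 1 < j + k + 5
    · have a2 := (h (Vx.q ⟨i + 1, hi⟩) (Or.inl rfl)).resolve_left (by simp)
      have a3 := a1.trans a2.symm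
      simp only [Vx.q.injEq, Fin.mk.injEq] at a3
      omega
    · have a2 := (h Vx.e (Or.inl (show j + k + 3 ≤ (i : ℕ) by omega))).resolve_left (by simp)
      cases a1.trans a2.symm
  obtain rfl : i = ⟨0, Nat.succ_pos _⟩ := Fin.ext hi
  exact ⟨rfl, (GadA_q0 G Rs ms r h2).resolve_left h3⟩

theorem GadA_symm (R : Mat) (a b : Fin n × Fin n) : srel R a b ↔ srel R b a := by
  simp only [srel, srelB, Bool.or_eq_true, beq_iff_eq]
  constructor <;> rintro ((h | h) | h) <;> simp [h]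

theorem GadA_refl (R : Mat) (a : Fin n × Fin n) : srel R a a := by
  simp [srel, srelB]

theorem GadA_pp (G : SimpleGraph (Fin n)) (Rs : List Mat) (ms : List ℕ) (r : Fin j)
    (a b : Fin n × Fin n) : (GW G j k Rs ms).Adj (Vx.p r a) (Vx.p r b) ↔
      a ≠ b ∧ srel (Rs.getD r []) a b :=
  ⟨fun h => h.elim (fun h => h.2) fun h => ⟨h.2.1.symm, (GadA_symm _ _ _).1 h.2.2⟩,
    fun h => Or.inl ⟨rfl, h⟩⟩

theorem isV_GW (G : SimpleGraph (Fin n)) (Rs : List Mat) (ms : List ℕ) (x : Vx n j k) :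
    IsV (GW G j k Rs ms) x ↔ ∃ u, x = Vx.v u := by
  constructor
  · rintro ⟨a, b, c, d, h1, h2, h3, h4, h5, h6, h7, h8, h9⟩
    obtain rfl := GadA_one h2
    obtain rfl := (GadA_o G Rs ms b).1 h1
    obtain ⟨-, rfl⟩ := GadA_two h3 h4 h5 h6
    rcases GadA_q h7 with h | ⟨i, rfl, -⟩ | ⟨-, h⟩ | ⟨u, h, -⟩ | ⟨_, -, h⟩ | ⟨_, _, -, h⟩
    · exact absurd h h9
    · exact absurd (Or.inl trivial) h8
    · simp only at h; omega
    · exact ⟨u, h⟩
    all_goals (simp only at h; omega)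
  · rintro ⟨u, rfl⟩
    exact ⟨Vx.o, Vx.s, Vx.q ⟨0, by omega⟩, Vx.q ⟨1, by omega⟩, Or.inr trivial,
      fun z => (GadA_o G Rs ms z).1, Or.inl trivial, Or.inl rfl, by simp, GadA_q0 G Rs ms,
      Or.inl (Or.inl rfl), fun h => h.elim id id, by simp⟩

theorem adj_v (G : SimpleGraph (Fin n)) (Rs : List Mat) (ms : List ℕ) (u v : Fin n) :
    (GW G j k Rs ms).Adj (Vx.v u) (Vx.v v) ↔ G.Adj u v := by
  exact ⟨fun h => h.elim id fun h => G.adj_symm h, Or.inl⟩

/-- The isomorphisms between two gadget graphs are the lifts of the isomorphisms of the decorated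
graphs that respect the marks. -/
theorem iso_GW (G₁ G₂ : SimpleGraph (Fin n)) {Rs₁ Rs₂ : List Mat} (ms₁ ms₂ : List ℕ)
    (h₁ : Rs₁.length = j) (h₂ : Rs₂.length = j) (φ : Perm (Vx n j k)) :
    (∀ x y, (GW G₂ j k Rs₂ ms₂).Adj (φ x) (φ y) ↔ (GW G₁ j k Rs₁ ms₁).Adj x y) ↔
      ∃ π, φ = liftV j k π ∧ Maps G₁ Rs₁ G₂ Rs₂ π ∧
        ∀ i < k, ∀ u : Fin n, ms₂.getD i 0 = π u ↔ ms₁.getD i 0 = u := by
  constructor
  · intro h
    have fo : φ Vx.o = Vx.o := GadA_one (y := φ Vx.s) fun z hz => by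
      obtain ⟨z, rfl⟩ := φ.surjective z
      rw [(GadA_o G₁ Rs₁ ms₁ z).1 ((h _ _).1 hz)]
    have fs : φ Vx.s = Vx.s :=
      (GadA_o G₂ Rs₂ ms₂ _).1 (fo ▸ (h Vx.o Vx.s).2 (Or.inr trivial))
    have as : ∀ i, (GW G₂ j k Rs₂ ms₂).Adj (φ (Vx.q i)) Vx.s := fun i =>
      fs ▸ (h (Vx.q i) Vx.s).2 (Or.inl trivial)
    have fix : ∀ {x y}, φ y = y → φ x = y → x = y := fun hy hx => φ.injective (hx.trans hy.symm)
    obtain ⟨f0, f1⟩ := GadA_two (r := φ (Vx.q ⟨1, by omega⟩)) (as ⟨0, by omega⟩)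
      ((h _ _).2 (Or.inl rfl)) (fun e => by cases fix fs e) fun z hz => by
        obtain ⟨z, rfl⟩ := φ.surjective z
        rcases GadA_q0 G₁ Rs₁ ms₁ z ((h _ _).1 hz) with rfl | rfl
        · exact Or.inl fs
        · exact Or.inr rfl
    have fq' : ∀ m, ∀ i : Fin (j + k + 5), (i : ℕ) = m → φ (Vx.q i) = Vx.q i := by
      intro m
      induction m using Nat.strong_induction_on with
      | _ m ih =>
        intro i hi
        by_cases h0 : m = 0
        · obtain rfl : i = ⟨0, Nat.succ_pos _⟩ := Fin.ext (hi.trans h0)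
          exact f0
        have a1 := ih (m - 1) (by omega) ⟨m - 1, by omega⟩ rfl
        have a2 := (h (Vx.q i) (Vx.q ⟨m - 1, by omega⟩)).2
          (Or.inr (show (i : ℕ) = m - 1 + 1 by omega))
        rw [a1] at a2
        rcases (GadA_s G₂ Rs₂ ms₂ _).1 (as i) with e | ⟨i', e⟩
        · cases fix fo e
        rw [e] at a2
        rcases a2 with a2 | a2
        · have a3 : m - 1 = (i' : ℕ) + 1 := a2
          have a4 := fix (ih i' (by omega) i' rfl) e
          rw [e, a4]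
        · have a3 : (i' : ℕ) = m - 1 + 1 := a2
          rw [e]
          exact congrArg Vx.q (Fin.ext (by omega))
    have fq : ∀ i, φ (Vx.q i) = Vx.q i := fun i => fq' _ i rfl
    have aq : ∀ x i, (GW G₁ j k Rs₁ ms₁).Adj x (Vx.q i) →
        (GW G₂ j k Rs₂ ms₂).Adj (φ x) (Vx.q i) := fun x i hx => fq i ▸ (h x (Vx.q i)).2 hx
    have fe : φ Vx.e = Vx.e := by
      rcases GadA_q (aq Vx.e ⟨j + k + 4, by omega⟩ (Or.inr (Nat.le_succ (j + k + 3)))) with
        e | ⟨i, e, -⟩ | ⟨e, -⟩ | ⟨_, -, e⟩ | ⟨_, -, e⟩ | ⟨r, _, -, e⟩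
      · cases fix fs e
      · cases fix (fq i) e
      · exact e
      · simp only at e; omega
      · simp only at e; omega
      · have := r.2
        simp only at e; omega
    have fv : ∀ u, ∃ u', φ (Vx.v u) = Vx.v u' := fun u => by
      rcases GadA_q (aq (Vx.v u) ⟨1, by omega⟩ (Or.inl (Or.inl rfl))) with
        e | ⟨i, e, -⟩ | ⟨e, -⟩ | ⟨u', e, -⟩ | ⟨_, -, e⟩ | ⟨_, _, -, e⟩
      · cases fix fs e
      · cases fix (fq i) e
      · cases fix fe e
      · exact ⟨u', e⟩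
      all_goals (simp only at e; omega)
    choose f hf using fv
    have inj : Function.Injective f := fun a b e =>
      Vx.v.inj (φ.injective ((hf a).trans ((congrArg Vx.v e).trans (hf b).symm)))
    obtain ⟨π, hπ⟩ : ∃ π : Perm (Fin n), ∀ u, φ (Vx.v u) = Vx.v (π u) :=
      ⟨Equiv.ofBijective f (Finite.injective_iff_bijective.1 inj), hf⟩
    have fw : ∀ u, φ (Vx.w u) = Vx.w (π u) := fun u => by
      have a := (h (Vx.v u) (Vx.w u)).2 (Or.inl rfl)
      rcases GadA_q (aq (Vx.w u) ⟨2, by omega⟩ (Or.inl rfl)) with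
        e | ⟨i, e, -⟩ | ⟨e, -⟩ | ⟨_, -, e⟩ | ⟨u', e, -⟩ | ⟨_, _, -, e⟩
      · cases fix fs e
      · cases fix (fq i) e
      · cases fix fe e
      · simp only at e; omega
      · rw [hπ, e] at a
        rw [e]
        exact congrArg Vx.w (a.resolve_right id).symm
      · simp only at e; omega
    have fp : ∀ r a, φ (Vx.p r a) = Vx.p r (π • a) := fun r a => by
      have a1 := (h (Vx.v a.1) (Vx.p r a)).2 (Or.inl rfl)
      have a2 := (h (Vx.w a.2) (Vx.p r a)).2 (Or.inl rfl)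
      have hr := r.2
      rcases GadA_q (aq (Vx.p r a) ⟨r + 3, by omega⟩ (Or.inl rfl)) with
        e | ⟨i, e, -⟩ | ⟨e, -⟩ | ⟨_, -, e⟩ | ⟨_, -, e⟩ | ⟨r', b, e, e'⟩
      · cases fix fs e
      · cases fix (fq i) e
      · cases fix fe e
      · simp only at e; omega
      · simp only at e; omega
      · rw [hπ, e] at a1
        rw [fw, e] at a2
        obtain rfl : r = r' := Fin.ext (by simp only at e'; omega)
        rw [e]
        exact congrArg (Vx.p r) (Prod.ext (a1.resolve_right id).symm (a2.resolve_right id).symm)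
    refine ⟨π, Equiv.ext fun x => ?_, ⟨fun u v => ?_, h₁.trans h₂.symm, fun r hr a b => ?_⟩,
      fun i hi u => ?_⟩
    · cases x
      exacts [hπ _, fw _, fp _ _, fq _, fs, fo, fe]
    · have := h (Vx.v u) (Vx.v v)
      rwa [hπ, hπ, adj_v, adj_v] at this
    · by_cases e : a = b
      · subst e
        exact iff_of_true (GadA_refl _ _) (GadA_refl _ _)
      · have := h (Vx.p ⟨r, h₁ ▸ hr⟩ a) (Vx.p ⟨r, h₁ ▸ hr⟩ b)
        rw [fp, fp, GadA_pp, GadA_pp] at this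
        simpa only [ne_eq, smul_left_cancel_iff, e, not_false_eq_true, true_and] using this
    · have := h (Vx.v u) (Vx.q ⟨j + 3 + i, by omega⟩)
      rw [hπ, fq] at this
      have e1 : j + 3 + i ≠ 1 := by omega
      simpa only [GW, Half, or_false, e1, false_or, Nat.le_add_right, true_and,
        Nat.add_lt_add_iff_left, hi, Nat.add_sub_cancel_left] using this
  · rintro ⟨π, rfl, hM, hm⟩
    have key : ∀ x y, Half G₂ j k Rs₂ ms₂ (liftF j k π x) (liftF j k π y) ↔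
        Half G₁ j k Rs₁ ms₁ x y := by
      intro x y
      cases x <;> cases y <;> simp only [Half, liftF]
      case v.v u u' => exact hM.1 u u'
      case v.w u u' => exact π.apply_eq_iff_eq
      case v.p u r a => exact π.apply_eq_iff_eq
      case w.p u r a => exact π.apply_eq_iff_eq
      case p.p r a r' b =>
        rw [hM.2.2 r (h₁ ▸ r.2), ne_eq, smul_left_cancel_iff]
      case v.q u i =>
        exact or_congr_right (and_congr_right fun a => and_congr_right fun b =>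
          hm _ (by omega) u)
    exact fun x y => or_congr (key x y) (key y x)

theorem liftV_injective : Function.Injective (liftV j k : Perm (Fin n) → Perm (Vx n j k)) := by
  intro π ρ h
  ext u
  have e : Vx.v (π u) = Vx.v (ρ u) := congrArg (fun f : Perm (Vx n j k) => f (Vx.v u)) h
  rw [Vx.v.inj e]

end Pool.Agent.P.MP_9e61a4_lc
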