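import Pool.Agent.P.MP_9e61a4_lc.Sem

/-! Wielandt closure and the growth of `p`-subgroups. -/

namespace Pool.Agent.P.MP_9e61a4_lc

open Equiv

variable {V : Type} [Finite V] {p : ℕ} [Fact p.Prime]

omit [Finite V] in
theorem GrpA_key {q : ℕ} (hq : p.Coprime q) {g : Perm V} (hg : g ^ q = 1) (v : V) (n : ℕ) :
    ∀ (G : Type) [Group G] [Finite G] [MulAction G V], Nat.card G = n → IsPGroup p G →
      (∀ a b : G, ∃ l : G, l • a • v = g (a • v) ∧ l • b • v = g (b • v)) → g v = v := by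
  induction n using Nat.strong_induction_on with
  | _ n ih =>
  intro G _ _ _ hn hG h
  rcases eq_top_or_exists_le_coatom (MulAction.stabilizer G v) with hS | ⟨M, hM, hSM⟩
  · obtain ⟨l, hl, -⟩ := h 1 1
    rw [one_smul] at hl
    have : l ∈ MulAction.stabilizer G v := hS ▸ Subgroup.mem_top l
    rw [← hl]
    exact this
  · have := hG.isNilpotent
    have hN : M.Normal :=
      Subgroup.NormalizerCondition.normal_of_coatom M Group.normalizerCondition_of_isNilpotent hM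
    have key : ∀ a l l' : G, l • a • v = l' • a • v → (l : G ⧸ M) = (l' : G ⧸ M) := by
      intro a l l' e
      have h1 : a⁻¹ * (l⁻¹ * l') * a ∈ MulAction.stabilizer G v := by
        rw [MulAction.mem_stabilizer_iff, mul_smul, mul_smul, mul_smul, ← e, inv_smul_smul,
          inv_smul_smul]
      have h2 := hN.conj_mem _ (hSM h1) a
      refine QuotientGroup.eq.2 ?_
      simpa [mul_assoc] using h2
    obtain ⟨l0, hl0, -⟩ := h 1 1
    have k1 : ∀ a l : G, l • a • v = g (a • v) → (l : G ⧸ M) = (l0 : G ⧸ M) := by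
      intro a l e
      obtain ⟨l', e1, e2⟩ := h 1 a
      exact (key a l l' (e.trans e2.symm)).trans (key 1 l' l0 (e1.trans hl0.symm))
    have k2 : ∀ i : ℕ, ∃ l : G, l • v = (g ^ i) v ∧ (l : G ⧸ M) = (l0 : G ⧸ M) ^ i := by
      intro i
      induction i with
      | zero => exact ⟨1, by simp, by simp⟩
      | succ i ih =>
        obtain ⟨a, e1, e2⟩ := ih
        obtain ⟨l, e3, -⟩ := h a a
        refine ⟨l * a, ?_, ?_⟩
        · rw [mul_smul, e3, e1, pow_succ', Perm.mul_apply]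
        · rw [QuotientGroup.mk_mul, e2, k1 a l e3, pow_succ']
    have k3 : (l0 : G ⧸ M) = 1 := by
      obtain ⟨l, e1, e2⟩ := k2 q
      rw [hg, Perm.one_apply] at e1
      have h1 : (l : G ⧸ M) = 1 := (QuotientGroup.eq_one_iff l).2 (hSM e1)
      apply ((hG.to_quotient M).powEquiv hq).injective
      rw [IsPGroup.powEquiv_apply, IsPGroup.powEquiv_apply, ← e2, h1, one_pow]
    have hlt : Nat.card M < n := by
      rw [← hn]
      exact lt_of_le_of_ne M.card_le_card_group fun e => hM.1 (M.eq_top_of_card_eq e)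
    refine ih _ hlt M rfl (hG.to_subgroup M) fun a b => ?_
    obtain ⟨l, e1, e2⟩ := h a b
    exact ⟨⟨l, (QuotientGroup.eq_one_iff l).1 ((k1 a l e1).trans k3)⟩, e1, e2⟩

/-- The closure of a `p`-group on pairs is a `p`-group. -/
theorem wielandt (H L : Subgroup (Perm V)) (hL : IsPGroup p L) : IsPGroup p (clo H L) := by
  intro g
  have hp : p.Prime := Fact.out
  obtain ⟨a, q, hq, e⟩ := Nat.exists_eq_pow_mul_and_not_dvd (orderOf_pos g).ne' p hp.ne_one
  refine ⟨a, Subtype.ext (Equiv.ext fun v => ?_)⟩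
  have h1 : (g ^ p ^ a) ^ q = 1 := by rw [← pow_mul, ← e, pow_orderOf_eq_one]
  refine GrpA_key (hp.coprime_iff_not_dvd.2 hq) (g := (g ^ p ^ a).1) (congrArg Subtype.val h1) v
    _ L rfl hL fun x y => ?_
  obtain ⟨l, hl, e1⟩ := (g ^ p ^ a).2.2 (x • v, y • v)
  exact ⟨⟨l, hl⟩, congrArg Prod.fst e1, congrArg Prod.snd e1⟩

omit [Finite V] [Fact p.Prime] in
theorem orb_clo {H L : Subgroup (Perm V)} (h : L ≤ H) (a b : V × V) :
    Orb (clo H L) a b ↔ Orb L a b := by
  constructor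
  · rintro ⟨l, hl, rfl⟩
    exact hl.2 a
  · rintro ⟨l, hl, rfl⟩
    exact ⟨l, ⟨h hl, fun c => ⟨l, hl, rfl⟩⟩, rfl⟩

omit [Finite V] in
theorem GrpA_refl (L : Subgroup (Perm V)) (a : V × V) : Orb L a a := ⟨1, L.one_mem, one_smul _ _⟩

omit [Finite V] in
theorem GrpA_symm {L : Subgroup (Perm V)} {a b : V × V} (h : Orb L a b) : Orb L b a := by
  obtain ⟨l, hl, rfl⟩ := h
  exact ⟨l⁻¹, L.inv_mem hl, inv_smul_smul _ _⟩

omit [Finite V] in
theorem GrpA_trans {L : Subgroup (Perm V)} {a b c : V × V} (h : Orb L a b) (h' : Orb L b c) :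
    Orb L a c := by
  obtain ⟨l, hl, rfl⟩ := h
  obtain ⟨l', hl', rfl⟩ := h'
  exact ⟨l' * l, L.mul_mem hl' hl, mul_smul _ _ _⟩

omit [Finite V] in
theorem GrpA_pow {L : Subgroup (Perm V)} {g : Perm V} (hp : Pres L g) (i : ℕ) :
    Pres L (g ^ i) := by
  induction i with
  | zero => intro a b; simp
  | succ i ih =>
    intro a b
    rw [pow_succ', mul_smul, mul_smul]
    exact (hp _ _).trans (ih a b)

omit [Finite V] in
theorem GrpA_norm {H L : Subgroup (Perm V)} {g : Perm V} (hg : g ∈ H) (hp : Pres L g) :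
    g ∈ Subgroup.normalizer (clo H L : Set (Perm V)) := by
  refine Subgroup.mem_normalizer_iff.2 fun x => ⟨fun hx => ⟨?_, fun a => ?_⟩, fun hx => ⟨?_, fun a => ?_⟩⟩
  · exact H.mul_mem (H.mul_mem hg hx.1) (H.inv_mem hg)
  · have := (hp _ _).2 (hx.2 (g⁻¹ • a))
    rwa [smul_inv_smul, ← mul_smul, ← mul_smul] at this
  · have := H.mul_mem (H.mul_mem (H.inv_mem hg) hx.1) hg
    simpa [mul_assoc] using this
  · have := hx.2 (g • a)
    rw [mul_smul, inv_smul_smul, mul_smul] at this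
    exact (hp _ _).1 this

theorem grow_step {H L : Subgroup (Perm V)} (h : L ≤ H) (hL : IsPGroup p L) {g : Perm V}
    (hg : g ∈ H) (hp : Pres L g) (hk : ∃ k, g ^ p ^ k = 1) :
    ∃ L' ≤ H, IsPGroup p L' ∧ ∀ a b, Orb L' a b ↔ ∃ i : ℕ, Orb L (g ^ i • a) b := by
  obtain ⟨k, hk⟩ := hk
  have hz : IsPGroup p (Subgroup.zpowers g) := by
    rintro ⟨_, j, rfl⟩
    refine ⟨k, Subtype.ext ?_⟩
    change (g ^ j) ^ p ^ k = 1
    rw [← zpow_natCast, ← zpow_mul, mul_comm, zpow_mul, zpow_natCast, hk, one_zpow]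
  have hpos : 0 < p ^ k := pow_pos (Fact.out : p.Prime).pos k
  let K : Subgroup (Perm V) :=
    { carrier := {x | ∃ i : ℕ, ∀ a : V × V, Orb L (g ^ i • a) (x • a)}
      one_mem' := ⟨0, fun a => by rw [pow_zero]; exact GrpA_refl L _⟩
      mul_mem' := by
        rintro x y ⟨i, hi⟩ ⟨j, hj⟩
        refine ⟨i + j, fun a => ?_⟩
        rw [pow_add, mul_smul, mul_smul]
        exact GrpA_trans ((GrpA_pow hp i _ _).2 (hj a)) (hi _)
      inv_mem' := by
        rintro x ⟨i, hi⟩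
        refine ⟨i * (p ^ k - 1), fun a => ?_⟩
        have h1 := (GrpA_pow hp (i * (p ^ k - 1)) _ _).2 (hi (x⁻¹ • a))
        have h2 : g ^ (i * (p ^ k - 1)) * g ^ i = 1 := by
          rw [← pow_add, ← Nat.mul_succ, Nat.succ_eq_add_one, Nat.sub_add_cancel hpos, mul_comm,
            pow_mul, hk, one_pow]
        rw [smul_inv_smul, ← mul_smul, h2, one_smul] at h1
        exact GrpA_symm h1 }
  have hK : clo H L ⊔ Subgroup.zpowers g ≤ K :=
    sup_le (fun x hx => ⟨0, fun a => by rw [pow_zero, one_smul]; exact hx.2 a⟩)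
      (Subgroup.zpowers_le.2 ⟨1, fun a => by rw [pow_one]; exact GrpA_refl L _⟩)
  refine ⟨clo H L ⊔ Subgroup.zpowers g, sup_le (fun x hx => hx.1) (Subgroup.zpowers_le.2 hg),
    (wielandt H L hL).to_sup_of_normal_left' hz (Subgroup.zpowers_le.2 (GrpA_norm hg hp)),
    fun a b => ⟨?_, ?_⟩⟩
  · rintro ⟨x, hx, rfl⟩
    obtain ⟨i, hi⟩ := hK hx
    exact ⟨i, hi a⟩
  · rintro ⟨i, l, hl, rfl⟩
    refine ⟨l * g ^ i, Subgroup.mul_mem_sup ⟨h hl, fun c => ⟨l, hl, rfl⟩⟩ ?_, mul_smul _ _ _⟩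
    exact Subgroup.pow_mem _ (Subgroup.mem_zpowers g) i

theorem maxP_of_fix {H L : Subgroup (Perm V)} (h : L ≤ H) (hL : IsPGroup p L)
    (hfix : ∀ g ∈ H, Pres L g → (∃ k, g ^ p ^ k = 1) → g ∈ clo H L) : MaxP p H (clo H L) := by
  refine ⟨fun x hx => hx.1, wielandt H L hL, fun Q hQ hp hK => le_antisymm ?_ hK⟩
  have := hp.isNilpotent
  rw [← Subgroup.subgroupOf_eq_top]
  refine normalizerCondition_iff_only_full_group_self_normalizing.1
    Group.normalizerCondition_of_isNilpotent _ (le_antisymm (fun x hx => ?_) Subgroup.le_normalizer)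
  have hx' := Subgroup.mem_normalizer_iff.1 hx
  refine hfix x (hQ x.2) (fun a b => ?_) ((hp x).imp fun k e => congrArg Subtype.val e)
  rw [← orb_clo h, ← orb_clo h]
  constructor
  · rintro ⟨l, hl, e⟩
    refine ⟨x⁻¹ * l * x, (hx' (x⁻¹ * ⟨l, hK hl⟩ * x)).2 ?_, ?_⟩
    · have : x * (x⁻¹ * ⟨l, hK hl⟩ * x) * x⁻¹ = ⟨l, hK hl⟩ := by group
      rw [this]
      exact hl
    · rw [mul_smul, mul_smul, e]
      exact inv_smul_smul _ _
  · rintro ⟨l, hl, rfl⟩
    refine ⟨x * l * x⁻¹, (hx' ⟨l, hK hl⟩).1 hl, ?_⟩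
    rw [mul_smul, mul_smul]
    congr 2
    exact inv_smul_smul _ _

omit [Finite V] in
theorem exists_swap {H L : Subgroup (Perm V)} {g : Perm V} (hg : g ∈ H) (hp : Pres L g)
    (hk : ∃ k, g ^ 2 ^ k = 1) (hn : g ∉ clo H L) :
    ∃ s ∈ H, Pres L s ∧ ∃ a, ¬Orb L (s • a) a ∧ Orb L (s • s • a) a := by
  obtain ⟨k, hk⟩ := hk
  obtain ⟨a, ha⟩ : ∃ a, ¬Orb L (g • a) a := by
    by_contra hc
    exact hn ⟨hg, fun a => GrpA_symm (not_not.1 fun h => hc ⟨a, h⟩)⟩
  clear hn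
  induction k generalizing g with
  | zero =>
    rw [pow_zero, pow_one] at hk
    rw [hk, one_smul] at ha
    exact absurd (GrpA_refl L a) ha
  | succ k ih =>
    by_cases h2 : Orb L (g • g • a) a
    · exact ⟨g, hg, hp, a, ha, h2⟩
    · refine ih (H.pow_mem hg 2) (GrpA_pow hp 2) ?_ ?_
      · rw [← pow_mul, ← pow_succ', hk]
      · rwa [pow_two, mul_smul]

omit [Finite V] in
theorem swap_odd {L : Subgroup (Perm V)} {h : Perm V} (hp : Pres L h) {a : V × V}
    (h1 : ¬Orb L (h • a) a) (h2 : Orb L (h • h • a) a) {M : ℕ} (hM : M.Coprime 2) :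
    ¬Orb L (h ^ M • a) a := by
  obtain ⟨m, rfl⟩ : Odd M := Nat.coprime_two_right.1 hM
  have k : ∀ j : ℕ, Orb L (h ^ (2 * j) • a) a := by
    intro j
    induction j with
    | zero => rw [mul_zero, pow_zero, one_smul]; exact GrpA_refl L a
    | succ j ih =>
      rw [Nat.mul_succ, pow_add, pow_two, mul_smul, mul_smul]
      exact GrpA_trans ((GrpA_pow hp _ _ _).2 h2) ih
  intro h3
  rw [pow_succ', mul_smul] at h3
  exact h1 (GrpA_trans (GrpA_symm ((hp _ _).2 (k m))) h3)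

end Pool.Agent.P.MP_9e61a4_lc
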