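import Pool.Agent.P.MP_9e61a4_lc.Ext
import Pool.Agent.P.MP_9e61a4_lc.Der
import Pool.Agent.P.MP_9e61a4_lc.GrpA

/-! The loop computes the orbits on pairs of a Sylow subgroup. -/

namespace Pool.Agent.P.MP_9e61a4_lc

open Equiv

variable {n : ℕ} {t : Mat × Mat → Bool}

theorem Loop_refl {V : Type} (L : Subgroup (Perm V)) (a : V × V) : Orb L a a :=
  ⟨1, L.one_mem, one_smul _ _⟩

theorem Loop_symm {V : Type} {L : Subgroup (Perm V)} {a b : V × V} (h : Orb L a b) : Orb L b a := by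
  obtain ⟨l, hl, e⟩ := h
  exact ⟨l⁻¹, L.inv_mem hl, by rw [← e, inv_smul_smul]⟩

theorem Loop_mem {G : SimpleGraph (Fin n)} {Rs : List Mat} {R : Mat}
    {L : Subgroup (Perm (Fin n))} (hR : ∀ a b, srel R a b ↔ Orb L a b) (g : Perm (Fin n)) :
    g ∈ AutS G (R :: Rs) ↔ g ∈ AutS G Rs ∧ Pres L g := by
  change Maps G (R :: Rs) G (R :: Rs) g ↔ Maps G Rs G Rs g ∧ _
  rw [maps_cons]
  simp only [hR, Pres]

theorem Loop_dser_le {V : Type} (N : Subgroup (Perm V)) (i : ℕ) : dser N i ≤ N := by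
  induction i with
  | zero => exact le_rfl
  | succ i ih =>
    refine le_trans (Subgroup.commutator_le.2 fun a ha b hb => ?_) ih
    rw [commutatorElement_def]
    exact mul_mem (mul_mem (mul_mem ha hb) (inv_mem ha)) (inv_mem hb)

theorem Loop_cands (ht : Tests t) (G : SimpleGraph (Fin n)) (Rs : List Mat) {p : ℕ}
    [Fact p.Prime] (hp : p = 2 ∨ Group.IsSolvable (AutS G Rs)) {R : Mat}
    {L : Subgroup (Perm (Fin n))} (hR : ∀ a b, srel R a b ↔ Orb L a b) :
    ∃ C : List (Perm (Fin n)), cands t (adjMat G) (R :: Rs) = C.map pl ∧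
      (∀ c ∈ C, c ∈ AutS G Rs ∧ Pres L c) ∧
      ((∀ c ∈ C, ∀ a, Orb L (c ^ Mn n p • a) a) →
        ∀ g ∈ AutS G Rs, Pres L g → (∃ k, g ^ p ^ k = 1) → g ∈ clo (AutS G Rs) L) := by
  obtain ⟨S, hS, hS1, hS2⟩ := swaps_spec ht G (R :: Rs)
  obtain ⟨T, hT, hT1⟩ := gens_spec ht G (R :: Rs)
  obtain ⟨D, hD, hD1⟩ := allD_spec T
  rw [hT1] at hD1
  have hDm : ∀ i, ∀ x ∈ D i, x ∈ AutS G (R :: Rs) := fun i x hx =>
    Loop_dser_le _ i (hD1 i ▸ Subgroup.subset_closure hx)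
  refine ⟨S ++ (List.range (n * n)).flatMap D, ?_, fun c hc => (Loop_mem hR c).1 ?_,
    fun hC g hg hgp hk => ?_⟩
  · rw [cands, hS, hT, length_adjMat, hD, List.map_append]
  · rcases List.mem_append.1 hc with hc | hc
    · exact hS1 c hc
    · obtain ⟨i, -, hi⟩ := List.mem_flatMap.1 hc
      exact hDm i c hi
  rcases hp with rfl | hp
  · by_contra hn
    obtain ⟨s, hs, hsp, a, h1, h2⟩ := exists_swap hg hgp hk hn
    obtain ⟨h, hh, e1, e2⟩ := hS2 s ((Loop_mem hR s).2 ⟨hs, hsp⟩) a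
    exact swap_odd ((Loop_mem hR h).1 (hS1 h hh)).2 (a := a) (by rwa [e1]) (by rwa [e1, e2])
      (Mn_coprime Nat.prime_two n) (hC h (List.mem_append_left _ hh) a)
  · have hle : AutS G (R :: Rs) ≤ AutS G Rs := fun x hx => ((Loop_mem hR x).1 hx).1
    have hsol : Group.IsSolvable (AutS G (R :: Rs)) :=
      Group.isSolvable_of_isSolvable_injective (Subgroup.inclusion_injective hle)
    refine mem_of_dser (p := p) (N := AutS G (R :: Rs)) (fun f hf k hk => ?_)
      ((solvable_iff_dser _).1 hsol) (fun i => {x | x ∈ D i}) (fun i _ => hD1 i)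
      (Mn_coprime Fact.out n) (fun i hi s hs => ?_) ((Loop_mem hR g).2 ⟨hg, hgp⟩) hk
    · obtain ⟨hf1, hf2⟩ := (Loop_mem hR f).1 hf
      refine ⟨mul_mem (mul_mem hf1 hk.1) (inv_mem hf1), fun a => ?_⟩
      have := (hf2 _ _).2 (hk.2 (f⁻¹ • a))
      rwa [smul_inv_smul, ← mul_smul, ← mul_smul] at this
    · exact ⟨pow_mem (hle (hDm i s hs)) _, fun a => Loop_symm (hC s (List.mem_append_right _
        (List.mem_flatMap.2 ⟨i, List.mem_range.2 hi, hs⟩)) a)⟩

theorem Loop_pres_pow {V : Type} {L : Subgroup (Perm V)} {g : Perm V} (h : Pres L g) (k : ℕ) :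
    Pres L (g ^ k) := by
  induction k with
  | zero => intro a b; simp
  | succ k ih => intro a b; rw [pow_succ', mul_smul, mul_smul, h, ih]

open Classical in
/-- The number of related pairs. -/
noncomputable def Loop_mu (n : ℕ) (R : Mat) : ℕ :=
  (Finset.univ.filter fun x : (Fin n × Fin n) × Fin n × Fin n => srel R x.1 x.2).card

theorem Loop_mu_le (n : ℕ) (R : Mat) : Loop_mu n R ≤ n ^ 4 := by
  classical
  refine (Finset.card_le_univ _).trans (le_of_eq ?_)
  simp only [Fintype.card_prod, Fintype.card_fin]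
  ring

theorem Loop_step (ht : Tests t) (G : SimpleGraph (Fin n)) (Rs : List Mat) {p : ℕ}
    [Fact p.Prime] (hp : p = 2 ∨ Group.IsSolvable (AutS G Rs)) {R : Mat}
    {L : Subgroup (Perm (Fin n))} (hL : L ≤ AutS G Rs) (hL' : IsPGroup p L)
    (hR : ∀ a b, srel R a b ↔ Orb L a b) :
    (stepR t (adjMat G) Rs p R = R ∧ MaxP p (AutS G Rs) (clo (AutS G Rs) L)) ∨
    (Loop_mu n R < Loop_mu n (stepR t (adjMat G) Rs p R) ∧ ∃ L' ≤ AutS G Rs, IsPGroup p L' ∧
      ∀ a b, srel (stepR t (adjMat G) Rs p R) a b ↔ Orb L' a b) := by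
  classical
  obtain ⟨C, hC, hC1, hC2⟩ := Loop_cands ht G Rs hp hR
  have hg : ∀ h, h ∈ good t (adjMat G) Rs p R ↔
      ∃ c ∈ C, h = pl (c ^ Mn n p) ∧ ∃ a, ¬Orb L (c ^ Mn n p • a) a := by
    intro h
    rw [good, hC, length_adjMat, List.mem_filter, List.map_map, List.mem_map]
    constructor
    · rintro ⟨⟨c, hc, rfl⟩, h2⟩
      simp only [Function.comp, pwM_pl, moved_pl, hR] at h2 ⊢
      exact ⟨c, hc, rfl, h2⟩
    · rintro ⟨c, hc, rfl, h2⟩
      exact ⟨⟨c, hc, pwM_pl p c⟩, by simpa only [moved_pl, hR] using h2⟩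
  rw [stepR]
  cases e : good t (adjMat G) Rs p R with
  | nil =>
    refine Or.inl ⟨by simp, maxP_of_fix hL hL' (hC2 fun c hc a => ?_)⟩
    by_contra hn
    have := (hg _).2 ⟨c, hc, rfl, a, hn⟩
    simp [e] at this
  | cons h r =>
    obtain ⟨c, hc, rfl, a, ha⟩ := (hg h).1 (by simp [e])
    obtain ⟨L', h1, h2, h3⟩ := grow_step hL hL' (pow_mem (hC1 c hc).1 (Mn n p))
      (Loop_pres_pow (hC1 c hc).2 _) (pow_Mn Fact.out c)
    have h4 : ∀ a b, srel (upd n R (pl (c ^ Mn n p))) a b ↔ Orb L' a b := by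
      intro a b
      rw [srel_upd]
      simp only [hR, ← h3]
      exact ⟨fun h => h.elim (fun h => h ▸ Loop_refl _ _) fun h => h.elim id Loop_symm,
        fun h => Or.inr (Or.inl h)⟩
    simp only [List.isEmpty_cons, Bool.false_eq_true, if_false, List.headD_cons, length_adjMat]
    refine Or.inr ⟨Finset.card_lt_card ((Finset.ssubset_iff_of_subset fun x hx => ?_).2
      ⟨(a, c ^ Mn n p • a), ?_, ?_⟩), L', h1, h2, h4⟩
    · simp only [Finset.mem_filter, Finset.mem_univ, true_and, h4, hR, h3] at hx ⊢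
      exact ⟨0, by simpa using hx⟩
    · simp only [Finset.mem_filter, Finset.mem_univ, true_and, h4, h3]
      exact ⟨1, by simpa using Loop_refl _ _⟩
    · simp only [Finset.mem_filter, Finset.mem_univ, true_and, hR]
      exact fun h => ha (Loop_symm h)

theorem loopR_spec (ht : Tests t) (G : SimpleGraph (Fin n)) (Rs : List Mat) {p : ℕ}
    [Fact p.Prime] (hp : p = 2 ∨ Group.IsSolvable (AutS G Rs)) :
    ∃ K, MaxP p (AutS G Rs) K ∧ clo (AutS G Rs) K = K ∧
      ∀ a b, srel (loopR t (adjMat G) Rs p) a b ↔ Orb K a b := by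
  have key : ∀ i, ∃ L ≤ AutS G Rs, IsPGroup p L ∧
      (∀ a b, srel ((stepR t (adjMat G) Rs p)^[i] []) a b ↔ Orb L a b) ∧
      (i ≤ Loop_mu n ((stepR t (adjMat G) Rs p)^[i] []) ∨
        (stepR t (adjMat G) Rs p ((stepR t (adjMat G) Rs p)^[i] []) =
          (stepR t (adjMat G) Rs p)^[i] [] ∧ MaxP p (AutS G Rs) (clo (AutS G Rs) L))) := by
    intro i
    induction i with
    | zero =>
      refine ⟨⊥, bot_le, IsPGroup.of_bot, fun a b => ?_, Or.inl (Nat.zero_le _)⟩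
      simp [srel_nil, Orb]
    | succ i ih =>
      obtain ⟨L, h1, h2, h3, h4⟩ := ih
      rw [Function.iterate_succ_apply']
      rcases h4 with h4 | ⟨e, h4⟩
      · rcases Loop_step ht G Rs hp h1 h2 h3 with ⟨e, h⟩ | ⟨e, L', h5, h6, h7⟩
        · exact ⟨L, h1, h2, by rwa [e], Or.inr ⟨by rw [e, e], h⟩⟩
        · exact ⟨L', h5, h6, h7, Or.inl (by omega)⟩
      · exact ⟨L, h1, h2, by rwa [e], Or.inr ⟨by rw [e, e], h4⟩⟩
  obtain ⟨L, h1, h2, h3, h4⟩ := key (n ^ 4 + 1)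
  have h5 := Loop_mu_le n ((stepR t (adjMat G) Rs p)^[n ^ 4 + 1] [])
  refine ⟨clo (AutS G Rs) L, (h4.resolve_left (by omega)).2, ?_, fun a b => ?_⟩
  · ext g
    exact and_congr_right fun _ => forall_congr' fun a => orb_clo h1 _ _
  · rw [loopR, length_adjMat, h3, orb_clo h1]

end Pool.Agent.P.MP_9e61a4_lc
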