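import Pool.Agent.P.MP_9e61a4_lc.PTb
import Pool.Agent.P.MP_9e61a4_lc.Orc

/-! The reduction runs in polynomial time relative to the oracle. -/

namespace Pool.Agent.P.MP_9e61a4_lc

open N487b59b3 N68a2faeb Pool.Agent.Lib.PolyTime

variable {O : Str → Bool} {t : Mat × Mat → Bool}

section

variable {α β γ : Type} [N487b59b3 α] [N487b59b3 β] [N487b59b3 γ]
  {A R : α → Mat} {Rs : α → List Mat} {σ : α → List (ℕ × ℕ)} {x p : α → ℕ}

theorem PTc_post {g : α → β} (hg : Flex O g) (f : α × β → γ) (hf : PT f) :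
    Flex O fun a => f (a, g a) := (Flex.of_pt hf).seq hg

theorem PTc_okB (ht : Flex O t) (hA : PT A) (hR : PT Rs) (hσ : PT σ) :
    Flex O fun a => okB t (A a) (Rs a) (σ a) :=
  ht.comp (g := fun a => (gad (A a) (Rs a) ((σ a).map Prod.fst),
    gad (A a) (Rs a) ((σ a).map Prod.snd))) (Flex.of_pt (by fun_prop))

theorem PTc_extStep (ht : Flex O t) (hA : PT A) (hR : PT Rs) (hσ : PT σ) (hx : PT x) :
    Flex O fun a => extStep t (A a) (Rs a) (σ a) (x a) := by
  have h1 : Flex O fun a => (List.range (A a).length).filter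
      fun y => okB t (A a) (Rs a) (σ a ++ [(x a, y)]) :=
    Flex.filter (Flex.of_pt (by fun_prop))
      (PTc_okB (A := fun q : α × ℕ => A q.1) (Rs := fun q => Rs q.1)
        (σ := fun q => σ q.1 ++ [(x q.1, q.2)]) ht (by fun_prop) (by fun_prop) (by fun_prop))
  exact PTc_post h1 (fun q => σ q.1 ++ [(x q.1, q.2.headD 0)]) (by fun_prop)

end

theorem PTc_headD {n : ℕ} {l : List ℕ} (h : ∀ y ∈ l, y ≤ n) : l.headD 0 ≤ n := by
  cases l with
  | nil => exact Nat.zero_le _
  | cons y l => exact h y (by simp)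

theorem PTc_sz_extStep (A : Mat) (Rs : List Mat) (σ : List (ℕ × ℕ)) {x : ℕ} (hx : x ≤ A.length) :
    sz (extStep t A Rs σ x) ≤ sz σ + (6 * A.length + 3) := by
  have h1 : ((List.range A.length).filter fun y => okB t A Rs (σ ++ [(x, y)])).headD 0 ≤
      A.length := PTc_headD fun y hy => (List.mem_range.1 (List.mem_of_mem_filter hy)).le
  have h2 := (sz_le_self _).trans h1
  have h3 := (sz_le_self _).trans hx
  rw [extStep, sz_append, sz_cons, sz_pair, sz_nil]
  omega

theorem PTc_sz_loop (A : Mat) (Rs : List Mat) (p k : ℕ) : sz ((stepR t A Rs p)^[k] []) ≤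
    A.length * A.length * (6 * (A.length * A.length) + 1) := by
  induction k with
  | zero => exact Nat.zero_le _
  | succ k ih =>
    rw [Function.iterate_succ_apply', stepR]
    split_ifs
    · exact ih
    · exact sz_upd _ _ _

section

variable {α β γ : Type} [N487b59b3 α] [N487b59b3 β] [N487b59b3 γ]
  {A R : α → Mat} {Rs : α → List Mat} {σ : α → List (ℕ × ℕ)} {x p : α → ℕ}

theorem PTc_ext (ht : Flex O t) (hA : PT A) (hR : PT Rs) (hσ : PT σ) :
    Flex O fun a => ext t (A a) (Rs a) (σ a) := by
  have hs : Small fun a => sz (σ a) + (A a).length * (6 * (A a).length + 3) := by fun_prop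
  have h1 : Flex O fun a => (List.range (A a).length).foldl (extStep t (A a) (Rs a)) (σ a) := by
    refine Flex.foldl (f := fun a => extStep t (A a) (Rs a)) (Flex.of_pt (by fun_prop))
      (Flex.of_pt hσ) (PTc_extStep (A := fun q : α × List (ℕ × ℕ) × ℕ => A q.1)
        (Rs := fun q => Rs q.1) (σ := fun q => q.2.1) (x := fun q => q.2.2) ht (by fun_prop)
        (by fun_prop) (by fun_prop) (by fun_prop)) ?_
    refine (PB.reindex hs (Prod.fst : α × ℕ → α)).mono fun q => ?_
    refine (PT.sz_foldl_le (B := 6 * (A q.1).length + 3) _ _ fun b y hy =>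
      PTc_sz_extStep _ _ _ (List.mem_range.1 (List.mem_of_mem_take hy)).le).trans ?_
    have h2 : ((List.range (A q.1).length).take q.2).length ≤ (A q.1).length :=
      (List.length_take_le' _ _).trans List.length_range.le
    gcongr
  exact Flex.ite (PTc_okB ht hA hR hσ)
    (PTc_post h1 (fun q => (q.2.drop (σ q.1).length).map Prod.snd) (by fun_prop))
    (Flex.of_pt (by fun_prop))

theorem PTc_gens (ht : Flex O t) (hA : PT A) (hR : PT Rs) :
    Flex O fun a => gens t (A a) (Rs a) := by
  have h1 : Flex O fun a => (List.range (A a).length).flatMap fun i =>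
      (List.range (A a).length).map fun j =>
        ext t (A a) (Rs a) ((List.range (min i (A a).length)).map (fun l => (l, l)) ++ [(i, j)]) :=
    Flex.flatMap (Flex.of_pt (by fun_prop)) (Flex.map (Flex.of_pt (by fun_prop))
      (PTc_ext (A := fun q : (α × ℕ) × ℕ => A q.1.1) (Rs := fun q => Rs q.1.1)
        (σ := fun q => (List.range (min q.1.2 (A q.1.1).length)).map (fun l => (l, l)) ++
          [(q.1.2, q.2)]) ht (by fun_prop) (by fun_prop) (by fun_prop)))
  refine h1.congr fun a => List.flatMap_congr fun i hi => ?_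
  rw [min_eq_left (List.mem_range.1 hi).le]

theorem PTc_swaps (ht : Flex O t) (hA : PT A) (hR : PT Rs) :
    Flex O fun a => swaps t (A a) (Rs a) :=
  Flex.flatMap (Flex.of_pt (by fun_prop)) (Flex.flatMap (Flex.of_pt (by fun_prop))
    (Flex.map (Flex.of_pt (by fun_prop))
      (PTc_ext (A := fun q : ((α × ℕ × ℕ) × ℕ × ℕ) × ℕ × ℕ => A q.1.1.1)
        (Rs := fun q => Rs q.1.1.1)
        (σ := fun q => [(q.1.1.2.1, q.1.2.1), (q.1.1.2.2, q.1.2.2), (q.1.2.1, q.2.1),
          (q.1.2.2, q.2.2)]) ht (by fun_prop) (by fun_prop) (by fun_prop))))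

theorem PTc_cands (ht : Flex O t) (hA : PT A) (hR : PT Rs) :
    Flex O fun a => cands t (A a) (Rs a) :=
  PTc_post ((PTc_swaps ht hA hR).pair (PTc_gens ht hA hR))
    (fun q => q.2.1 ++ allD (A q.1).length q.2.2) (by fun_prop)

theorem PTc_good (ht : Flex O t) (hA : PT A) (hR : PT Rs) (hp : PT p) (hR' : PT R) :
    Flex O fun a => good t (A a) (Rs a) (p a) (R a) :=
  PTc_post (PTc_cands (Rs := fun a => R a :: Rs a) ht hA (by fun_prop))
    (fun q => (q.2.map fun g => pwM (A q.1).length (p q.1) g).filter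
      fun g => moved (A q.1).length (R q.1) g) (by fun_prop)

theorem PTc_stepR (ht : Flex O t) (hA : PT A) (hR : PT Rs) (hp : PT p) (hR' : PT R) :
    Flex O fun a => stepR t (A a) (Rs a) (p a) (R a) := by
  refine (PTc_post (PTc_good ht hA hR hp hR') (fun q => bif q.2.isEmpty then R q.1 else
    upd (A q.1).length (R q.1) (q.2.headD [])) (by fun_prop)).congr fun a => ?_
  rw [stepR, Bool.cond_eq_ite]

theorem PTc_loopR (ht : Flex O t) (hA : PT A) (hR : PT Rs) (hp : PT p) :
    Flex O fun a => loopR t (A a) (Rs a) (p a) := by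
  have hs : Small fun a =>
      (A a).length * (A a).length * (6 * ((A a).length * (A a).length) + 1) := by fun_prop
  exact Flex.iterate (n := fun a => (A a).length ^ 4 + 1) (s := fun _ => [])
    (F := fun a => stepR t (A a) (Rs a) (p a)) (by fun_prop) (by fun_prop)
    (Flex.of_pt (by fun_prop))
    (PTc_stepR (A := fun q : α × Mat => A q.1) (Rs := fun q => Rs q.1) (p := fun q => p q.1)
      (R := fun q => q.2) ht (by fun_prop) (by fun_prop) (by fun_prop) (by fun_prop))
    ((PB.reindex hs (Prod.fst : α × ℕ → α)).mono fun q => PTc_sz_loop _ _ _ _)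

end

/-- the step over primes with a bounded primality test -/
def PTc_step (t : Mat × Mat → Bool) (A : Mat) (Rs : List Mat) (p : ℕ) : List Mat :=
  if primeB (min p A.length) then loopR t A Rs p :: Rs else Rs

theorem PTc_sz_step (A : Mat) (Rs : List Mat) (p : ℕ) : sz (PTc_step t A Rs p) ≤
    sz Rs + (2 * (A.length * A.length * (6 * (A.length * A.length) + 1)) + 1) := by
  have h : sz (loopR t A Rs p) ≤ _ := PTc_sz_loop A Rs p _
  rw [PTc_step]
  split_ifs
  · rw [sz_cons]
    omega
  · omega

theorem PTc_deco (ht : Flex O t) : Flex O (deco t) := by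
  have hL : Flex O fun A : Mat => [loopR t A [] 2] :=
    PTc_post (PTc_loopR (A := fun A : Mat => A) (Rs := fun _ => []) (p := fun _ => 2) ht
      (by fun_prop) (by fun_prop) (by fun_prop)) (fun q => [q.2]) (by fun_prop)
  have hg : Flex O fun A : Mat => gens t A [loopR t A [] 2] :=
    (PTc_gens (A := fun q : Mat × List Mat => q.1) (Rs := fun q => q.2) ht (by fun_prop)
      (by fun_prop)).seq hL
  have hc : Flex O fun A : Mat => solvB A.length (gens t A [loopR t A [] 2]) :=
    PTc_post hg (fun q => solvB q.1.length q.2) (by fun_prop)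
  have hstep : Flex O fun q : Mat × List Mat × ℕ => PTc_step t q.1 q.2.1 q.2.2 :=
    Flex.ite (c := fun q : Mat × List Mat × ℕ => primeB (min q.2.2 q.1.length))
      (Flex.of_pt (by fun_prop))
      (PTc_post (PTc_loopR (A := fun q : Mat × List Mat × ℕ => q.1) (Rs := fun q => q.2.1)
        (p := fun q => q.2.2) ht (by fun_prop) (by fun_prop) (by fun_prop))
        (fun q => q.2 :: q.1.2.1) (by fun_prop)) (Flex.of_pt (by fun_prop))
  have hs : Small fun A : Mat => (A.length + 2) *
      (2 * (A.length * A.length * (6 * (A.length * A.length) + 1)) + 1) := by fun_prop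
  have hf : Flex O fun A : Mat =>
      (List.range (A.length + 1)).foldl (PTc_step t A) [loopR t A [] 2] := by
    refine Flex.foldl (f := fun A => PTc_step t A) (Flex.of_pt (by fun_prop)) hL hstep ?_
    refine (PB.reindex hs (Prod.fst : Mat × ℕ → Mat)).mono fun q => ?_
    refine (PT.sz_foldl_le _ _ fun b y _ => PTc_sz_step _ _ _).trans ?_
    have h2 : ((List.range (q.1.length + 1)).take q.2).length ≤ q.1.length + 1 :=
      (List.length_take_le' _ _).trans List.length_range.le
    have h3 : sz (loopR t q.1 [] 2) ≤ _ := PTc_sz_loop q.1 [] 2 _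
    have h4 := Nat.mul_le_mul_right
      (2 * (q.1.length * q.1.length * (6 * (q.1.length * q.1.length) + 1)) + 1) h2
    rw [sz_cons, sz_nil]
    generalize q.1.length * q.1.length * (6 * (q.1.length * q.1.length) + 1) = B at h3 h4 ⊢
    nlinarith
  refine (Flex.ite hc hf hL).congr fun A => ?_
  rw [deco]
  congr 1
  refine List.foldl_ext _ _ _ fun Rs p hp => ?_
  rw [primeStep, PTc_step, min_eq_left (Nat.lt_succ_iff.1 (List.mem_range.1 hp))]

theorem flex_ext (ht : Flex O t) :
    Flex O fun x : Mat × List Mat × List (ℕ × ℕ) => ext t x.1 x.2.1 x.2.2 :=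
  PTc_ext ht (by fun_prop) (by fun_prop) (by fun_prop)

theorem flex_gens (ht : Flex O t) : Flex O fun x : Mat × List Mat => gens t x.1 x.2 :=
  PTc_gens ht (by fun_prop) (by fun_prop)

theorem flex_loopR (ht : Flex O t) :
    Flex O fun x : Mat × List Mat × ℕ => loopR t x.1 x.2.1 x.2.2 :=
  PTc_loopR ht (by fun_prop) (by fun_prop) (by fun_prop)

theorem flex_red (ht : Flex O t) : Flex O (red t) :=
  PTc_post (PTc_deco ht) (fun q => gad q.1 q.2 []) (by fun_prop)

end Pool.Agent.P.MP_9e61a4_lc
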