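import Pool.Agent.P.MP_9e61a4_lc.Deco
import Pool.Agent.P.MP_9e61a4_lc.PTc

/-! Canonization of all graphs from canonization of graphs with nilpotent automorphism group. -/

namespace Pool.Agent.P.MP_9e61a4_lc

open Equiv N487b59b3 N68a2faeb Pool.Agent.Lib.PolyTime

/-- An isomorphism of decorated graphs, as an isomorphism of the numbered gadget graphs. -/
def Main_iso {n j m : ℕ} (e : Fin m ≃ Vx n j 0) {G H : SimpleGraph (Fin n)} {Rs Ss : List Mat}
    (h₁ : Rs.length = j) (h₂ : Ss.length = j) {π : Perm (Fin n)} (h : Maps G Rs H Ss π) :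
    (GW G j 0 Rs []).comap e ≃g (GW H j 0 Ss []).comap e where
  toEquiv := e.trans ((liftV j 0 π).trans e.symm)
  map_rel_iff' := fun {a b} => by
    simpa using (iso_GW G H [] [] h₁ h₂ (liftV j 0 π)).2 ⟨π, rfl, h, by simp⟩ (e a) (e b)

theorem Main_aut {n j m : ℕ} (e : Fin m ≃ Vx n j 0) (G : SimpleGraph (Fin n)) {Rs : List Mat}
    (h : Rs.length = j) :
    Nonempty (AutS G Rs ≃* ((GW G j 0 Rs []).comap e ≃g (GW G j 0 Rs []).comap e)) := by
  let f : AutS G Rs →* ((GW G j 0 Rs []).comap e ≃g (GW G j 0 Rs []).comap e) :=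
    { toFun := fun π => Main_iso e h h π.2
      map_one' := by ext x; simp [Main_iso]
      map_mul' := fun π ρ => by ext x; simp [Main_iso] }
  refine ⟨MulEquiv.ofBijective f ⟨fun π ρ hf => ?_, fun φ => ?_⟩⟩
  · refine Subtype.ext (liftV_injective (j := j) (k := 0) (Equiv.ext fun x => ?_))
    have := DFunLike.congr_fun hf (e.symm x)
    simpa [f, Main_iso] using this
  · obtain ⟨π, h1, h2, -⟩ := (iso_GW G G [] [] h h
      (e.symm.trans (φ.toEquiv.trans e))).1 fun x y => by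
        simpa using φ.map_rel_iff (a := e.symm x) (b := e.symm y)
    refine ⟨⟨π, h2⟩, ?_⟩
    ext x
    simp [f, Main_iso, ← h1]

theorem canon_red {t : Mat × Mat → Bool} (ht : Tests t) {c : Mat → Mat} (hc : IsCanon NilAut c) :
    IsCanon (fun _ _ => True) fun A => dec (c (red t A)) := by
  intro n G _
  obtain ⟨m, e, he⟩ := gad_eq n (deco t (adjMat G)).length 0
  obtain ⟨f⟩ := Main_aut e G (Rs := deco t (adjMat G)) rfl
  obtain ⟨h1, h2⟩ := deco_class ht G
  obtain ⟨⟨Z, hZ, ⟨φ⟩⟩, h3⟩ := hc m _ ⟨normalSylow_of_mulEquiv f h1, fun hs =>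
    have := h2 (Group.isSolvable_of_isSolvable_injective (f := f.toMonoidHom) f.injective)
    Group.nilpotent_of_mulEquiv f⟩
  have h4 : red t (adjMat G) = _ := he G _ [] rfl rfl
  refine ⟨?_, fun H hH => ?_⟩
  · simp only [h4, hZ]
    refine dec_spec G Z (fun u => φ (e.symm (Vx.v u))) (fun u v h => ?_) (fun x => ?_) fun u v => ?_
    · simpa using h
    · obtain ⟨x, rfl⟩ := φ.surjective x
      rw [isV_iso φ, ← isV_iso (SimpleGraph.Iso.comap e _), isV_GW]
      simp [Equiv.eq_symm_apply]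
    · rw [φ.map_rel_iff]
      simpa using adj_v G _ _ u v
  · obtain ⟨π, hπ⟩ := deco_canon ht hH
    have h5 : red t (adjMat H) = _ := he H _ [] hπ.2.1.symm rfl
    simp only [h4, h5]
    rw [h3 _ ⟨Main_iso e rfl hπ.2.1.symm hπ⟩]

theorem main (O : List Bool → Bool) (hO : SolvesGI O) :
    (∃ c, PolyTimeIn O c ∧ IsCanon NilAut c) ↔
      ∃ c, PolyTimeIn O c ∧ IsCanon (fun _ _ => True) c := by
  refine ⟨?_, fun ⟨c, h1, h2⟩ => ⟨c, h1, fun n G _ => h2 n G trivial⟩⟩
  rintro ⟨c, h1, h2⟩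
  obtain ⟨t, ht, ht'⟩ := hO
  exact ⟨_, ((Flex.of_pt (pt_dec PT.id)).comp ((Flex.of_polyTimeIn h1).comp
    (flex_red (Flex.of_polyTimeIn ht)))).polyTimeIn, canon_red ht' h2⟩

theorem solvesGI_GI : SolvesGI GI := by
  refine ⟨fun x => GI (bitEncode x), (Flex.ask PT.id.bitEncode).polyTimeIn, fun n G H => ?_⟩
  simp only [GI, decide_eq_true_eq]
  refine ⟨?_, fun h => ⟨n, G, H, rfl, h⟩⟩
  rintro ⟨m, G', H', e, h⟩
  obtain ⟨e1, e2⟩ := Prod.ext_iff.1 (bitEncode_injective e)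
  obtain rfl : n = m := by rw [← length_adjMat G, ← length_adjMat G']; exact congrArg _ e1
  have inj : ∀ A B : SimpleGraph (Fin n), adjMat A = adjMat B → A = B := fun A B h => by
    ext u v
    rw [← mget_adjMat, ← mget_adjMat, h]
  rwa [inj _ _ e1, inj _ _ e2]

end Pool.Agent.P.MP_9e61a4_lc
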