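import Pool.Agent.P.MP_9e61a4_lc.PTa

/-! Sifting tables and derived series run in polynomial time. -/

namespace Pool.Agent.P.MP_9e61a4_lc

open N487b59b3 N68a2faeb Pool.Agent.Lib.PolyTime

variable {α : Type} [N487b59b3 α]

theorem PTb_fixB_eq (i : ℕ) (g : PL) : fixB i g = fixB (min i (g.length + 2)) g := by
  rcases le_total i (g.length + 2) with h | h
  · rw [min_eq_left h]
  · rw [min_eq_right h]
    have key : ∀ m, g.length + 2 ≤ m → fixB m g = false := by
      intro m hm
      rw [fixB, List.all_eq_false]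
      refine ⟨g.length + 1, List.mem_range.2 (by omega), ?_⟩
      rw [List.getD_eq_default _ _ (by omega)]
      simp
    rw [key _ h, key _ le_rfl]

@[fun_prop] theorem PTb_fixB {i : α → ℕ} {g : α → PL} (hi : PT i) (hg : PT g) :
    PT fun a => fixB (i a) (g a) := by
  have h : PT fun a => (List.range (min (i a) ((g a).length + 2))).all
      fun l => (g a).getD l 0 == l := by fun_prop
  exact h.congr fun a => PTb_fixB_eq _ _

@[fun_prop] theorem PTb_lk {T : α → List PL} {i j : α → ℕ} (hT : PT T) (hi : PT i) (hj : PT j) :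
    PT fun a => lk (T a) (i a) (j a) := by
  unfold lk; fun_prop

@[fun_prop] theorem PTb_siftStep {n i : α → ℕ} {T : α → List PL} {g : α → PL} (hn : PT n)
    (hs : Small n) (hT : PT T) (hg : PT g) (hi : PT i) :
    PT fun a => siftStep (n a) (T a) (g a) (i a) := by
  unfold siftStep; fun_prop

theorem PTb_sz_siftStep (n : ℕ) (T : List PL) (g : PL) (i : ℕ) :
    sz (siftStep n T g i) ≤ sz g + n * (2 * n + 1) := by
  unfold siftStep
  split_ifs
  · exact (sz_mulL _ _ _).trans (Nat.le_add_left _ _)
  · exact Nat.le_add_right _ _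

@[fun_prop] theorem PTb_res {n : α → ℕ} {T : α → List PL} {g : α → PL} (hn : PT n)
    (hs : Small n) (hT : PT T) (hg : PT g) : PT fun a => res (n a) (T a) (g a) := by
  have hb : Small fun p : α × ℕ => n p.1 * (2 * n p.1 + 1) := by fun_prop
  have h : PT fun a => (List.range (n a)).foldl (siftStep (n a) (T a)) (g a) :=
    PT.foldl_growth (f := fun a => siftStep (n a) (T a)) (by fun_prop) hg (by fun_prop) _ hb
      fun a b x => PTb_sz_siftStep _ _ _ _
  unfold res
  exact pt_mulL hn hs (by fun_prop) h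

theorem PTb_sz_res (n : ℕ) (T : List PL) (g : PL) : sz (res n T g) ≤ n * (2 * n + 1) :=
  sz_mulL _ _ _

@[fun_prop] theorem PTb_addT {n : α → ℕ} {T : α → List PL} {g : α → PL} (hn : PT n)
    (hs : Small n) (hT : PT T) (hg : PT g) : PT fun a => addT (n a) (T a) (g a) := by
  unfold addT; fun_prop

theorem PTb_sz_addT (n : ℕ) (T : List PL) (g : PL) :
    sz (addT n T g) ≤ sz T + (2 * (n * (2 * n + 1)) + 1) := by
  unfold addT
  split_ifs
  · exact Nat.le_add_right _ _
  · refine (sz_take_le _ _).trans ?_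
    have := PTb_sz_res n T g
    simp only [sz_append, sz_cons, sz_nil]
    omega

@[fun_prop] theorem PTb_roundT {n : α → ℕ} {gs cs T : α → List PL} (hn : PT n)
    (hs : Small n) (hg : PT gs) (hc : PT cs) (hT : PT T) :
    PT fun a => roundT (n a) (gs a) (cs a) (T a) := by
  have hb : Small fun p : α × PL => 2 * (n p.1 * (2 * n p.1 + 1)) + 1 := by fun_prop
  unfold roundT
  exact PT.foldl_growth (f := fun a => addT (n a)) (by fun_prop) hT (by fun_prop) _ hb
    fun a b x => PTb_sz_addT _ _ _

/-- The invariant of the sifting tables. -/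
def PTb_Inv (n : ℕ) (T : List PL) : Prop :=
  T.length ≤ n * n + 1 ∧ ∀ x ∈ T, sz x ≤ n * (2 * n + 1)

theorem PTb_inv_addT {n : ℕ} {T : List PL} (h : PTb_Inv n T) (g : PL) :
    PTb_Inv n (addT n T g) := by
  unfold addT
  split_ifs
  · exact h
  · refine ⟨List.length_take_le _ _, fun x hx => ?_⟩
    rcases List.mem_append.1 (List.mem_of_mem_take hx) with h1 | h1
    · exact h.2 x h1
    · rw [List.mem_singleton.1 h1]; exact PTb_sz_res _ _ _

theorem PTb_inv_foldl {n : ℕ} (l : List PL) {T : List PL} (h : PTb_Inv n T) :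
    PTb_Inv n (l.foldl (addT n) T) := by
  induction l generalizing T with
  | nil => exact h
  | cons x l ih => exact ih (PTb_inv_addT h x)

theorem PTb_inv_iter (n : ℕ) (gs cs : List PL) (m : ℕ) :
    PTb_Inv n ((roundT n gs cs)^[m] [List.range n]) := by
  induction m with
  | zero =>
    refine ⟨by simp, fun x hx => ?_⟩
    rw [List.mem_singleton.1 hx]
    exact PT.sz_range_le n
  | succ m ih =>
    rw [Function.iterate_succ_apply']
    exact PTb_inv_foldl _ ih

theorem PTb_sz_of_inv {n : ℕ} {T : List PL} (h : PTb_Inv n T) :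
    sz T ≤ (n * n + 1) * (2 * (n * (2 * n + 1)) + 1) :=
  (sz_le_of_forall h.2).trans (Nat.mul_le_mul_right _ h.1)

@[fun_prop] theorem pt_closeT {n : α → ℕ} {gs cs : α → List PL} (hn : PT n) (hs : Small n)
    (hg : PT gs) (hc : PT cs) : PT fun a => closeT (n a) (gs a) (cs a) := by
  have hb : Small fun a => (n a * n a + 1) * (2 * (n a * (2 * n a + 1)) + 1) := by fun_prop
  unfold closeT
  refine PT.iterate_nat (n := fun a => n a * n a + 1) (F := fun a => roundT (n a) (gs a) (cs a))
    (by fun_prop) (by fun_prop) (by fun_prop) (by fun_prop) ?_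
  exact (PB.reindex hb fun p : {p : α × ℕ // p.2 ≤ n p.1 * n p.1 + 1} => p.1.1).mono
    fun p => PTb_sz_of_inv (PTb_inv_iter _ _ _ _)

@[fun_prop] theorem PTb_commL {n : α → ℕ} {g h : α → PL} (hn : PT n) (hs : Small n) (hg : PT g)
    (hh : PT h) : PT fun a => commL (n a) (g a) (h a) := by
  unfold commL; fun_prop

@[fun_prop] theorem PTb_derT {n : α → ℕ} {T : α → List PL} (hn : PT n) (hs : Small n)
    (hT : PT T) : PT fun a => derT (n a) (T a) := by
  unfold derT; fun_prop

theorem PTb_sz_iter (n : ℕ) (T : List PL) (m : ℕ) :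
    sz ((derT n)^[m] T) ≤ sz T + (n * n + 1) * (2 * (n * (2 * n + 1)) + 1) := by
  cases m with
  | zero => exact Nat.le_add_right _ _
  | succ m =>
    rw [Function.iterate_succ_apply']
    exact (PTb_sz_of_inv (PTb_inv_iter _ _ _ _)).trans (Nat.le_add_left _ _)

theorem PTb_iter_derT {n k : α → ℕ} {T : α → List PL} (hn : PT n) (hs : Small n) (hT : PT T)
    (hk : PT k) (hk' : Small k) : PT fun a => (derT (n a))^[k a] (T a) := by
  have hb : Small fun a => sz (T a) + (n a * n a + 1) * (2 * (n a * (2 * n a + 1)) + 1) := by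
    fun_prop
  refine PT.iterate_nat (F := fun a => derT (n a)) hk hk' hT (by fun_prop) ?_
  exact (PB.reindex hb fun p : {p : α × ℕ // p.2 ≤ k p.1} => p.1.1).mono
    fun p => PTb_sz_iter _ _ _

@[fun_prop] theorem pt_allD {n : α → ℕ} {T : α → List PL} (hn : PT n) (hs : Small n)
    (hT : PT T) : PT fun a => allD (n a) (T a) := by
  have h : PT fun a => (List.range (n a * n a)).flatMap
      fun i => (derT (n a))^[min i (n a * n a)] (T a) :=
    PT.flatMap (f := fun a i => (derT (n a))^[min i (n a * n a)] (T a)) (by fun_prop)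
      (PTb_iter_derT (n := fun p : α × ℕ => n p.1) (k := fun p : α × ℕ => min p.2 (n p.1 * n p.1))
        (T := fun p : α × ℕ => T p.1) (by fun_prop) (by fun_prop) (by fun_prop) (by fun_prop)
        (by fun_prop))
  refine h.congr fun a => ?_
  unfold allD
  refine List.flatMap_congr fun i hi => ?_
  rw [min_eq_left (List.mem_range.1 hi).le]

@[fun_prop] theorem pt_solvB {n : α → ℕ} {T : α → List PL} (hn : PT n) (hs : Small n)
    (hT : PT T) : PT fun a => solvB (n a) (T a) := by
  have h : PT fun a => (derT (n a))^[n a * n a] (T a) :=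
    PTb_iter_derT hn hs hT (by fun_prop) (by fun_prop)
  unfold solvB
  exact PT.all (f := fun a g => g == List.range (n a)) h (by fun_prop)

end Pool.Agent.P.MP_9e61a4_lc
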