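import Pool.Agent.P.MP_9e61a4_lc.Alg

/-! Notions used in the correctness proof. -/

namespace Pool.Agent.P.MP_9e61a4_lc

open Equiv

variable {n : ℕ}

/-- The list of images of a permutation. -/
def pl (π : Perm (Fin n)) : PL := List.ofFn fun i => ((π i : Fin n) : ℕ)

def code (a : Fin n × Fin n) : ℕ := (a.1 : ℕ) * n + (a.2 : ℕ)

def srel (R : Mat) (a b : Fin n × Fin n) : Prop := srelB R (code a) (code b) = true

/-- `π` is an isomorphism of decorated graphs. -/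
def Maps (G₁ : SimpleGraph (Fin n)) (Rs₁ : List Mat) (G₂ : SimpleGraph (Fin n)) (Rs₂ : List Mat)
    (π : Perm (Fin n)) : Prop :=
  (∀ u v, G₂.Adj (π u) (π v) ↔ G₁.Adj u v) ∧ Rs₁.length = Rs₂.length ∧
    ∀ r < Rs₁.length, ∀ a b : Fin n × Fin n,
      srel (Rs₂.getD r []) (π • a) (π • b) ↔ srel (Rs₁.getD r []) a b

theorem Maps.mul {G₁ G₂ G₃ : SimpleGraph (Fin n)} {Rs₁ Rs₂ Rs₃ : List Mat} {π ρ : Perm (Fin n)}
    (h : Maps G₂ Rs₂ G₃ Rs₃ π) (h' : Maps G₁ Rs₁ G₂ Rs₂ ρ) : Maps G₁ Rs₁ G₃ Rs₃ (π * ρ) :=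
  ⟨fun u v => (h.1 _ _).trans (h'.1 u v), h'.2.1.trans h.2.1, fun r hr a b => by
    rw [mul_smul, mul_smul]
    exact (h.2.2 r (h'.2.1 ▸ hr) _ _).trans (h'.2.2 r hr a b)⟩

theorem Maps.inv {G₁ G₂ : SimpleGraph (Fin n)} {Rs₁ Rs₂ : List Mat} {π : Perm (Fin n)}
    (h : Maps G₁ Rs₁ G₂ Rs₂ π) : Maps G₂ Rs₂ G₁ Rs₁ π⁻¹ :=
  ⟨fun u v => by simpa using (h.1 (π⁻¹ u) (π⁻¹ v)).symm, h.2.1.symm, fun r hr a b => by
    simpa using (h.2.2 r (h.2.1 ▸ hr) (π⁻¹ • a) (π⁻¹ • b)).symm⟩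

/-- The automorphism group of a decorated graph. -/
def AutS (G : SimpleGraph (Fin n)) (Rs : List Mat) : Subgroup (Perm (Fin n)) where
  carrier := {π | Maps G Rs G Rs π}
  one_mem' := ⟨fun _ _ => Iff.rfl, rfl, fun _ _ _ _ => by simp⟩
  mul_mem' := Maps.mul
  inv_mem' := Maps.inv

theorem maps_cons {G₁ G₂ : SimpleGraph (Fin n)} {R₁ R₂ : Mat} {Rs₁ Rs₂ : List Mat}
    {π : Perm (Fin n)} : Maps G₁ (R₁ :: Rs₁) G₂ (R₂ :: Rs₂) π ↔ Maps G₁ Rs₁ G₂ Rs₂ π ∧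
      ∀ a b : Fin n × Fin n, srel R₂ (π • a) (π • b) ↔ srel R₁ a b := by
  constructor
  · rintro ⟨h1, h2, h3⟩
    exact ⟨⟨h1, by simpa using h2, fun r hr => by
      simpa using h3 (r + 1) (by simpa using hr)⟩, by simpa using h3 0 (by simp)⟩
  · rintro ⟨⟨h1, h2, h3⟩, h4⟩
    refine ⟨h1, by simpa using h2, fun r hr => ?_⟩
    cases r with
    | zero => simpa using h4
    | succ r => simpa using h3 r (by simpa using hr)

/-- `π` agrees with the list of prescribed images. -/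
def Extd (π : Perm (Fin n)) (σ : List (ℕ × ℕ)) : Prop :=
  ∀ q ∈ σ, ∀ x : Fin n, (x : ℕ) = q.1 → ((π x : Fin n) : ℕ) = q.2

/-- `t` decides isomorphism. -/
def Tests (t : Mat × Mat → Bool) : Prop :=
  ∀ (m : ℕ) (G H : SimpleGraph (Fin m)), t (adjMat G, adjMat H) = true ↔ Nonempty (G ≃g H)

/-- The product of all `j ≤ n` not divisible by `p`. -/
def Mn (n p : ℕ) : ℕ := ∏ j ∈ (Finset.range (n + 1)).filter (fun j => ¬p ∣ j), j

section

variable {V : Type}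

/-- Two pairs lie in one orbit of `L`. -/
def Orb (L : Subgroup (Perm V)) (a b : V × V) : Prop := ∃ l ∈ L, l • a = b

/-- `g` permutes the orbits of `L` on pairs. -/
def Pres (L : Subgroup (Perm V)) (g : Perm V) : Prop :=
  ∀ a b : V × V, Orb L (g • a) (g • b) ↔ Orb L a b

/-- The elements of `H` that fix every orbit of `L` on pairs. -/
def clo (H L : Subgroup (Perm V)) : Subgroup (Perm V) where
  carrier := {g | g ∈ H ∧ ∀ a : V × V, Orb L a (g • a)}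
  one_mem' := ⟨H.one_mem, fun _ => ⟨1, L.one_mem, rfl⟩⟩
  mul_mem' := fun {g h} hg hh => ⟨H.mul_mem hg.1 hh.1, fun a => by
    obtain ⟨l, hl, e⟩ := hh.2 a
    obtain ⟨l', hl', e'⟩ := hg.2 (h • a)
    exact ⟨l' * l, L.mul_mem hl' hl, by rw [mul_smul, e, e', mul_smul]⟩⟩
  inv_mem' := fun {g} hg => ⟨H.inv_mem hg.1, fun a => by
    obtain ⟨l, hl, e⟩ := hg.2 (g⁻¹ • a)
    exact ⟨l⁻¹, L.inv_mem hl, by rw [inv_smul_eq_iff, e, smul_inv_smul]⟩⟩

/-- `K` is a maximal `p`-subgroup of `H`. -/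
def MaxP (p : ℕ) (H K : Subgroup (Perm V)) : Prop :=
  K ≤ H ∧ IsPGroup p K ∧ ∀ Q ≤ H, IsPGroup p Q → K ≤ Q → Q = K

/-- The derived series of a subgroup. -/
def dser (N : Subgroup (Perm V)) : ℕ → Subgroup (Perm V)
  | 0 => N
  | i + 1 => ⁅dser N i, dser N i⁆

/-- The first-order description of the original vertices in the gadget graph. -/
def IsV (Z : SimpleGraph V) (x : V) : Prop :=
  ∃ o s q r, Z.Adj o s ∧ (∀ z, Z.Adj o z → z = s) ∧ Z.Adj q s ∧ Z.Adj q r ∧ r ≠ s ∧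
    (∀ z, Z.Adj q z → z = s ∨ z = r) ∧ Z.Adj x r ∧ ¬Z.Adj x s ∧ x ≠ s

end

/-- The vertices of the gadget graph. -/
inductive Vx (n j k : ℕ) : Type
  | v (u : Fin n)
  | w (u : Fin n)
  | p (r : Fin j) (a : Fin n × Fin n)
  | q (i : Fin (j + k + 5))
  | s
  | o
  | e

/-- One direction of the adjacency relation of the gadget graph. -/
def Half (G : SimpleGraph (Fin n)) (j k : ℕ) (Rs : List Mat) (ms : List ℕ) :
    Vx n j k → Vx n j k → Prop
  | .v u, .v u' => G.Adj u u'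
  | .v u, .w u' => u = u'
  | .v u, .p _ a => u = a.1
  | .w u, .p _ a => u = a.2
  | .p r a, .p r' b => r = r' ∧ a ≠ b ∧ srel (Rs.getD r []) a b
  | .v u, .q i => (i : ℕ) = 1 ∨ (j + 3 ≤ (i : ℕ) ∧ (i : ℕ) < j + 3 + k ∧ ms.getD (i - (j + 3)) 0 = u)
  | .w _, .q i => (i : ℕ) = 2
  | .p r _, .q i => (i : ℕ) = r + 3
  | .q i, .q i' => (i' : ℕ) = i + 1
  | .q _, .s => True
  | .q i, .e => j + k + 3 ≤ (i : ℕ)
  | .s, .o => True
  | _, _ => False

/-- The gadget graph. -/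
def GW (G : SimpleGraph (Fin n)) (j k : ℕ) (Rs : List Mat) (ms : List ℕ) :
    SimpleGraph (Vx n j k) where
  Adj x y := Half G j k Rs ms x y ∨ Half G j k Rs ms y x
  symm := ⟨fun _ _ h => h.symm⟩
  loopless := ⟨fun x h => by cases x <;> simp [Half] at h⟩

def liftF (j k : ℕ) (π : Perm (Fin n)) : Vx n j k → Vx n j k
  | .v u => .v (π u)
  | .w u => .w (π u)
  | .p r a => .p r (π • a)
  | x => x

/-- The action of the permutations of the original vertices on the gadget. -/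
def liftV (j k : ℕ) : Perm (Fin n) →* Perm (Vx n j k) where
  toFun π := ⟨liftF j k π, liftF j k π⁻¹, fun x => by cases x <;> simp [liftF],
    fun x => by cases x <;> simp [liftF]⟩
  map_one' := by ext x; cases x <;> simp [liftF]
  map_mul' π ρ := by ext x; cases x <;> simp [liftF, mul_smul]

def desc {j k : ℕ} : Vx n j k → Ds
  | .v u => (0, 0, u, 0)
  | .w u => (1, 0, u, 0)
  | .p r a => (2, r, a.1, a.2)
  | .q i => (3, 0, i, 0)
  | .s => (4, 0, 0, 0)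
  | .o => (4, 1, 0, 0)
  | .e => (4, 2, 0, 0)

end Pool.Agent.P.MP_9e61a4_lc
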